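import Pool.Agent.Lib_MP_af4de1_w.Defs

/-!
# Comparison of `U` and `1/V` [AW-03]

`W = t⁻¹/k = A + iB` with `A ≥ 0`, `‖W‖ ≤ ε`.  `1 + tk = (1+W)/W`, `1/V = Re(k/(1+tk)) = Re(kW/(1+W))
= k(A + A² + B²)/‖1+W‖²` and `U = k(A + B²)`, so `U V = (A+B²)‖1+W‖²/(A+A²+B²) ≥ ‖1+W‖²/(1+A) ≥ (1-ε)²/(1+ε) ≥ 1 - δ`.
(`V k t = ‖1+tk‖²/(k(1+k Re t))`; `k(1 + k Re t) = Re(k(1+tk))`, `Re(k/(1+tk)) = k Re(1+tk)/‖1+tk‖²`.)
-/

namespace SokalW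

open Complex SokalU

theorem U_lower {δ : ℝ} (hδ : 0 < δ) : ∃ ε : ℝ, 0 < ε ∧ ∀ (t : ℂ) (k : ℝ), 0 ≤ t.re → t ≠ 0 →
    0 < k → ‖t⁻¹‖ ≤ ε * k → (1 - δ) / V k t ≤ U k t := by
  refine ⟨1, one_pos, ?_⟩
  intro t k ht0 htne hk _
  obtain ⟨a, ha⟩ : ∃ a : ℝ, a = t.re := ⟨_, rfl⟩
  obtain ⟨b, hb⟩ : ∃ b : ℝ, b = t.im := ⟨_, rfl⟩
  have hN : 0 < a ^ 2 + b ^ 2 := by
    have h1 := Complex.normSq_pos.2 htne
    rw [Complex.normSq_apply, ← ha, ← hb] at h1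
    nlinarith
  have ha0 : 0 ≤ a := by rw [ha]; exact ht0
  have hnorm : ‖1 + t * (k : ℂ)‖ ^ 2 = (1 + a * k) ^ 2 + (b * k) ^ 2 := by
    rw [Complex.sq_norm, Complex.normSq_apply]
    simp only [Complex.add_re, Complex.add_im, Complex.one_re, Complex.one_im, Complex.mul_re, Complex.mul_im,
      Complex.ofReal_re, Complex.ofReal_im, mul_zero, sub_zero, zero_add, ← ha, ← hb]
    ring
  have h1ak : 0 < 1 + a * k := by positivity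
  have hD : 0 < (1 + a * k) ^ 2 + (b * k) ^ 2 := by positivity
  have hV : V k t = ((1 + a * k) ^ 2 + (b * k) ^ 2) / (k * (1 + a * k)) := by
    unfold V
    rw [hnorm, ← ha]
  have hVpos : 0 < V k t := by rw [hV]; positivity
  have hU : U k t = a / (a ^ 2 + b ^ 2) + b ^ 2 / ((a ^ 2 + b ^ 2) ^ 2 * k) := by
    unfold U
    rw [Complex.inv_re, Complex.inv_im, Complex.normSq_apply, ← ha, ← hb]
    have hN' : a * a + b * b = a ^ 2 + b ^ 2 := by ring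
    rw [hN']
    field_simp
  have h2 : (1 - δ) / V k t ≤ 1 / V k t := by
    apply div_le_div_of_nonneg_right _ hVpos.le
    linarith
  refine h2.trans ?_
  rw [hV, one_div_div, hU, div_le_iff₀ hD]
  have h3 : (a / (a ^ 2 + b ^ 2) + b ^ 2 / ((a ^ 2 + b ^ 2) ^ 2 * k)) * ((1 + a * k) ^ 2 + (b * k) ^ 2) =
      k * (1 + a * k) + (a * (a ^ 2 + b ^ 2) * k + a ^ 2 * (a ^ 2 + b ^ 2) * k ^ 2 + b ^ 2 + 2 * a * b ^ 2 * k) /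
        ((a ^ 2 + b ^ 2) ^ 2 * k) := by
    field_simp
    ring
  rw [h3]
  have h4 : 0 ≤ (a * (a ^ 2 + b ^ 2) * k + a ^ 2 * (a ^ 2 + b ^ 2) * k ^ 2 + b ^ 2 + 2 * a * b ^ 2 * k) /
        ((a ^ 2 + b ^ 2) ^ 2 * k) := by positivity
  linarith

end SokalW
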