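import Pool.Agent.Lib_MP_af4de1_w.Core
import Pool.Agent.Lib_MP_af4de1_w.Vapp

/-!
# Part (W): no multiple zero for `|t| k` large
-/

namespace SokalW

open Complex SokalU ComplexConjugate

theorem conj_F (q z : ℂ) : SokalF.F (conj q) (conj z) = conj (SokalF.F q z) := by
  unfold SokalF.F
  rw [Complex.conj_tsum]
  refine tsum_congr fun n => ?_
  simp only [map_mul, map_div₀, map_pow, map_natCast]

/-- Part (W) for `Im t ≤ 0`. -/
theorem mainW_neg (N : ℕ) (hN : 0 < N) : ∃ K0 : ℝ, 0 < K0 ∧ ∀ (a : ℤ) (t : ℂ) (k β : ℝ),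
    IsCoprime a (N : ℤ) → 0 ≤ t.re → t.im ≤ 0 → K0 ≤ k → K0 ≤ ‖t‖ * k →
    (N : ℝ) ^ 2 * V k t ≤ 4 * Real.pi →
    SokalF.F (cexp (2 * Real.pi * I * a / N) * cexp (-t)) (zp t k * cexp (β * I)) = 0 →
    SokalF.F (cexp (2 * Real.pi * I * a / N) * cexp (-t))
      (cexp (2 * Real.pi * I * a / N) * cexp (-t) * (zp t k * cexp (β * I))) = 0 → False := by
  obtain ⟨ε1, hε1, hcore⟩ := coreW N hN
  obtain ⟨ε2, hε2, hU⟩ := U_lower (δ := 1 / 100) (by norm_num)
  set ε : ℝ := min ε1 ε2 with hε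
  have hε0 : 0 < ε := lt_min hε1 hε2
  refine ⟨ε⁻¹, inv_pos.2 hε0, ?_⟩
  intro a t k β ha htre htim hk htk hNV hF hF'
  have hpi := Real.pi_pos
  have hpi4 := Real.pi_lt_d2
  have hk0 : 0 < k := (inv_pos.2 hε0).trans_le hk
  have hNR : (0 : ℝ) < N := by exact_mod_cast hN
  have hN1 : (1 : ℝ) ≤ N := by exact_mod_cast hN
  have ht0 : t ≠ 0 := by
    rintro rfl
    rw [norm_zero, zero_mul] at htk
    linarith [inv_pos.2 hε0]
  have htn : 0 < ‖t‖ := norm_pos_iff.2 ht0
  have hti : ‖t⁻¹‖ ≤ ε * k := by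
    rw [norm_inv, inv_le_iff_one_le_mul₀ htn]
    have := mul_le_mul_of_nonneg_left htk hε0.le
    rw [mul_inv_cancel₀ hε0.ne'] at this
    linarith
  have hV : 0 < V k t := V_pos hk0 htre
  have hUl := hU t k htre ht0 hk0 (hti.trans (mul_le_mul_of_nonneg_right (min_le_right _ _) hk0.le))
  have hV' : (N : ℝ) ^ 2 / (4 * Real.pi) ≤ 1 / V k t := by
    rw [div_le_div_iff₀ (by positivity) hV]
    linarith
  have hN2 : (1 : ℝ) ≤ (N : ℝ) ^ 2 := one_le_pow₀ hN1
  have hUV : 99 / 100 * ((N : ℝ) ^ 2 / (4 * Real.pi)) ≤ U k t := by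
    refine le_trans ?_ hUl
    have : (1 - 1 / 100) / V k t = 99 / 100 * (1 / V k t) := by ring
    rw [this]
    gcongr
  have hU7 : 7 / 100 ≤ U k t := by
    refine le_trans ?_ hUV
    rw [mul_div_assoc', le_div_iff₀ (by positivity)]
    nlinarith
  have hUh : 99 / 100 * Real.pi ≤ (2 * Real.pi / N) ^ 2 * U k t := by
    have h1 : (2 * Real.pi / N) ^ 2 * (99 / 100 * ((N : ℝ) ^ 2 / (4 * Real.pi))) =
        99 / 100 * Real.pi := by
      field_simp
      ring
    rw [← h1]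
    gcongr
  have hR : Reg ε k t := ⟨hε0, htre, htim, hk, hti, by linarith⟩
  exact hcore a t k β ha (hR.mono (min_le_left _ _)) hU7 hUh hF hF'

/-- **Part (W)**: for every order `N ≥ 1` there are no multiple zeros with `k` and `|t| k` large. -/
theorem mainW (N : ℕ) (hN : 0 < N) : ∃ K0 : ℝ, 0 < K0 ∧ ∀ (a : ℤ) (t : ℂ) (k β : ℝ),
    IsCoprime a (N : ℤ) → 0 ≤ t.re → K0 ≤ k → K0 ≤ ‖t‖ * k →
    (N : ℝ) ^ 2 * V k t ≤ 4 * Real.pi →
    SokalF.F (cexp (2 * Real.pi * I * a / N) * cexp (-t)) (zp t k * cexp (β * I)) = 0 →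
    SokalF.F (cexp (2 * Real.pi * I * a / N) * cexp (-t))
      (cexp (2 * Real.pi * I * a / N) * cexp (-t) * (zp t k * cexp (β * I))) = 0 → False := by
  obtain ⟨K0, hK0, H⟩ := mainW_neg N hN
  refine ⟨K0, hK0, ?_⟩
  intro a t k β ha htre hk htk hNV hF hF'
  rcases le_total t.im 0 with htim | htim
  · exact H a t k β ha htre htim hk htk hNV hF hF'
  · have eω : cexp (2 * Real.pi * I * ((-a : ℤ) : ℂ) / N) = conj (cexp (2 * Real.pi * I * a / N)) := by
      rw [← Complex.exp_conj]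
      congr 1
      simp only [map_div₀, map_mul, map_ofNat, Complex.conj_ofReal, Complex.conj_I, map_intCast,
        map_natCast]
      push_cast
      ring
    have et : cexp (-(conj t)) = conj (cexp (-t)) := by
      rw [← Complex.exp_conj, map_neg]
    have ez : zp (conj t) k * cexp (((-β : ℝ) : ℂ) * I) = conj (zp t k * cexp (β * I)) := by
      rw [map_mul, ← conj_zp, Complex.conj_ofReal, ← Complex.exp_conj, map_mul,
        Complex.conj_ofReal, Complex.conj_I]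
      push_cast
      ring_nf
    refine H (-a) (conj t) k (-β) ha.neg_left (by rwa [Complex.conj_re])
      (by rw [Complex.conj_im]; linarith) hk (by rwa [Complex.norm_conj]) (by rwa [V_conj]) ?_ ?_
    · rw [eω, et, ez, ← map_mul, conj_F, hF, map_zero]
    · rw [eω, et, ez, ← map_mul, ← map_mul, conj_F, hF', map_zero]

end SokalW
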