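import Pool.Agent.Lib_MP_af4de1_w.Defs

/-!
# The saddle point `κ = k e^l` of a wave [AW-04]

`exists_ell`: put `ρ = 2(R+1)‖W‖ ≤ 1/20` (and `‖W‖ ≤ 1/20`).  The map `Φ(l) = 1 + l - e^l + W(iη - l)` maps the closed ball of radius `ρ`
into itself: `‖e^l - 1 - l‖ ≤ ‖l‖²` (`Complex.norm_exp_sub_one_sub_id_le`) `≤ ρ/20`, `‖W(iη-l)‖ ≤ ‖W‖(R+1) = ρ/2`.
It is a contraction with the constant `1/2`: its derivative is `1 - e^l - W`, `‖e^l - 1‖ ≤ 2‖l‖ ≤ 1/10`.  Fixed point: Banach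
(`ContractingWith.exists_fixedPoint'` or as in the proof of `SokalU.saddle_exists` in `Lib_MP_af4de1_u/Saddle.lean`).
`f_shift`: with `y = x + iη - l`, `κ = k e^l`: `iη + x = l + y`... exponent of `f t k (iη) x`: `x²/(2t) + k(e^{iη+x} - 1 - x)`.
Put `d = e^l - 1`, so `tkd = iη - l` and `x = y - tkd`, `e^{iη + x} = e^{l + y}`; then
`x²/(2t) - kx = y²/(2t) - ykd + tk²d²/2 - ky + tk²d`, and `S t κ - S t k = kd + tk²(d² + 2d)/2`, and
`κ(e^y - 1 - y) = k e^{l+y} - k(1+d)(1+y)`: both sides agree.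
`S_diff`: `S t κ - S t k = kd + tk²d(d+2)/2` and `tkd = y0`, `d = W y0`, `y0 = iη - l`, `W = (tk)⁻¹`.
-/

namespace SokalW

open Complex SokalU

private theorem id_sub_exp_lip {l l' : ℂ} (hl : ‖l‖ ≤ 1 / 20) (hl' : ‖l'‖ ≤ 1 / 20) :
    ‖(l - cexp l) - (l' - cexp l')‖ ≤ 1 / 10 * ‖l - l'‖ := by
  refine Convex.norm_image_sub_le_of_norm_hasDerivWithin_le (𝕜 := ℂ) (f := fun z => z - cexp z)
    (f' := fun z => 1 - cexp z) (s := Metric.closedBall (0 : ℂ) (1 / 20)) (C := 1 / 10) ?_ ?_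
    (convex_closedBall _ _) (by simpa using hl') (by simpa using hl)
  · intro z hz
    exact ((hasDerivAt_id z).sub (Complex.hasDerivAt_exp z)).hasDerivWithinAt
  · intro z hz
    have hz' : ‖z‖ ≤ 1 / 20 := by simpa using hz
    have h1 := Complex.norm_exp_sub_one_le (x := z) (by linarith)
    rw [← norm_neg] at h1
    have h2 : -(cexp z - 1) = 1 - cexp z := by ring
    rw [h2] at h1
    linarith

theorem exists_ell (R : ℝ) (hR : 0 ≤ R) : ∃ ε : ℝ, 0 < ε ∧ ∀ (W : ℂ) (η : ℝ), ‖W‖ ≤ ε → |η| ≤ R →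
    ∃ l : ℂ, ‖l‖ ≤ 2 * (R + 1) * ‖W‖ ∧ cexp l - 1 = W * (η * I - l) := by
  refine ⟨1 / (40 * (R + 1)), by positivity, fun W η hW hη => ?_⟩
  have hR1 : 0 < R + 1 := by linarith
  have hW0 : 0 ≤ ‖W‖ := norm_nonneg _
  have hWR : (R + 1) * ‖W‖ ≤ 1 / 40 := by
    have h1 := mul_le_mul_of_nonneg_left hW hR1.le
    have h2 : (R + 1) * (1 / (40 * (R + 1))) = 1 / 40 := by field_simp
    linarith
  have hW1 : ‖W‖ ≤ 1 / 40 := by nlinarith
  obtain ⟨r, hr⟩ : ∃ r : ℝ, r = 2 * (R + 1) * ‖W‖ := ⟨_, rfl⟩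
  have hr0 : 0 ≤ r := by rw [hr]; positivity
  have hr1 : r ≤ 1 / 20 := by rw [hr]; linarith
  have hrW : ‖W‖ * (R + 1) = r / 2 := by rw [hr]; ring
  obtain ⟨g, hg⟩ : ∃ g : ℂ → ℂ, ∀ l, g l = 1 + l - cexp l + W * (η * I - l) := ⟨_, fun _ => rfl⟩
  have hmem : ∀ x : ℂ, x ∈ Metric.closedBall (0 : ℂ) r ↔ ‖x‖ ≤ r := fun x => by simp
  have hηI : ‖(η : ℂ) * I‖ = |η| := by
    rw [norm_mul, Complex.norm_I, mul_one, Complex.norm_real, Real.norm_eq_abs]
  have hmaps : Set.MapsTo g (Metric.closedBall (0 : ℂ) r) (Metric.closedBall (0 : ℂ) r) := by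
    intro x hx
    rw [hmem] at hx ⊢
    have hx1 : ‖x‖ ≤ 1 := by linarith
    have h1 := Complex.norm_exp_sub_one_sub_id_le hx1
    have h2 : ‖(η : ℂ) * I - x‖ ≤ R + 1 := by
      refine (norm_sub_le _ _).trans ?_
      rw [hηI]
      linarith
    have h3 : g x = -(cexp x - 1 - x) + W * (η * I - x) := by rw [hg]; ring
    rw [h3]
    refine (norm_add_le _ _).trans ?_
    rw [norm_neg, norm_mul]
    have h4 : ‖W‖ * ‖(η : ℂ) * I - x‖ ≤ r / 2 := by
      rw [← hrW]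
      exact mul_le_mul_of_nonneg_left h2 hW0
    have h5 : ‖x‖ ^ 2 ≤ r / 20 := by
      have := norm_nonneg x
      nlinarith
    linarith
  have hlip : ∀ x ∈ Metric.closedBall (0 : ℂ) r, ∀ y ∈ Metric.closedBall (0 : ℂ) r,
      ‖g x - g y‖ ≤ 1 / 2 * ‖x - y‖ := by
    intro x hx y hy
    rw [hmem] at hx hy
    have h1 := id_sub_exp_lip (hx.trans hr1) (hy.trans hr1)
    have h2 : g x - g y = ((x - cexp x) - (y - cexp y)) - W * (x - y) := by
      rw [hg, hg]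
      ring
    rw [h2]
    refine (norm_sub_le _ _).trans ?_
    rw [norm_mul]
    have h3 : ‖W‖ * ‖x - y‖ ≤ 1 / 40 * ‖x - y‖ := mul_le_mul_of_nonneg_right hW1 (norm_nonneg _)
    have h4 := norm_nonneg (x - y)
    linarith
  have hc : ContractingWith (1 / 2 : NNReal) (hmaps.restrict g _ _) := by
    refine ⟨by
      rw [← NNReal.coe_lt_coe]
      norm_num, LipschitzWith.of_dist_le_mul fun x y => ?_⟩
    rw [Subtype.dist_eq, Subtype.dist_eq, dist_eq_norm, dist_eq_norm]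
    have h1 := hlip x x.2 y y.2
    simpa using h1
  obtain ⟨x, hx, hfix, -⟩ := hc.exists_fixedPoint' Metric.isClosed_closedBall.isComplete hmaps
    (x := (0 : ℂ)) (by simpa using hr0) (edist_ne_top _ _)
  refine ⟨x, ?_, ?_⟩
  · rw [← hr]
    exact (hmem x).1 hx
  · have h1 : g x = x := hfix
    rw [hg] at h1
    linear_combination -h1

theorem f_shift {t l : ℂ} {k η : ℝ} (ht : t ≠ 0) (hk : k ≠ 0)
    (hl : cexp l - 1 = (t * k)⁻¹ * (η * I - l)) (x : ℂ) :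
    cexp (S t k) * f t k (η * I) x = cexp (S t (k * cexp l)) * f t (k * cexp l) 0 (x + η * I - l) := by
  have hk' : (k : ℂ) ≠ 0 := by exact_mod_cast hk
  have hy : (η : ℂ) * I - l = t * k * (cexp l - 1) := by
    rw [hl, ← mul_assoc, mul_inv_cancel₀ (mul_ne_zero ht hk'), one_mul]
  have hP : cexp l * cexp (0 + (x + η * I - l)) = cexp (η * I + x) := by
    rw [← Complex.exp_add]
    congr 1
    ring
  unfold f
  rw [← Complex.exp_add, ← Complex.exp_add]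
  congr 1
  unfold S
  have hP' : (k : ℂ) * cexp l * (cexp (0 + (x + η * I - l)) - 1 - (x + η * I - l))
      = k * cexp (η * I + x) - k * cexp l * (1 + (x + t * k * (cexp l - 1))) := by
    rw [← hP, ← hy]
    ring
  rw [hP']
  have hx : x + (η : ℂ) * I - l = x + t * k * (cexp l - 1) := by rw [← hy]; ring
  rw [hx]
  field_simp
  ring

theorem S_diff {t l : ℂ} {k η : ℝ} (ht : t ≠ 0) (hk : k ≠ 0)
    (hl : cexp l - 1 = (t * k)⁻¹ * (η * I - l)) :
    S t (k * cexp l) - S t k = k * ((t * k)⁻¹ * (η * I - l) + (η * I - l) +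
      (t * k)⁻¹ * (η * I - l) ^ 2 / 2) := by
  have hk' : (k : ℂ) ≠ 0 := by exact_mod_cast hk
  have hy : (η : ℂ) * I - l = t * k * (cexp l - 1) := by
    rw [hl, ← mul_assoc, mul_inv_cancel₀ (mul_ne_zero ht hk'), one_mul]
  rw [hy]
  unfold S
  field_simp
  ring

end SokalW
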