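import Pool.Agent.Lib_MP_af4de1_w.Defs

/-!
# The window integral at its saddle point [AW-06]

`κ = k e^l`, `‖κ - k‖ ≤ 2‖l‖k`, `θ = Im l`.  On the window `|s| ≤ π` put `σ = s - θ`, `|σ| ≤ 33/10` (`|θ| ≤ ε`).  The exponent of
`f t κ 0 (iσ)` is `Q = -σ²/(2t) + κ(e^{iσ} - 1 - iσ)`.
(1) `Re Q ≤ k(cos σ - 1) + 2‖l‖k·55σ² ≤ -kσ²/10` since `Re(1/t) ≥ 0`, `‖e^{iσ} - 1 - iσ‖ ≤ 55σ²` and `1 - cos σ = 2 sin²(σ/2) ≥ σ²/8`
for `|σ| ≤ 33/10` (`sin u ≥ u/2` for `0 ≤ u ≤ 33/20`), `‖l‖ ≤ 1/10000`.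
(2) `‖Q + kσ²/2‖ ≤ εkσ²/2 + 110‖l‖kσ² + 55k|σ|³` (`‖e^{iσ} - 1 - iσ + σ²/2‖ ≤ 55|σ|³`).
(3) `‖e^Q - e^{-kσ²/2}‖ ≤ ‖Q + kσ²/2‖ e^{-kσ²/10}` (both exponents have real part `≤ -kσ²/10`).
(4) powers of `σ` are absorbed in `e^{-kσ²/20}`; the integrand cut off outside of the window minus `e^{-kσ²/2}` has the norm
`≤ 20000 √ε e^{-kσ²/20}` on the whole line.
-/

namespace SokalW

open Complex SokalU MeasureTheory

private lemma lap_exp_sub {a b : ℂ} {M : ℝ} (ha : a.re ≤ M) (hb : b.re ≤ M) :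
    ‖cexp a - cexp b‖ ≤ ‖a - b‖ * Real.exp M := by
  have hconv : Convex ℝ {z : ℂ | z.re ≤ M} := convex_halfSpace_re_le M
  have h := hconv.norm_image_sub_le_of_norm_deriv_le (f := cexp) (C := Real.exp M)
    (fun x _ => Complex.differentiable_exp x)
    (fun x hx => by
      rw [Complex.deriv_exp, Complex.norm_exp]
      exact Real.exp_le_exp.2 hx) hb ha
  rw [mul_comm]
  exact h

private lemma lap_sin {u : ℝ} (h0 : 0 ≤ u) (h1 : u ≤ 33 / 20) : u / 2 ≤ Real.sin u := by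
  have hπ := Real.pi_gt_d2
  have hπ' := Real.pi_lt_d2
  rcases le_total u (Real.pi / 2) with h | h
  · have h2 := Real.mul_le_sin h0 h
    refine le_trans ?_ h2
    have h3 : (1 : ℝ) / 2 ≤ 2 / Real.pi := by
      rw [div_le_div_iff₀ (by norm_num) Real.pi_pos]
      linarith
    nlinarith
  · have h2 : Real.sin u = Real.cos (u - Real.pi / 2) := by
      rw [Real.cos_sub_pi_div_two]
    rw [h2]
    have h3 := Real.one_sub_sq_div_two_le_cos (x := u - Real.pi / 2)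
    have h4 : (u - Real.pi / 2) ^ 2 ≤ 1 / 100 := by nlinarith
    linarith

private lemma lap_cos {σ : ℝ} (h : |σ| ≤ 33 / 10) : Real.cos σ - 1 ≤ -(σ ^ 2 / 8) := by
  have h1 := lap_sin (u := |σ| / 2) (by positivity) (by linarith)
  have h2 : Real.cos σ = 1 - 2 * Real.sin (|σ| / 2) ^ 2 := by
    rw [← Real.cos_abs σ]
    have h3 := Real.cos_sq_add_sin_sq (|σ| / 2)
    have h4 := Real.cos_two_mul (|σ| / 2)
    rw [show 2 * (|σ| / 2) = |σ| by ring] at h4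
    rw [h4]
    linarith
  have h3 : (|σ| / 2 / 2) ^ 2 ≤ Real.sin (|σ| / 2) ^ 2 := pow_le_pow_left₀ (by positivity) h1 2
  have h4 : (|σ| / 2 / 2) ^ 2 = σ ^ 2 / 16 := by
    rw [div_pow, div_pow, sq_abs]
    ring
  rw [h4] at h3
  rw [h2]
  linarith

private lemma lap_e55 {σ : ℝ} (h : |σ| ≤ 33 / 10) : Real.exp ‖(σ : ℂ) * I‖ ≤ 55 := by
  have h1 : ‖(σ : ℂ) * I‖ = |σ| := by simp
  rw [h1]
  have h2 : Real.exp |σ| ≤ Real.exp 4 := Real.exp_le_exp.2 (by linarith)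
  have h3 : Real.exp 4 = Real.exp 1 ^ 4 := by
    rw [← Real.exp_nat_mul]
    norm_num
  have h4 : Real.exp 1 ^ 4 ≤ 2.7182818286 ^ 4 := pow_le_pow_left₀ (Real.exp_pos 1).le Real.exp_one_lt_d9.le 4
  have h5 : (2.7182818286 : ℝ) ^ 4 ≤ 55 := by norm_num
  linarith

private lemma lap_e2 {σ : ℝ} (h : |σ| ≤ 33 / 10) : ‖cexp (σ * I) - 1 - σ * I‖ ≤ 55 * σ ^ 2 := by
  have h1 := Complex.norm_exp_sub_sum_le_norm_mul_exp ((σ : ℂ) * I) 2
  have h2 : ∑ m ∈ Finset.range 2, ((σ : ℂ) * I) ^ m / (m.factorial : ℂ) = 1 + σ * I := by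
    simp [Finset.sum_range_succ]
  have h3 : ‖(σ : ℂ) * I‖ ^ 2 = σ ^ 2 := by simp
  rw [h2, h3, ← sub_sub] at h1
  refine h1.trans ?_
  rw [mul_comm]
  exact mul_le_mul_of_nonneg_right (lap_e55 h) (sq_nonneg _)

private lemma lap_e3 {σ : ℝ} (h : |σ| ≤ 33 / 10) :
    ‖cexp (σ * I) - 1 - σ * I + σ ^ 2 / 2‖ ≤ 55 * |σ| ^ 3 := by
  have h1 := Complex.norm_exp_sub_sum_le_norm_mul_exp ((σ : ℂ) * I) 3
  have h2 : ∑ m ∈ Finset.range 3, ((σ : ℂ) * I) ^ m / (m.factorial : ℂ) = 1 + σ * I - σ ^ 2 / 2 := by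
    simp [Finset.sum_range_succ, Nat.factorial, mul_pow]
    ring
  have h3 : ‖(σ : ℂ) * I‖ ^ 3 = |σ| ^ 3 := by simp
  rw [h2, h3, show cexp (σ * I) - (1 + σ * I - σ ^ 2 / 2) = cexp (σ * I) - 1 - σ * I + (σ : ℂ) ^ 2 / 2 by ring] at h1
  refine h1.trans ?_
  rw [mul_comm]
  exact mul_le_mul_of_nonneg_right (lap_e55 h) (by positivity)

/-- the exponent -/
private noncomputable def lapQ (t l : ℂ) (k σ : ℝ) : ℂ :=
  -((σ ^ 2 / 2 : ℝ) : ℂ) * t⁻¹ + (k * cexp l) * (cexp (σ * I) - 1 - σ * I)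

private lemma lap_f (t l : ℂ) (k σ : ℝ) : f t (k * cexp l) 0 (σ * I) = cexp (lapQ t l k σ) := by
  unfold f lapQ
  rw [zero_add]
  congr 2
  rw [mul_pow, Complex.I_sq, mul_comm (2 : ℂ) t, div_eq_mul_inv, mul_inv]
  push_cast
  ring

private lemma lap_kappa {l : ℂ} {k : ℝ} (hk : 0 ≤ k) (hl : ‖l‖ ≤ 1) : ‖(k : ℂ) * cexp l - k‖ ≤ 2 * ‖l‖ * k := by
  have h1 : (k : ℂ) * cexp l - k = k * (cexp l - 1) := by ring
  rw [h1, norm_mul, Complex.norm_real, Real.norm_of_nonneg hk]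
  have h2 := Complex.norm_exp_sub_one_le hl
  nlinarith

private lemma lap_core {t l : ℂ} {k ε σ : ℝ} (hT : 0 ≤ (t⁻¹).re) (hk : 0 ≤ k) (hε : ε ≤ 1 / 10000)
    (ht : ‖t⁻¹‖ ≤ ε * k) (hl : ‖l‖ ≤ ε) (hσ : |σ| ≤ 33 / 10) :
    ‖f t (k * cexp l) 0 (σ * I)‖ ≤ Real.exp (-(k * σ ^ 2 / 10)) ∧
    ‖f t (k * cexp l) 0 (σ * I) - Real.exp (-(k * σ ^ 2 / 2))‖ ≤
      (111 * ε * (k * σ ^ 2) + 55 * (k * |σ| ^ 3)) * Real.exp (-(k * σ ^ 2 / 10)) := by
  have hε0 : 0 ≤ ε := (norm_nonneg l).trans hl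
  have hκ := lap_kappa hk (l := l) (by linarith)
  have hκ' : ‖(k : ℂ) * cexp l - k‖ ≤ 2 * ε * k := by nlinarith
  have h2 := lap_e2 hσ
  have h3 := lap_e3 hσ
  have hkσ : 0 ≤ k * σ ^ 2 := by positivity
  have hprod : ‖((k : ℂ) * cexp l - k) * (cexp (σ * I) - 1 - σ * I)‖ ≤ 110 * ε * (k * σ ^ 2) := by
    rw [norm_mul]
    calc ‖(k : ℂ) * cexp l - k‖ * ‖cexp (σ * I) - 1 - σ * I‖ ≤ (2 * ε * k) * (55 * σ ^ 2) :=
          mul_le_mul hκ' h2 (norm_nonneg _) (by positivity)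
      _ = 110 * ε * (k * σ ^ 2) := by ring
  have hre : (lapQ t l k σ).re ≤ -(k * σ ^ 2 / 10) := by
    have e1 : lapQ t l k σ = -((σ ^ 2 / 2 : ℝ) : ℂ) * t⁻¹ + ((k : ℂ) * (cexp (σ * I) - 1 - σ * I)) +
        ((k : ℂ) * cexp l - k) * (cexp (σ * I) - 1 - σ * I) := by
      unfold lapQ
      ring
    have e2 : (-((σ ^ 2 / 2 : ℝ) : ℂ) * t⁻¹).re ≤ 0 := by
      rw [← Complex.ofReal_neg, Complex.re_ofReal_mul]
      nlinarith [sq_nonneg σ]
    have e3 : ((k : ℂ) * (cexp (σ * I) - 1 - σ * I)).re = k * (Real.cos σ - 1) := by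
      rw [Complex.re_ofReal_mul]
      simp [Complex.exp_ofReal_mul_I_re]
    have e4 := (Complex.re_le_norm (((k : ℂ) * cexp l - k) * (cexp (σ * I) - 1 - σ * I))).trans hprod
    have e5 : k * (Real.cos σ - 1) ≤ k * (-(σ ^ 2 / 8)) := mul_le_mul_of_nonneg_left (lap_cos hσ) hk
    rw [e1, Complex.add_re, Complex.add_re, e3]
    have e6 : 110 * ε * (k * σ ^ 2) ≤ 110 * (1 / 10000) * (k * σ ^ 2) := by nlinarith
    nlinarith
  constructor
  · rw [lap_f, Complex.norm_exp]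
    exact Real.exp_le_exp.2 hre
  · rw [lap_f, Complex.ofReal_exp]
    refine (lap_exp_sub hre ?_).trans ?_
    · rw [Complex.ofReal_re]
      nlinarith
    · refine mul_le_mul_of_nonneg_right ?_ (Real.exp_pos _).le
      have e1 : lapQ t l k σ - ((-(k * σ ^ 2 / 2) : ℝ) : ℂ) = -((σ ^ 2 / 2 : ℝ) : ℂ) * t⁻¹ +
          ((k : ℂ) * cexp l - k) * (cexp (σ * I) - 1 - σ * I) +
          (k : ℂ) * (cexp (σ * I) - 1 - σ * I + σ ^ 2 / 2) := by
        unfold lapQ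
        push_cast
        ring
      rw [e1]
      refine (norm_add_le _ _).trans ?_
      refine (add_le_add_left (norm_add_le _ _) _).trans ?_
      have e2 : ‖-((σ ^ 2 / 2 : ℝ) : ℂ) * t⁻¹‖ ≤ ε * (k * σ ^ 2) := by
        rw [norm_mul, norm_neg, Complex.norm_real, Real.norm_of_nonneg (by positivity)]
        calc σ ^ 2 / 2 * ‖t⁻¹‖ ≤ σ ^ 2 / 2 * (ε * k) := mul_le_mul_of_nonneg_left ht (by positivity)
          _ ≤ ε * (k * σ ^ 2) := by nlinarith [mul_nonneg hε0 hkσ]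
      have e3 : ‖(k : ℂ) * (cexp (σ * I) - 1 - σ * I + σ ^ 2 / 2)‖ ≤ 55 * (k * |σ| ^ 3) := by
        rw [norm_mul, Complex.norm_real, Real.norm_of_nonneg hk]
        calc k * ‖cexp (σ * I) - 1 - σ * I + (σ : ℂ) ^ 2 / 2‖ ≤ k * (55 * |σ| ^ 3) := mul_le_mul_of_nonneg_left h3 hk
          _ = 55 * (k * |σ| ^ 3) := by ring
      linarith

/-- absorbing powers -/
private lemma lap_pow2 (y : ℝ) : y * Real.exp (-(y / 20)) ≤ 20 := by
  have h := Real.add_one_le_exp (y / 20)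
  rw [Real.exp_neg]
  have h1 : 0 < Real.exp (y / 20) := Real.exp_pos _
  rw [← div_eq_mul_inv, div_le_iff₀ h1]
  linarith

private lemma lap_split (y : ℝ) : Real.exp (-(y / 10)) = Real.exp (-(y / 20)) * Real.exp (-(y / 20)) := by
  rw [← Real.exp_add]
  congr 1
  ring

private lemma lap_pow1 {k σ : ℝ} (hk : 0 < k) : |σ| * Real.exp (-(k * σ ^ 2 / 20)) ≤ 5 / √k := by
  have hs : 0 < √k := Real.sqrt_pos.2 hk
  rw [le_div_iff₀ hs]
  have h1 : k * σ ^ 2 = (√k * |σ|) ^ 2 := by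
    rw [mul_pow, Real.sq_sqrt hk.le, sq_abs]
  rw [h1]
  set x := √k * |σ| with hx
  have h2 : |σ| * Real.exp (-(x ^ 2 / 20)) * √k = x * Real.exp (-(x ^ 2 / 20)) := by
    rw [hx]
    ring
  rw [h2, Real.exp_neg, ← div_eq_mul_inv, div_le_iff₀ (Real.exp_pos _)]
  have h3 := Real.add_one_le_exp (x ^ 2 / 20)
  nlinarith [sq_nonneg (x - 2)]

private lemma lap_pow3 {k σ : ℝ} (hk : 0 < k) : k * |σ| ^ 3 * Real.exp (-(k * σ ^ 2 / 20)) ≤ 400 / √k := by
  have hs : 0 < √k := Real.sqrt_pos.2 hk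
  rw [le_div_iff₀ hs]
  have h1 : k * σ ^ 2 = (√k * |σ|) ^ 2 := by
    rw [mul_pow, Real.sq_sqrt hk.le, sq_abs]
  rw [h1]
  have h4 : k = √k ^ 2 := (Real.sq_sqrt hk.le).symm
  set x := √k * |σ| with hx
  have h2 : k * |σ| ^ 3 * Real.exp (-(x ^ 2 / 20)) * √k = x ^ 3 * Real.exp (-(x ^ 2 / 20)) := by
    rw [hx]
    nth_rewrite 1 [h4]
    ring
  rw [h2, Real.exp_neg, ← div_eq_mul_inv, div_le_iff₀ (Real.exp_pos _)]
  have hx0 : 0 ≤ x := by positivity
  have h3 := Real.quadratic_le_exp_of_nonneg (x := x ^ 2 / 20) (by positivity)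
  nlinarith [sq_nonneg (x ^ 2 - x), sq_nonneg (x - 1), sq_nonneg (x ^ 2 - 2 * x), mul_nonneg hx0 (sq_nonneg (x - 2))]

private lemma lap_gauss {b : ℝ} (hb : 0 < b) (θ : ℝ) :
    Integrable (fun s : ℝ => Real.exp (-(b * (s - θ) ^ 2))) ∧ ∫ s : ℝ, Real.exp (-(b * (s - θ) ^ 2)) = √(Real.pi / b) := by
  have e : (fun s : ℝ => Real.exp (-(b * (s - θ) ^ 2))) = fun s => (fun x => Real.exp (-b * x ^ 2)) (s - θ) := by
    funext s
    simp only [neg_mul]
  constructor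
  · rw [e]
    exact (integrable_exp_neg_mul_sq hb).comp_sub_right θ
  · rw [e, MeasureTheory.integral_sub_right_eq_self (fun x => Real.exp (-b * x ^ 2)) θ, integral_gaussian]

private lemma lap_cont (t l : ℂ) (k θ : ℝ) : Continuous fun s : ℝ => f t (k * cexp l) 0 ((s - θ) * I) := by
  unfold f
  fun_prop

theorem lap (δ : ℝ) (hδ : 0 < δ) : ∃ ε : ℝ, 0 < ε ∧ ∀ (t l : ℂ) (k : ℝ), 0 ≤ (t⁻¹).re →
    ε⁻¹ ≤ k → ‖t⁻¹‖ ≤ ε * k → ‖l‖ ≤ ε →
    ‖(∫ s in (-Real.pi)..Real.pi, f t (k * cexp l) 0 ((s - l.im) * I)) - √(2 * Real.pi / k)‖ ≤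
      δ / √k ∧
    ∫ s in (-Real.pi)..Real.pi, (‖l‖ + |s|) * ‖f t (k * cexp l) 0 ((s - l.im) * I)‖ ≤
      δ / √k := by
  have hδ' : 0 < (δ / 200000) ^ 2 := by positivity
  set ε : ℝ := min (1 / 10000) ((δ / 200000) ^ 2) with hεdef
  have hε0 : 0 < ε := lt_min (by norm_num) hδ'
  have hε1 : ε ≤ 1 / 10000 := min_le_left _ _
  have hε2 : √ε ≤ δ / 200000 := by
    rw [show δ / 200000 = √((δ / 200000) ^ 2) from (Real.sqrt_sq (by positivity)).symm]
    exact Real.sqrt_le_sqrt (min_le_right _ _)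
  have hsε : 0 < √ε := Real.sqrt_pos.2 hε0
  have hsq : √ε ^ 2 = ε := Real.sq_sqrt hε0.le
  have hεs : ε ≤ √ε := by
    have : √ε ≤ 1 := Real.sqrt_le_one.2 (by linarith)
    nlinarith
  refine ⟨ε, hε0, fun t l k hT hk ht hl => ?_⟩
  have hk0 : 0 < k := (inv_pos.2 hε0).trans_le hk
  have hsk : 0 < √k := Real.sqrt_pos.2 hk0
  have hik : 1 / √k ≤ √ε := by
    rw [div_le_iff₀ hsk]
    have h1 : 1 ≤ ε * k := by
      have := mul_le_mul_of_nonneg_left hk hε0.le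
      rwa [mul_inv_cancel₀ hε0.ne'] at this
    have h2 : √ε * √k = √(ε * k) := (Real.sqrt_mul hε0.le k).symm
    rw [h2]
    exact Real.one_le_sqrt.2 h1
  have hkε : 1 / k ≤ ε := by
    rw [one_div]
    exact inv_le_of_inv_le₀ hε0 hk
  set θ : ℝ := l.im with hθ
  have hθl : |θ| ≤ ‖l‖ := Complex.abs_im_le_norm l
  have hπ := Real.pi_gt_d2
  have hπ' := Real.pi_lt_d2
  have hcast : ∀ s : ℝ, ((s : ℂ) - (θ : ℂ)) * I = ((s - θ : ℝ) : ℂ) * I := by
    intro s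
    push_cast
    ring
  obtain ⟨hg1, hg2⟩ := lap_gauss (b := k / 20) (by positivity) θ
  obtain ⟨hg3, hg4⟩ := lap_gauss (b := k / 2) (by positivity) θ
  have hsqrt : √(Real.pi / (k / 20)) ≤ 8 / √k := by
    rw [show Real.pi / (k / 20) = (20 * Real.pi) / k by field_simp, Real.sqrt_div (by positivity)]
    refine div_le_div_of_nonneg_right ?_ hsk.le
    rw [Real.sqrt_le_left (by norm_num)]
    linarith
  have e20 : ∀ s : ℝ, k / 20 * (s - θ) ^ 2 = k * (s - θ) ^ 2 / 20 := fun s => by ring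
  have e2 : ∀ s : ℝ, k / 2 * (s - θ) ^ 2 = k * (s - θ) ^ 2 / 2 := fun s => by ring
  simp only [e20] at hg1 hg2
  simp only [e2] at hg3 hg4
  -- pointwise bounds in the window
  have hin : ∀ s : ℝ, |s| ≤ Real.pi → |s - θ| ≤ 33 / 10 := by
    intro s hs
    have := abs_sub s θ
    linarith
  have hpt : ∀ s : ℝ, |s| ≤ Real.pi → ‖f t (k * cexp l) 0 ((s - θ) * I)‖ ≤
      Real.exp (-(k * (s - θ) ^ 2 / 20)) * Real.exp (-(k * (s - θ) ^ 2 / 20)) := by
    intro s hs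
    rw [hcast, ← lap_split]
    exact (lap_core hT hk0.le hε1 ht hl (hin s hs)).1
  have hpt2 : ∀ s : ℝ, |s| ≤ Real.pi →
      ‖f t (k * cexp l) 0 ((s - θ) * I) - ((Real.exp (-(k * (s - θ) ^ 2 / 2)) : ℝ) : ℂ)‖ ≤
        25000 * √ε * Real.exp (-(k * (s - θ) ^ 2 / 20)) := by
    intro s hs
    rw [hcast]
    refine (lap_core hT hk0.le hε1 ht hl (hin s hs)).2.trans ?_
    rw [lap_split]
    set σ := s - θ
    set X := Real.exp (-(k * σ ^ 2 / 20)) with hX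
    have hX0 : 0 < X := Real.exp_pos _
    have h1 : k * σ ^ 2 * X ≤ 20 := lap_pow2 _
    have h2 : k * |σ| ^ 3 * X ≤ 400 / √k := lap_pow3 hk0
    have h3 : 400 / √k ≤ 400 * √ε := by
      rw [div_eq_mul_one_div]
      exact mul_le_mul_of_nonneg_left hik (by norm_num)
    have h4 : (111 * ε * (k * σ ^ 2) + 55 * (k * |σ| ^ 3)) * X ≤ 25000 * √ε := by
      have h5 : 111 * ε * (k * σ ^ 2 * X) ≤ 111 * ε * 20 := mul_le_mul_of_nonneg_left h1 (by positivity)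
      nlinarith
    calc (111 * ε * (k * σ ^ 2) + 55 * (k * |σ| ^ 3)) * (X * X)
        = ((111 * ε * (k * σ ^ 2) + 55 * (k * |σ| ^ 3)) * X) * X := by ring
      _ ≤ 25000 * √ε * X := mul_le_mul_of_nonneg_right h4 hX0.le
  have hout : ∀ s : ℝ, Real.pi ≤ |s| → Real.exp (-(k * (s - θ) ^ 2 / 2)) ≤
      25000 * √ε * Real.exp (-(k * (s - θ) ^ 2 / 20)) := by
    intro s hs
    have h1 : 3 ≤ |s - θ| := by
      have := abs_sub_abs_le_abs_sub s θ
      linarith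
    have h2 : 9 ≤ (s - θ) ^ 2 := by
      rw [← sq_abs]
      nlinarith
    have h3 : Real.exp (-(k * (s - θ) ^ 2 / 2)) = Real.exp (-(9 * (k * (s - θ) ^ 2) / 20)) *
        Real.exp (-(k * (s - θ) ^ 2 / 20)) := by
      rw [← Real.exp_add]
      congr 1
      ring
    rw [h3]
    refine mul_le_mul_of_nonneg_right ?_ (Real.exp_pos _).le
    have h4 : Real.exp (-(9 * (k * (s - θ) ^ 2) / 20)) ≤ Real.exp (-k) := Real.exp_le_exp.2 (by nlinarith)
    have h5 : Real.exp (-k) ≤ 1 / k := by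
      rw [Real.exp_neg, ← one_div]
      exact one_div_le_one_div_of_le hk0 (by linarith [Real.add_one_le_exp k])
    nlinarith
  constructor
  · -- the first claim
    set g : ℝ → ℂ := fun s => f t (k * cexp l) 0 ((s - θ) * I) with hgdef
    have hgc : Continuous g := lap_cont t l k θ
    have hI1 : IntegrableOn g (Set.Ioc (-Real.pi) Real.pi) :=
      (hgc.integrableOn_Icc).mono_set Set.Ioc_subset_Icc_self
    have hI1' : Integrable ((Set.Ioc (-Real.pi) Real.pi).indicator g) := by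
      rwa [integrable_indicator_iff measurableSet_Ioc]
    have hI2 : Integrable fun s : ℝ => ((Real.exp (-(k * (s - θ) ^ 2 / 2)) : ℝ) : ℂ) := hg3.ofReal
    have h1 : (∫ s in (-Real.pi)..Real.pi, g s) - √(2 * Real.pi / k) =
        ∫ s : ℝ, ((Set.Ioc (-Real.pi) Real.pi).indicator g s - ((Real.exp (-(k * (s - θ) ^ 2 / 2)) : ℝ) : ℂ)) := by
      rw [integral_sub hI1' hI2, MeasureTheory.integral_indicator measurableSet_Ioc,
        intervalIntegral.integral_of_le (by linarith), integral_complex_ofReal, hg4]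
      congr 3
      field_simp
    rw [h1]
    refine (norm_integral_le_of_norm_le (hg1.const_mul (25000 * √ε)) (Filter.Eventually.of_forall fun s => ?_)).trans ?_
    · by_cases hs : s ∈ Set.Ioc (-Real.pi) Real.pi
      · rw [Set.indicator_of_mem hs]
        exact hpt2 s (abs_le.2 ⟨hs.1.le, hs.2⟩)
      · rw [Set.indicator_of_notMem hs, zero_sub, norm_neg, Complex.norm_real, Real.norm_of_nonneg (Real.exp_pos _).le]
        refine hout s ?_
        rw [Set.mem_Ioc, not_and_or, not_lt, not_le] at hs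
        rcases hs with hs | hs
        · rw [le_abs]
          right
          linarith
        · rw [le_abs]
          left
          exact hs.le
    · rw [MeasureTheory.integral_const_mul, hg2]
      calc 25000 * √ε * √(Real.pi / (k / 20)) ≤ 25000 * √ε * (8 / √k) :=
            mul_le_mul_of_nonneg_left hsqrt (by positivity)
        _ = 200000 * √ε / √k := by ring
        _ ≤ δ / √k := by
            refine div_le_div_of_nonneg_right ?_ hsk.le
            linarith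
  · -- the second claim
    have hB : ∀ s : ℝ, |s| ≤ Real.pi → (‖l‖ + |s|) * ‖f t (k * cexp l) 0 ((s - θ) * I)‖ ≤
        7 * √ε * Real.exp (-(k * (s - θ) ^ 2 / 20)) := by
      intro s hs
      set X := Real.exp (-(k * (s - θ) ^ 2 / 20)) with hX
      have hX0 : 0 < X := Real.exp_pos _
      have hX1 : X ≤ 1 := Real.exp_le_one_iff.2 (by
        have : 0 ≤ k * (s - θ) ^ 2 := by positivity
        linarith)
      have h1 : |s - θ| * X ≤ 5 / √k := lap_pow1 hk0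
      have h2 : 5 / √k ≤ 5 * √ε := by
        rw [div_eq_mul_one_div]
        exact mul_le_mul_of_nonneg_left hik (by norm_num)
      have h3 : ‖l‖ + |s| ≤ 2 * ε + |s - θ| := by
        have := abs_sub_abs_le_abs_sub s θ
        linarith
      calc (‖l‖ + |s|) * ‖f t (k * cexp l) 0 ((s - θ) * I)‖ ≤ (2 * ε + |s - θ|) * (X * X) :=
            mul_le_mul h3 (hpt s hs) (norm_nonneg _) (by positivity)
        _ = ((2 * ε) * X + |s - θ| * X) * X := by ring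
        _ ≤ (7 * √ε) * X := by
            refine mul_le_mul_of_nonneg_right ?_ hX0.le
            nlinarith
    have hc : Continuous fun s : ℝ => (‖l‖ + |s|) * ‖f t (k * cexp l) 0 ((s - θ) * I)‖ :=
      (continuous_const.add continuous_abs).mul (lap_cont t l k θ).norm
    have hc2 : Continuous fun s : ℝ => 7 * √ε * Real.exp (-(k * (s - θ) ^ 2 / 20)) := by fun_prop
    have hle : (∫ s in (-Real.pi)..Real.pi, (‖l‖ + |s|) * ‖f t (k * cexp l) 0 ((s - θ) * I)‖) ≤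
        ∫ s in (-Real.pi)..Real.pi, 7 * √ε * Real.exp (-(k * (s - θ) ^ 2 / 20)) := by
      refine intervalIntegral.integral_mono_on (by linarith) (hc.intervalIntegrable _ _) (hc2.intervalIntegrable _ _) ?_
      intro s hs
      exact hB s (abs_le.2 ⟨hs.1, hs.2⟩)
    refine hle.trans ?_
    rw [intervalIntegral.integral_of_le (by linarith)]
    refine (setIntegral_le_integral (hg1.const_mul (7 * √ε)) (Filter.Eventually.of_forall fun s => by positivity)).trans ?_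
    rw [MeasureTheory.integral_const_mul, hg2]
    calc 7 * √ε * √(Real.pi / (k / 20)) ≤ 7 * √ε * (8 / √k) :=
          mul_le_mul_of_nonneg_left hsqrt (by positivity)
      _ = 56 * √ε / √k := by ring
      _ ≤ δ / √k := by
          refine div_le_div_of_nonneg_right ?_ hsk.le
          linarith

end SokalW
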