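import Mathlib

/-!
# The height of a wave [AW-05]

`y = iη - l`, `e^l - 1 = W y`, `A = Re W ≥ 0`, `B = Im W`, `‖l‖ ≤ 2(R+1)‖W‖`, `‖y‖ ≤ R + 1`, `‖W‖ ≤ ε ≤ 1`.
Since `Re(iη) = 0`: `Re(Wy + y + Wy²/2) = Re(Wy - l + Wy²/2)`.
(1) `‖Wy - l - (Wy)²/2‖ = ‖(e^l - 1) - l - (e^l - 1)²/2‖ ≤ 4‖l‖³` (`‖l‖ ≤ 1`; from `‖e^l - 1 - l - l²/2‖ ≤ ‖l‖³` and
`‖(e^l-1)² - l²‖ ≤ ‖e^l - 1 - l‖‖e^l - 1 + l‖ ≤ ‖l‖²·3‖l‖`), so `≤ C‖W‖³`.
(2) `l = W y + O(‖W‖²) = iηW + O(‖W‖²)`: `‖l - Wy‖ = ‖l - (e^l - 1)‖ ≤ ‖l‖²`, `‖Wy - iηW‖ = ‖W l‖`.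
(3) `y² = -η² - 2iηl + l² = -η² + 2η²W + O(‖W‖²)`.
(4) `(W + W²)y²/2 = -η²W/2 + η²W²/2 + O(‖W‖³)`.  Real part: `-(η²/2)(A - A² + B²) + O(‖W‖³)`.
So the left side of the claim is at most `(R²/2)A² + C(R)‖W‖³`, and `A² ≤ εA`, `‖W‖³ ≤ (A+|B|)³ ≤ 4(A³+|B|³) ≤ 4ε(A+B²)`
(`A, |B| ≤ ε ≤ 1`).  Take `ε` small.
-/

namespace SokalW

open Complex

private theorem exp_three (l : ℂ) (h : ‖l‖ ≤ 1) : ‖cexp l - 1 - l - l ^ 2 / 2‖ ≤ ‖l‖ ^ 3 := by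
  have h1 := Complex.exp_bound h (n := 3) (by norm_num)
  simp only [Finset.sum_range_succ, Finset.sum_range_zero, Nat.factorial] at h1
  norm_num at h1
  have e : cexp l - 1 - l - l ^ 2 / 2 = cexp l - (1 + l + l ^ 2 / 2) := by ring
  rw [e]
  refine h1.trans ?_
  have : 0 ≤ ‖l‖ ^ 3 := by positivity
  nlinarith

private theorem err_one (l : ℂ) (h : ‖l‖ ≤ 1) :
    ‖(cexp l - 1) - l - (cexp l - 1) ^ 2 / 2‖ ≤ 3 * ‖l‖ ^ 3 := by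
  have h3 := exp_three l h
  have h2 := Complex.norm_exp_sub_one_sub_id_le h
  have e : (cexp l - 1) - l - (cexp l - 1) ^ 2 / 2 = (cexp l - 1 - l - l ^ 2 / 2) -
      ((cexp l - 1 - l) * ((cexp l - 1 - l) + 2 * l)) / 2 := by ring
  rw [e]
  have h4 : ‖(cexp l - 1 - l) + 2 * l‖ ≤ 3 * ‖l‖ := by
    refine (norm_add_le _ _).trans ?_
    rw [norm_mul]
    have : ‖(2 : ℂ)‖ = 2 := by norm_num
    rw [this]
    have : ‖l‖ ^ 2 ≤ ‖l‖ := by nlinarith [norm_nonneg l]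
    linarith
  have h5 : ‖((cexp l - 1 - l) * ((cexp l - 1 - l) + 2 * l)) / 2‖ ≤ 3 / 2 * ‖l‖ ^ 3 := by
    rw [norm_div, norm_mul]
    have : ‖(2 : ℂ)‖ = 2 := by norm_num
    rw [this]
    have h6 : ‖cexp l - 1 - l‖ * ‖(cexp l - 1 - l) + 2 * l‖ ≤ ‖l‖ ^ 2 * (3 * ‖l‖) :=
      mul_le_mul h2 h4 (norm_nonneg _) (by positivity)
    nlinarith
  refine (norm_sub_le _ _).trans ?_
  have : 0 ≤ ‖l‖ ^ 3 := by positivity
  linarith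

theorem size (R δ : ℝ) (hR : 0 ≤ R) (hδ : 0 < δ) : ∃ ε : ℝ, 0 < ε ∧ ∀ (W l : ℂ) (η : ℝ),
    ‖W‖ ≤ ε → |η| ≤ R → 0 ≤ W.re → ‖l‖ ≤ 2 * (R + 1) * ‖W‖ → cexp l - 1 = W * (η * I - l) →
    |(W * (η * I - l) + (η * I - l) + W * (η * I - l) ^ 2 / 2).re +
      (W.re + W.im ^ 2) * (η ^ 2 / 2)| ≤ δ * (W.re + W.im ^ 2) := by
  obtain ⟨K, hK⟩ : ∃ K : ℝ, K = 2 * (R + 1) := ⟨_, rfl⟩
  have hK0 : 0 < K := by rw [hK]; linarith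
  obtain ⟨C, hC⟩ : ∃ C : ℝ, C = 3 * K ^ 3 + R ^ 2 + (2 * R * (K + K ^ 2) + K ^ 2) := ⟨_, rfl⟩
  have hC0 : 0 ≤ C := by rw [hC]; positivity
  refine ⟨min 1 (min (1 / K) (δ / (R ^ 2 / 2 + 4 * C + 1))), by positivity, ?_⟩
  intro W l η hW hη hA hl he
  have hw1 : ‖W‖ ≤ 1 := hW.trans (min_le_left _ _)
  have hw2 : ‖W‖ ≤ 1 / K := hW.trans ((min_le_right _ _).trans (min_le_left _ _))
  have hw3 : ‖W‖ ≤ δ / (R ^ 2 / 2 + 4 * C + 1) := hW.trans ((min_le_right _ _).trans (min_le_right _ _))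
  rw [← hK] at hl
  have hl1 : ‖l‖ ≤ 1 := by
    refine hl.trans ?_
    rw [le_div_iff₀ hK0] at hw2
    linarith
  obtain ⟨w, hw⟩ : ∃ w : ℝ, w = ‖W‖ := ⟨_, rfl⟩
  rw [← hw] at hw1 hw2 hw3 hl hW
  have hw0 : 0 ≤ w := by rw [hw]; exact norm_nonneg _
  obtain ⟨A, hAd⟩ : ∃ A : ℝ, A = W.re := ⟨_, rfl⟩
  obtain ⟨B, hBd⟩ : ∃ B : ℝ, B = W.im := ⟨_, rfl⟩
  -- the errors
  obtain ⟨e1, he1⟩ : ∃ e1 : ℂ, e1 = (cexp l - 1) - l - (cexp l - 1) ^ 2 / 2 := ⟨_, rfl⟩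
  obtain ⟨d, hd⟩ : ∃ d : ℂ, d = cexp l - 1 - l := ⟨_, rfl⟩
  obtain ⟨e2, he2⟩ : ∃ e2 : ℂ, e2 = 2 * I * η * (W * l + d) + l ^ 2 := ⟨_, rfl⟩
  have hn1 : ‖e1‖ ≤ 3 * ‖l‖ ^ 3 := by rw [he1]; exact err_one l hl1
  have hnd : ‖d‖ ≤ ‖l‖ ^ 2 := by rw [hd]; exact Complex.norm_exp_sub_one_sub_id_le hl1
  have hl0 : 0 ≤ ‖l‖ := norm_nonneg _
  have hn2 : ‖e2‖ ≤ 2 * R * (w * ‖l‖ + ‖l‖ ^ 2) + ‖l‖ ^ 2 := by
    rw [he2]
    refine (norm_add_le _ _).trans ?_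
    rw [norm_pow]
    have h1 : ‖2 * I * (η : ℂ)‖ ≤ 2 * R := by
      rw [norm_mul, norm_mul]
      have : ‖(2 : ℂ)‖ = 2 := by norm_num
      rw [this, Complex.norm_I, Complex.norm_real, Real.norm_eq_abs]
      linarith
    have h2 : ‖W * l + d‖ ≤ w * ‖l‖ + ‖l‖ ^ 2 := by
      refine (norm_add_le _ _).trans ?_
      rw [norm_mul, ← hw]
      linarith
    have h3 : ‖2 * I * (η : ℂ) * (W * l + d)‖ ≤ 2 * R * (w * ‖l‖ + ‖l‖ ^ 2) := by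
      rw [norm_mul]
      exact mul_le_mul h1 h2 (norm_nonneg _) (by positivity)
    linarith
  -- the identity
  have hid : W * (η * I - l) + (η * I - l) + W * (η * I - l) ^ 2 / 2 =
      η * I + (-(η ^ 2 / 2 : ℂ) * (W - W ^ 2) + (e1 + η ^ 2 * W ^ 3 + (W + W ^ 2) * e2 / 2)) := by
    have hv : cexp l - 1 = W * (η * I - l) := he
    have hd' : d = W * (η * I - l) - l := by rw [hd, hv]
    have he1' : e1 = W * (η * I - l) - l - (W * (η * I - l)) ^ 2 / 2 := by rw [he1, hv]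
    rw [he1', he2, hd']
    have hI : I ^ 2 = -1 := Complex.I_sq
    linear_combination ((η : ℂ) ^ 2 * W / 2 - (η : ℂ) ^ 2 * W ^ 2 / 2 - (η : ℂ) ^ 2 * W ^ 3) * hI
  obtain ⟨E, hE⟩ : ∃ E : ℂ, E = e1 + η ^ 2 * W ^ 3 + (W + W ^ 2) * e2 / 2 := ⟨_, rfl⟩
  have hre : (W * (η * I - l) + (η * I - l) + W * (η * I - l) ^ 2 / 2).re =
      -(η ^ 2 / 2) * (A - A ^ 2 + B ^ 2) + E.re := by
    rw [hid, ← hE]
    have h1 : ((η : ℂ) * I).re = 0 := by simp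
    have h2 : (-(η ^ 2 / 2 : ℂ) * (W - W ^ 2)).re = -(η ^ 2 / 2) * (A - A ^ 2 + B ^ 2) := by
      have h3 : (-(η ^ 2 / 2 : ℂ)) = ((-(η ^ 2 / 2) : ℝ) : ℂ) := by push_cast; ring
      rw [h3, Complex.re_ofReal_mul, hAd, hBd]
      congr 1
      simp only [Complex.sub_re, pow_two, Complex.mul_re]
      ring
    rw [Complex.add_re, Complex.add_re, h1, h2]
    ring
  -- size of E
  have hl3 : ‖l‖ ^ 3 ≤ K ^ 3 * w ^ 3 := by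
    rw [← mul_pow]
    exact pow_le_pow_left₀ hl0 hl 3
  have hl2 : ‖l‖ ^ 2 ≤ K ^ 2 * w ^ 2 := by
    rw [← mul_pow]
    exact pow_le_pow_left₀ hl0 hl 2
  have hE1 : ‖E‖ ≤ C * w ^ 3 := by
    have h1 : ‖E‖ ≤ ‖e1‖ + ‖(η : ℂ) ^ 2 * W ^ 3‖ + ‖(W + W ^ 2) * e2 / 2‖ := by
      rw [hE]
      exact (norm_add_le _ _).trans (add_le_add_left (norm_add_le _ _) _)
    have h2 : ‖(η : ℂ) ^ 2 * W ^ 3‖ ≤ R ^ 2 * w ^ 3 := by
      rw [norm_mul, norm_pow, norm_pow, Complex.norm_real, Real.norm_eq_abs, ← hw]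
      exact mul_le_mul_of_nonneg_right (pow_le_pow_left₀ (abs_nonneg _) hη 2) (by positivity)
    have h3 : ‖W + W ^ 2‖ ≤ 2 * w := by
      refine (norm_add_le _ _).trans ?_
      rw [norm_pow, ← hw]
      nlinarith
    have h4 : ‖(W + W ^ 2) * e2 / 2‖ ≤ w * ‖e2‖ := by
      rw [norm_div, norm_mul]
      have : ‖(2 : ℂ)‖ = 2 := by norm_num
      rw [this]
      have := mul_le_mul_of_nonneg_right h3 (norm_nonneg e2)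
      linarith
    have h5 : ‖e2‖ ≤ (2 * R * (K + K ^ 2) + K ^ 2) * w ^ 2 := by
      refine hn2.trans ?_
      have h6 : w * ‖l‖ ≤ K * w ^ 2 := by
        have := mul_le_mul_of_nonneg_left hl hw0
        calc w * ‖l‖ ≤ w * (K * w) := this
          _ = K * w ^ 2 := by ring
      have h7 : w * ‖l‖ + ‖l‖ ^ 2 ≤ (K + K ^ 2) * w ^ 2 := by linarith
      have h8 : 2 * R * (w * ‖l‖ + ‖l‖ ^ 2) ≤ 2 * R * ((K + K ^ 2) * w ^ 2) :=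
        mul_le_mul_of_nonneg_left h7 (by positivity)
      linarith
    have h6 : w * ‖e2‖ ≤ (2 * R * (K + K ^ 2) + K ^ 2) * w ^ 3 := by
      have := mul_le_mul_of_nonneg_left h5 hw0
      calc w * ‖e2‖ ≤ w * ((2 * R * (K + K ^ 2) + K ^ 2) * w ^ 2) := this
        _ = _ := by ring
    rw [hC]
    have h7 : 3 * ‖l‖ ^ 3 ≤ 3 * K ^ 3 * w ^ 3 := by linarith
    calc ‖E‖ ≤ _ := h1
      _ ≤ 3 * K ^ 3 * w ^ 3 + R ^ 2 * w ^ 3 + (2 * R * (K + K ^ 2) + K ^ 2) * w ^ 3 := by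
        linarith
      _ = _ := by ring
  have hE2 : |E.re| ≤ C * w ^ 3 := (Complex.abs_re_le_norm E).trans hE1
  -- A, B
  have hAw : A ≤ w := by rw [hAd, hw]; exact (le_abs_self _).trans (Complex.abs_re_le_norm _)
  have hBw : |B| ≤ w := by rw [hBd, hw]; exact Complex.abs_im_le_norm _
  have hA0 : 0 ≤ A := by rw [hAd]; exact hA
  have hwAB : w ≤ A + |B| := by
    rw [hw, hAd, hBd]
    have := Complex.norm_le_abs_re_add_abs_im W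
    rwa [abs_of_nonneg hA] at this
  obtain ⟨b, hb⟩ : ∃ b : ℝ, b = |B| := ⟨_, rfl⟩
  rw [← hb] at hBw hwAB
  have hb0 : 0 ≤ b := by rw [hb]; exact abs_nonneg _
  have hbB : B ^ 2 = b ^ 2 := by rw [hb, sq_abs]
  have hw3' : w ^ 3 ≤ 4 * w * (A + b ^ 2) := by
    have h1 : w ^ 3 ≤ (A + b) ^ 3 := pow_le_pow_left₀ hw0 hwAB 3
    have h2 : (A + b) ^ 3 ≤ 4 * (A ^ 3 + b ^ 3) := by
      have h5 := mul_nonneg (add_nonneg hA0 hb0) (sq_nonneg (A - b))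
      have h6 : 4 * (A ^ 3 + b ^ 3) - (A + b) ^ 3 = 3 * ((A + b) * (A - b) ^ 2) := by ring
      linarith
    have h3 : A ^ 3 ≤ w * A := by
      have h5 : A ^ 2 ≤ w := by
        rw [pow_two]
        calc A * A ≤ 1 * w := mul_le_mul (hAw.trans hw1) hAw hA0 zero_le_one
          _ = w := one_mul w
      have h6 := mul_le_mul_of_nonneg_right h5 hA0
      calc A ^ 3 = A ^ 2 * A := by ring
        _ ≤ w * A := h6
    have h4 : b ^ 3 ≤ w * b ^ 2 := by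
      have h5 := mul_le_mul_of_nonneg_right hBw (sq_nonneg b)
      calc b ^ 3 = b * b ^ 2 := by ring
        _ ≤ w * b ^ 2 := h5
    linarith
  have hA2 : A ^ 2 ≤ w * (A + b ^ 2) := by
    have h5 := mul_le_mul_of_nonneg_right hAw hA0
    have h6 := mul_nonneg hw0 (sq_nonneg b)
    calc A ^ 2 = A * A := pow_two A
      _ ≤ w * A := h5
      _ ≤ w * (A + b ^ 2) := by linarith
  rw [hre, ← hAd, ← hBd, hbB]
  have hη2 : η ^ 2 ≤ R ^ 2 := by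
    rw [← sq_abs]
    exact pow_le_pow_left₀ (abs_nonneg _) hη 2
  have e3 : -(η ^ 2 / 2) * (A - A ^ 2 + b ^ 2) + E.re + (A + b ^ 2) * (η ^ 2 / 2) =
      η ^ 2 / 2 * A ^ 2 + E.re := by ring
  rw [e3]
  have hs : 0 ≤ A + b ^ 2 := by positivity
  have h1 : η ^ 2 / 2 * A ^ 2 ≤ R ^ 2 / 2 * (w * (A + b ^ 2)) :=
    mul_le_mul (by linarith) hA2 (sq_nonneg _) (by positivity)
  have h2 : |η ^ 2 / 2 * A ^ 2 + E.re| ≤ R ^ 2 / 2 * (w * (A + b ^ 2)) + C * (4 * w * (A + b ^ 2)) := by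
    refine (abs_add_le _ _).trans ?_
    rw [abs_of_nonneg (by positivity : 0 ≤ η ^ 2 / 2 * A ^ 2)]
    have := mul_le_mul_of_nonneg_left hw3' hC0
    linarith
  refine h2.trans ?_
  have hpos : 0 < R ^ 2 / 2 + 4 * C + 1 := by positivity
  rw [le_div_iff₀ hpos] at hw3
  have h3 : w * (R ^ 2 / 2 + 4 * C) ≤ δ := by linarith
  calc R ^ 2 / 2 * (w * (A + b ^ 2)) + C * (4 * w * (A + b ^ 2)) = w * (R ^ 2 / 2 + 4 * C) * (A + b ^ 2) := by ring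
    _ ≤ δ * (A + b ^ 2) := mul_le_mul_of_nonneg_right h3 hs

end SokalW
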