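import Pool.Agent.Lib_MP_af4de1_w.Cont
import Pool.Agent.Lib_MP_af4de1_w.Ell
import Pool.Agent.Lib_MP_af4de1_w.Size
import Pool.Agent.Lib_MP_af4de1_w.Lap

/-!
# The windows near the centre [AW-07]

`W = (tk)⁻¹ = t⁻¹/k`, `Re W = A = Re(t⁻¹)/k ≥ 0`, `Im W = B = Im(t⁻¹)/k ≥ 0`, `‖W‖ ≤ ε`, `U k t = k(A + B²) ≤ 2εk`.
Take `l` from `exists_ell R`, `κ = k e^l`, `G = S t κ - S t k`, `g = Re G`: by `S_diff` and `size` `|g + Uη²/2| ≤ δ'U`.
Shift: `TT = ∫_{-π}^{π} g1((s-η)I) ds = ∫_{-π-η}^{π-η} g1(sI) ds` with `g1(h) = f t k (iη) h`; by `rect_shift` with `a = Re l` it differs from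
`∫_{-π-η}^{π-η} g1(a + sI) ds = ∫_{-π}^{π} g1(a + (s-η)I) ds` by at most `2|a| sup`, where for `h = x + (±π-η)I`, `|x| ≤ |a| ≤ 1/100`
`‖f t k (iη) h‖ = exp((x² - y²)Re(t⁻¹)/2 - x y Im(t⁻¹) + k(e^x cos(±π) - 1 - x))` (`y = ±π - η`; the formula is `norm_f_eq` in
`Lib_MP_af4de1_u/PathO.lean`, private, copy it) `≤ exp(k(ε + ε(R+4) - 19/10 + 1/50)) ≤ e^{-3k/2}`.
By `f_shift` (`a + (s-η)I + iη - l = (s - θ)I`, `θ = Im l`): `f t k (iη)(a + (s-η)I) = e^G f t κ 0 ((s-θ)I)`, so by `lap`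
`‖∫ ... - e^G √(2π/k)‖ ≤ δ' e^g/√k`.  And `e^{-3k/2} ≤ δ' e^g/√k` as `g ≥ -U(R²/2 + 1) ≥ -k/4` and `k ≥ 1/ε`.
Together `‖TT - e^G √(2π/k)‖ ≤ 3δ' e^g/√k`: the first two claims.
Third claim: `HH + iη TT = ∫ (h + iη) f`, `h = (s-η)I`; the same shift for `g2(h) = (h + iη) f t k (iη) h`
(`‖h + iη‖ ≤ 4` on the horizontal sides); on the shifted line `h + iη = a + is`, `‖a + is‖ ≤ ‖l‖ + |s|`, second claim of `lap`:
`‖HH + iη TT‖ ≤ 2δ' e^g/√k ≤ δ ‖TT‖`.
-/

namespace SokalW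

open Complex SokalU

private theorem cw_norm_f_eq (t : ℂ) (k η a s : ℝ) :
    ‖f t k (η * I) ((a : ℂ) + s * I)‖ =
      Real.exp (((a ^ 2 - s ^ 2) * (t⁻¹).re - 2 * (a * s) * (t⁻¹).im) / 2 +
        k * (Real.exp a - 1 - a) - k * Real.exp a * (1 - Real.cos (s + η))) := by
  unfold f
  rw [Complex.norm_exp]
  congr 1
  have h1 : ((a : ℂ) + s * I) ^ 2 / (2 * t) =
      (((a ^ 2 - s ^ 2 : ℝ) : ℂ) + ((2 * (a * s) : ℝ) : ℂ) * I) * t⁻¹ / 2 := by
    rw [div_eq_mul_inv, mul_inv]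
    have h2 : ((a : ℂ) + s * I) ^ 2 = ((a ^ 2 - s ^ 2 : ℝ) : ℂ) + ((2 * (a * s) : ℝ) : ℂ) * I := by
      push_cast
      linear_combination (s : ℂ) ^ 2 * I_sq
    rw [h2]
    ring
  have h3 : (η * I : ℂ) + ((a : ℂ) + s * I) = (a : ℂ) + ((s + η : ℝ) : ℂ) * I := by
    push_cast
    ring
  rw [h1, h3, Complex.exp_add_mul_I, ← Complex.ofReal_cos, ← Complex.ofReal_sin,
    ← Complex.ofReal_exp]
  have h4 : ((((a ^ 2 - s ^ 2 : ℝ) : ℂ) + ((2 * (a * s) : ℝ) : ℂ) * I) * t⁻¹ / 2).re =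
      ((a ^ 2 - s ^ 2) * (t⁻¹).re - 2 * (a * s) * (t⁻¹).im) / 2 := by
    have h5 : ∀ z : ℂ, (z / 2).re = z.re / 2 := fun z => by
      simpa using Complex.div_ofReal_re z 2
    rw [h5, Complex.mul_re, Complex.add_re, Complex.add_im, Complex.re_ofReal_mul,
      Complex.im_ofReal_mul, Complex.ofReal_re, Complex.ofReal_im, Complex.I_re, Complex.I_im]
    ring
  rw [Complex.add_re, h4, Complex.re_ofReal_mul, Complex.sub_re, Complex.sub_re, Complex.add_re,
    Complex.re_ofReal_mul, Complex.re_ofReal_mul, Complex.add_re, Complex.re_ofReal_mul,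
    Complex.ofReal_re, Complex.ofReal_re, Complex.I_re, Complex.one_re]
  ring

/-- `W = (tk)⁻¹`: real part, imaginary part, norm. -/
private theorem cw_W (t : ℂ) {k : ℝ} (hk : 0 < k) :
    ((t * k)⁻¹ : ℂ).re = (t⁻¹).re / k ∧ ((t * k)⁻¹ : ℂ).im = (t⁻¹).im / k ∧
      ‖((t * k)⁻¹ : ℂ)‖ = ‖t⁻¹‖ / k := by
  have h : ((t * k)⁻¹ : ℂ) = t⁻¹ / (k : ℂ) := by rw [mul_inv, div_eq_mul_inv]
  rw [h]
  refine ⟨Complex.div_ofReal_re _ _, Complex.div_ofReal_im _ _, ?_⟩
  rw [norm_div, Complex.norm_real, Real.norm_of_nonneg hk.le]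

/-- `U k t = k (Re W + (Im W)²)`. -/
private theorem cw_U (t : ℂ) {k : ℝ} (hk : 0 < k) :
    U k t = k * (((t * k)⁻¹ : ℂ).re + ((t * k)⁻¹ : ℂ).im ^ 2) := by
  obtain ⟨h1, h2, -⟩ := cw_W t hk
  rw [h1, h2]
  unfold U
  field_simp

/-- Horizontal sides. -/
private theorem cw_side {ε k η R x : ℝ} {t : ℂ} (hreg : Reg ε k t) (hη : |η| ≤ R)
    (hε : ε * (R + 5) ≤ 1 / 10) (hx : |x| ≤ 1 / 100) {y : ℝ}
    (hy : y = -Real.pi - η ∨ y = Real.pi - η) :
    ‖f t k (η * I) ((x : ℂ) + y * I)‖ ≤ Real.exp (-(3 / 2 * k)) := by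
  rw [cw_norm_f_eq]
  apply Real.exp_le_exp.2
  have hk := hreg.k_pos
  have hR : 0 ≤ R := (abs_nonneg η).trans hη
  have hcos : Real.cos (y + η) = -1 := by
    rcases hy with rfl | rfl
    · rw [show -Real.pi - η + η = -Real.pi by ring, Real.cos_neg, Real.cos_pi]
    · rw [show Real.pi - η + η = Real.pi by ring, Real.cos_pi]
  rw [hcos]
  have hpi := Real.pi_gt_three
  have hpi2 := Real.pi_lt_d2
  have hη1 := (abs_le.1 hη).1
  have hη2 := (abs_le.1 hη).2
  have hy' : |y| ≤ 4 + R := by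
    rcases hy with rfl | rfl
    · rw [abs_le]; constructor <;> linarith
    · rw [abs_le]; constructor <;> linarith
  have hA := hreg.inv_re
  have hB := hreg.inv_im
  have hA' := hreg.inv_re_le
  have hB' := hreg.inv_im_le
  have hexp := Real.add_one_le_exp x
  have hx1 := (abs_le.1 hx).1
  have hx2 := (abs_le.1 hx).2
  have h1 : |x * y| ≤ 1 / 100 * (4 + R) := by
    rw [abs_mul]
    gcongr
  have h2 : -(x * y) ≤ 1 / 100 * (4 + R) := (neg_le_abs _).trans h1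
  have h3 : -(x * y) * (t⁻¹).im ≤ 1 / 100 * (4 + R) * (ε * k) :=
    (mul_le_mul_of_nonneg_right h2 hB).trans
      (mul_le_mul_of_nonneg_left hB' (by positivity))
  have h4 : (x ^ 2 - y ^ 2) * (t⁻¹).re ≤ 1 / 10000 * (ε * k) := by
    have h5 : x ^ 2 - y ^ 2 ≤ 1 / 10000 := by nlinarith [sq_nonneg y]
    exact (mul_le_mul_of_nonneg_right h5 hA).trans
      (mul_le_mul_of_nonneg_left hA' (by norm_num))
  have h6 : k * (Real.exp x - 1 - x) - k * Real.exp x * (1 - -1) ≤ -(k * (198 / 100)) := by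
    have h7 : k * (198 / 100) ≤ k * (Real.exp x + 1 + x) :=
      mul_le_mul_of_nonneg_left (by linarith) hk.le
    linarith
  have h8 := mul_le_mul_of_nonneg_right hε hk.le
  have h9 : 0 ≤ ε * k := mul_nonneg hreg.eps.le hk.le
  have h10 : 0 ≤ R * (ε * k) := mul_nonneg hR h9
  nlinarith

/-- `e^{-3k/2} ≤ δ' e^g / √k`. -/
private theorem cw_small {k g δ' : ℝ} (hk : 1 ≤ k) (hδ : 2 / k ≤ δ') (hg : -(k / 4) ≤ g) :
    Real.exp (-(3 / 2 * k)) ≤ δ' * Real.exp g / √k := by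
  have hk0 : 0 < k := by linarith
  have hsq : 0 < √k := Real.sqrt_pos.2 hk0
  have hsqk : √k ≤ k := by
    rw [Real.sqrt_le_left (by linarith)]
    nlinarith
  rw [le_div_iff₀ hsq]
  have h1 : Real.exp (-(3 / 2 * k)) = Real.exp (-(k / 4)) * (Real.exp (-k) * Real.exp (-(k / 4))) := by
    rw [← Real.exp_add, ← Real.exp_add]
    congr 1
    ring
  have h2 := exp_neg_le_two_div_sq hk0
  have h3 : Real.exp (-(k / 4)) ≤ 1 := Real.exp_le_one_iff.2 (by linarith)
  have h4 : Real.exp (-k) * Real.exp (-(k / 4)) * √k ≤ δ' := by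
    calc Real.exp (-k) * Real.exp (-(k / 4)) * √k ≤ 2 / k ^ 2 * 1 * k := by gcongr
      _ = 2 / k := by field_simp
      _ ≤ δ' := hδ
  rw [h1]
  calc Real.exp (-(k / 4)) * (Real.exp (-k) * Real.exp (-(k / 4))) * √k
      = (Real.exp (-k) * Real.exp (-(k / 4)) * √k) * Real.exp (-(k / 4)) := by ring
    _ ≤ δ' * Real.exp g := by
        have h5 : 0 ≤ δ' := le_trans (by positivity) hδ
        gcongr

/-- The constants. -/
private theorem cw_eps {R ε1 ε2 ε3 δ' : ℝ} (hR : 0 ≤ R) (h1 : 0 < ε1) (h2 : 0 < ε2) (h3 : 0 < ε3)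
    (hδ : 0 < δ') : ∃ ε : ℝ, 0 < ε ∧ ε ≤ ε1 ∧ ε ≤ ε2 ∧ ε ≤ ε3 ∧ 2 * (R + 1) * ε ≤ ε3 ∧
      2 * (R + 1) * ε ≤ 1 / 100 ∧ 2 * ε ≤ δ' ∧ ε * (R ^ 2 + 2) ≤ 1 / 4 ∧ ε * (R + 5) ≤ 1 / 10 ∧
      ε ≤ 1 := by
  refine ⟨min ε1 (min ε2 (min ε3 (min (ε3 / (2 * (R + 1))) (min (1 / 100 / (2 * (R + 1)))
    (min (δ' / 2) (min (1 / 4 / (R ^ 2 + 2)) (min (1 / 10 / (R + 5)) 1))))))),
    by positivity, ?_⟩
  set ε := min ε1 (min ε2 (min ε3 (min (ε3 / (2 * (R + 1))) (min (1 / 100 / (2 * (R + 1)))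
    (min (δ' / 2) (min (1 / 4 / (R ^ 2 + 2)) (min (1 / 10 / (R + 5)) 1))))))) with hε
  have h : ε ≤ ε1 ∧ ε ≤ ε2 ∧ ε ≤ ε3 ∧ ε ≤ ε3 / (2 * (R + 1)) ∧ ε ≤ 1 / 100 / (2 * (R + 1)) ∧
      ε ≤ δ' / 2 ∧ ε ≤ 1 / 4 / (R ^ 2 + 2) ∧ ε ≤ 1 / 10 / (R + 5) ∧ ε ≤ 1 := by
    rw [hε]
    simp only [min_le_iff, le_refl, true_or, or_true, and_self]
  obtain ⟨a1, a2, a3, a4, a5, a6, a7, a8, a9⟩ := h
  refine ⟨a1, a2, a3, ?_, ?_, by linarith, ?_, ?_, a9⟩
  · rw [mul_comm]; exact (le_div_iff₀ (by positivity)).1 a4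
  · rw [mul_comm]; exact (le_div_iff₀ (by positivity)).1 a5
  · exact (le_div_iff₀ (by positivity)).1 a7
  · exact (le_div_iff₀ (by positivity)).1 a8

private theorem cw_diff_f (t κ ξ : ℂ) : Differentiable ℂ (fun h => f t κ ξ h) := by
  unfold f
  fun_prop

/-- The shift of one window for a multiple `m` of the integrand. -/
private theorem cw_shift {t : ℂ} {k η : ℝ} {m : ℂ → ℂ} (hm : Differentiable ℂ m) (a : ℝ) {B : ℝ}
    (ha : |a| ≤ 1 / 100)
    (hB : ∀ x : ℝ, |x| ≤ |a| → ∀ y : ℝ, (y = -Real.pi - η ∨ y = Real.pi - η) →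
      ‖m (x + y * I) * f t k (η * I) (x + y * I)‖ ≤ 4 * B) :
    ‖(∫ s in (-Real.pi)..Real.pi, m ((s - η) * I) * f t k (η * I) ((s - η) * I)) -
      ∫ s in (-Real.pi)..Real.pi, m (a + (s - η) * I) * f t k (η * I) (a + (s - η) * I)‖ ≤ B := by
  have hd : Differentiable ℂ (fun h => m h * f t k (η * I) h) := hm.mul (cw_diff_f _ _ _)
  have h := rect_shift hd a (-Real.pi - η) (Real.pi - η) (B := 4 * B)
    (fun x hx => ⟨hB x hx _ (Or.inl rfl), hB x hx _ (Or.inr rfl)⟩)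
  have e1 : (∫ s in (-Real.pi)..Real.pi, m ((s - η) * I) * f t k (η * I) ((s - η) * I)) =
      ∫ s in (-Real.pi - η)..(Real.pi - η), m (s * I) * f t k (η * I) (s * I) := by
    rw [← intervalIntegral.integral_comp_sub_right
      (fun s : ℝ => m (s * I) * f t k (η * I) (s * I)) η]
    simp only [Complex.ofReal_sub]
  have e2 : (∫ s in (-Real.pi)..Real.pi,
      m (a + (s - η) * I) * f t k (η * I) (a + (s - η) * I)) =
      ∫ s in (-Real.pi - η)..(Real.pi - η), m (a + s * I) * f t k (η * I) (a + s * I) := by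
    rw [← intervalIntegral.integral_comp_sub_right
      (fun s : ℝ => m (a + s * I) * f t k (η * I) (a + s * I)) η]
    simp only [Complex.ofReal_sub]
  rw [e1, e2]
  refine h.trans ?_
  have hB0 : 0 ≤ 4 * B := (norm_nonneg _).trans (hB a le_rfl _ (Or.inl rfl))
  nlinarith [abs_nonneg a]

theorem center (R δ : ℝ) (hR : 0 ≤ R) (hδ : 0 < δ) (hδ1 : δ ≤ 1 / 2) : ∃ ε : ℝ, 0 < ε ∧
    ∀ (t : ℂ) (k η : ℝ), Reg ε k t → |η| ≤ R →
    (1 - δ) * √(2 * Real.pi / k) * Real.exp (-(U k t * (η ^ 2 / 2 + δ))) ≤ ‖TT t k η‖ ∧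
    ‖TT t k η‖ ≤ (1 + δ) * √(2 * Real.pi / k) * Real.exp (-(U k t * (η ^ 2 / 2 - δ))) ∧
    ‖HH t k η + η * I * TT t k η‖ ≤ δ * ‖TT t k η‖ := by
  have hδ' : 0 < δ / 4 := by positivity
  obtain ⟨ε1, hε1, H1⟩ := exists_ell R hR
  obtain ⟨ε2, hε2, H2⟩ := size R (δ / 4) hR hδ'
  obtain ⟨ε3, hε3, H3⟩ := lap (δ / 4) hδ'
  obtain ⟨ε, hε, c1, c2, c3, c4, c5, c6, c7, c8, c9⟩ := cw_eps hR hε1 hε2 hε3 hδ'
  refine ⟨ε, hε, fun t k η hreg hη => ?_⟩
  have hk := hreg.k_pos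
  have ht := hreg.t_ne
  have hkc : (k : ℂ) ≠ 0 := by exact_mod_cast hk.ne'
  have hk1 : 1 ≤ k := by
    have h1 : (1 : ℝ) ≤ ε⁻¹ := (one_le_inv₀ hε).2 c9
    exact h1.trans hreg.hk
  obtain ⟨W1, W2, W3⟩ := cw_W t hk
  have hUeq := cw_U t hk
  set W : ℂ := (t * k)⁻¹ with hWdef
  have hWn : ‖W‖ ≤ ε := by
    rw [W3, div_le_iff₀ hk]
    exact hreg.ht
  have hWre : 0 ≤ W.re := by
    rw [W1]
    exact div_nonneg hreg.inv_re hk.le
  obtain ⟨l, hl1, hl2⟩ := H1 W η (hWn.trans c1) hη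
  have hlε : ‖l‖ ≤ 2 * (R + 1) * ε :=
    hl1.trans (mul_le_mul_of_nonneg_left hWn (by positivity))
  have hl3 : ‖l‖ ≤ ε3 := hlε.trans c4
  have hl100 : ‖l‖ ≤ 1 / 100 := hlε.trans c5
  have hsize := H2 W l η (hWn.trans c2) hη hWre hl1 hl2
  have hk3 : ε3⁻¹ ≤ k := (inv_anti₀ hε c3).trans hreg.hk
  have ht3 : ‖t⁻¹‖ ≤ ε3 * k := hreg.ht.trans (mul_le_mul_of_nonneg_right c3 hk.le)
  obtain ⟨L1, L2⟩ := H3 t l k hreg.inv_re hk3 ht3 hl3
  set κ : ℂ := k * cexp l with hκdef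
  set G : ℂ := S t κ - S t k with hGdef
  have hG : G = k * (W * (η * I - l) + (η * I - l) + W * (η * I - l) ^ 2 / 2) :=
    S_diff ht hk.ne' hl2
  have hGre : |G.re + U k t * (η ^ 2 / 2)| ≤ δ / 4 * U k t := by
    rw [hG, Complex.re_ofReal_mul, hUeq]
    have e : k * (W * (η * I - l) + (η * I - l) + W * (η * I - l) ^ 2 / 2).re +
        k * (W.re + W.im ^ 2) * (η ^ 2 / 2) =
        k * ((W * (η * I - l) + (η * I - l) + W * (η * I - l) ^ 2 / 2).re +
          (W.re + W.im ^ 2) * (η ^ 2 / 2)) := by ring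
    rw [e, abs_mul, abs_of_pos hk]
    calc _ ≤ k * (δ / 4 * (W.re + W.im ^ 2)) := by gcongr
      _ = _ := by ring
  have hU0 : 0 ≤ U k t := by linarith [hreg.hU]
  have hU2 : U k t ≤ 2 * ε * k := by
    rw [hUeq]
    have h1 : W.re ≤ ε := (Complex.re_le_norm _).trans hWn
    have h2 : |W.im| ≤ ε := (Complex.abs_im_le_norm _).trans hWn
    have h3 : W.im ^ 2 ≤ ε := by
      rw [← sq_abs]
      nlinarith [abs_nonneg W.im]
    nlinarith
  have hη2 : η ^ 2 ≤ R ^ 2 := by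
    rw [← sq_abs]
    gcongr
  have hg1 := (abs_le.1 hGre).1
  have hg2 := (abs_le.1 hGre).2
  have hg : -(k / 4) ≤ G.re := by
    have h1 : U k t * (η ^ 2 / 2) ≤ 2 * ε * k * (R ^ 2 / 2) := by gcongr
    have h2 : δ / 4 * U k t ≤ 1 * (2 * ε * k) := by
      gcongr
      linarith
    have h3 := mul_le_mul_of_nonneg_right c7 hk.le
    nlinarith
  have hsm : Real.exp (-(3 / 2 * k)) ≤ δ / 4 * Real.exp G.re / √k := by
    refine cw_small hk1 ?_ hg
    have h1 : k⁻¹ ≤ ε := by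
      rw [inv_le_comm₀ hk hε]
      exact hreg.hk
    rw [div_eq_mul_inv]
    linarith
  -- the integrand on the shifted line
  have hline : ∀ s : ℝ, f t k (η * I) (l.re + (s - η) * I) =
      cexp G * f t κ 0 ((s - l.im) * I) := by
    intro s
    have h1 := f_shift ht hk.ne' hl2 (l.re + (s - η) * I)
    have h2 : (l.re + (s - η) * I + η * I - l : ℂ) = (s - l.im) * I := by
      conv_lhs => rw [← Complex.re_add_im l]
      simp only [Complex.add_re, Complex.ofReal_re, Complex.mul_re, Complex.ofReal_im,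
        Complex.I_re, Complex.I_im]
      push_cast
      ring
    rw [h2] at h1
    have h3 : cexp G = cexp (S t κ) / cexp (S t k) := by
      rw [hGdef, Complex.exp_sub]
    rw [h3, div_mul_eq_mul_div, eq_div_iff (Complex.exp_ne_zero _), mul_comm, h1]
  have hla : |l.re| ≤ 1 / 100 := (Complex.abs_re_le_norm l).trans hl100
  have hsq : 0 < √k := Real.sqrt_pos.2 hk
  have hGn : ‖cexp G‖ = Real.exp G.re := Complex.norm_exp _
  have hGp : 0 < Real.exp G.re := Real.exp_pos _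
  -- first shift
  have T1 : ‖TT t k η - ∫ s in (-Real.pi)..Real.pi, f t k (η * I) (l.re + (s - η) * I)‖ ≤
      δ / 4 * Real.exp G.re / √k := by
    have h := cw_shift (t := t) (k := k) (η := η) (m := fun _ => 1) (differentiable_const _)
      l.re (B := Real.exp (-(3 / 2 * k))) hla (fun x hx y hy => by
        rw [one_mul]
        refine (cw_side hreg hη c8 (hx.trans hla) hy).trans ?_
        linarith [Real.exp_pos (-(3 / 2 * k))])
    simp only [one_mul] at h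
    exact h.trans hsm
  have T2 : ‖(∫ s in (-Real.pi)..Real.pi, f t k (η * I) (l.re + (s - η) * I)) -
      cexp G * √(2 * Real.pi / k)‖ ≤ δ / 4 * Real.exp G.re / √k := by
    simp only [hline]
    rw [intervalIntegral.integral_const_mul, ← mul_sub, norm_mul, hGn]
    calc _ ≤ Real.exp G.re * (δ / 4 / √k) := by gcongr
      _ = _ := by ring
  have T3 : ‖TT t k η - cexp G * √(2 * Real.pi / k)‖ ≤ δ / 2 * Real.exp G.re / √k := by
    have h1 := norm_sub_le_norm_sub_add_norm_sub (TT t k η)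
      (∫ s in (-Real.pi)..Real.pi, f t k (η * I) (l.re + (s - η) * I))
      (cexp G * √(2 * Real.pi / k))
    refine h1.trans ((add_le_add T1 T2).trans (le_of_eq ?_))
    ring
  have hrt : 1 / √k ≤ √(2 * Real.pi / k) := by
    rw [Real.sqrt_div (by positivity)]
    have h1 : (1 : ℝ) ≤ √(2 * Real.pi) := by
      rw [Real.one_le_sqrt]
      linarith [Real.pi_gt_three]
    gcongr
  have hn : ‖cexp G * (√(2 * Real.pi / k) : ℂ)‖ = Real.exp G.re * √(2 * Real.pi / k) := by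
    rw [norm_mul, hGn, Complex.norm_real, Real.norm_of_nonneg (Real.sqrt_nonneg _)]
  have T4 : δ / 2 * Real.exp G.re / √k ≤ δ / 2 * (Real.exp G.re * √(2 * Real.pi / k)) := by
    calc δ / 2 * Real.exp G.re / √k = δ / 2 * (Real.exp G.re * (1 / √k)) := by ring
      _ ≤ _ := by gcongr
  have T5 : (1 - δ / 2) * (Real.exp G.re * √(2 * Real.pi / k)) ≤ ‖TT t k η‖ := by
    have h1 := norm_sub_norm_le (cexp G * (√(2 * Real.pi / k) : ℂ)) (TT t k η)
    rw [hn, norm_sub_rev] at h1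
    linarith
  have T6 : ‖TT t k η‖ ≤ (1 + δ / 2) * (Real.exp G.re * √(2 * Real.pi / k)) := by
    have h1 := norm_sub_norm_le (TT t k η) (cexp G * (√(2 * Real.pi / k) : ℂ))
    rw [hn] at h1
    linarith
  have hrt0 : 0 < √(2 * Real.pi / k) := Real.sqrt_pos.2 (by positivity)
  -- third claim
  have P1 : ‖(HH t k η + η * I * TT t k η) -
      ∫ s in (-Real.pi)..Real.pi, (l.re + s * I) * f t k (η * I) (l.re + (s - η) * I)‖ ≤
      δ / 4 * Real.exp G.re / √k := by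
    have h := cw_shift (t := t) (k := k) (η := η) (m := fun h => h + η * I)
      (differentiable_id.add_const _)
      l.re (B := Real.exp (-(3 / 2 * k))) hla (fun x hx y hy => by
        rw [norm_mul]
        have h1 := cw_side hreg hη c8 (hx.trans hla) hy
        have h2 : ‖(x : ℂ) + y * I + η * I‖ ≤ 4 := by
          have h3 : (x : ℂ) + y * I + η * I = (x : ℂ) + ((y + η : ℝ) : ℂ) * I := by
            push_cast
            ring
          rw [h3]
          refine (norm_add_le _ _).trans ?_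
          rw [norm_mul, Complex.norm_I, mul_one, Complex.norm_real, Complex.norm_real,
            Real.norm_eq_abs, Real.norm_eq_abs]
          have h4 : |y + η| ≤ 32 / 10 := by
            have hpi := Real.pi_gt_three
            have hpi2 := Real.pi_lt_d2
            rcases hy with rfl | rfl
            · rw [abs_le]; constructor <;> linarith
            · rw [abs_le]; constructor <;> linarith
          have := hx.trans hla
          linarith
        gcongr)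
    have e1 : HH t k η + η * I * TT t k η = ∫ s in (-Real.pi)..Real.pi,
        ((s - η) * I + η * I) * f t k (η * I) ((s - η) * I) := by
      unfold HH TT
      rw [← intervalIntegral.integral_const_mul, ← intervalIntegral.integral_add]
      · congr 1
        funext s
        ring
      · apply Continuous.intervalIntegrable
        have := (cw_diff_f t k (η * I)).continuous
        fun_prop
      · apply Continuous.intervalIntegrable
        have := (cw_diff_f t k (η * I)).continuous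
        fun_prop
    have e2 : ∀ s : ℝ, (l.re + (s - η) * I + η * I : ℂ) = l.re + s * I := fun s => by ring
    simp only [e2] at h
    rw [e1]
    exact h.trans hsm
  have P2 : ‖∫ s in (-Real.pi)..Real.pi,
      (l.re + s * I) * f t k (η * I) (l.re + (s - η) * I)‖ ≤ δ / 4 * Real.exp G.re / √k := by
    have hpi : -Real.pi ≤ Real.pi := by linarith [Real.pi_pos]
    have h1 : ‖∫ s in (-Real.pi)..Real.pi,
        (l.re + s * I) * f t k (η * I) (l.re + (s - η) * I)‖ ≤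
        ∫ s in (-Real.pi)..Real.pi,
          Real.exp G.re * ((‖l‖ + |s|) * ‖f t κ 0 ((s - l.im) * I)‖) := by
      apply intervalIntegral.norm_integral_le_of_norm_le hpi
      · refine MeasureTheory.ae_of_all _ (fun s _ => ?_)
        rw [hline, norm_mul, norm_mul, hGn]
        have h2 : ‖(l.re : ℂ) + s * I‖ ≤ ‖l‖ + |s| := by
          refine (norm_add_le _ _).trans ?_
          rw [norm_mul, Complex.norm_I, mul_one, Complex.norm_real, Complex.norm_real,
            Real.norm_eq_abs, Real.norm_eq_abs]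
          gcongr
          exact Complex.abs_re_le_norm l
        calc _ ≤ (‖l‖ + |s|) * (Real.exp G.re * ‖f t κ 0 ((s - l.im) * I)‖) := by gcongr
          _ = _ := by ring
      · apply Continuous.intervalIntegrable
        have := (cw_diff_f t κ 0).continuous
        fun_prop
    refine h1.trans ?_
    rw [intervalIntegral.integral_const_mul]
    calc _ ≤ Real.exp G.re * (δ / 4 / √k) := by gcongr
      _ = _ := by ring
  have P3 : ‖HH t k η + η * I * TT t k η‖ ≤ δ / 2 * (Real.exp G.re * √(2 * Real.pi / k)) := by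
    have h1 := norm_le_norm_add_norm_sub' (HH t k η + η * I * TT t k η)
      (∫ s in (-Real.pi)..Real.pi, (l.re + s * I) * f t k (η * I) (l.re + (s - η) * I))
    refine h1.trans ((add_le_add P2 P1).trans (le_trans (le_of_eq ?_) T4))
    ring
  have hM0 : 0 < Real.exp G.re * √(2 * Real.pi / k) := mul_pos hGp hrt0
  refine ⟨?_, ?_, ?_⟩
  · have h1 : Real.exp (-(U k t * (η ^ 2 / 2 + δ))) ≤ Real.exp G.re := by
      apply Real.exp_le_exp.2
      nlinarith
    calc (1 - δ) * √(2 * Real.pi / k) * Real.exp (-(U k t * (η ^ 2 / 2 + δ)))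
        ≤ (1 - δ / 2) * √(2 * Real.pi / k) * Real.exp G.re := by
          have h2 : 0 ≤ 1 - δ / 2 := by linarith
          gcongr
          linarith
      _ = (1 - δ / 2) * (Real.exp G.re * √(2 * Real.pi / k)) := by ring
      _ ≤ _ := T5
  · have h1 : Real.exp G.re ≤ Real.exp (-(U k t * (η ^ 2 / 2 - δ))) := by
      apply Real.exp_le_exp.2
      nlinarith
    calc ‖TT t k η‖ ≤ (1 + δ / 2) * (Real.exp G.re * √(2 * Real.pi / k)) := T6
      _ = (1 + δ / 2) * √(2 * Real.pi / k) * Real.exp G.re := by ring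
      _ ≤ _ := by
          gcongr
          linarith
  · have h1 : 1 / 2 * (Real.exp G.re * √(2 * Real.pi / k)) ≤
        (1 - δ / 2) * (Real.exp G.re * √(2 * Real.pi / k)) := by
      gcongr
      linarith
    calc _ ≤ δ / 2 * (Real.exp G.re * √(2 * Real.pi / k)) := P3
      _ = δ * (1 / 2 * (Real.exp G.re * √(2 * Real.pi / k))) := by ring
      _ ≤ δ * ‖TT t k η‖ := by
          have := h1.trans T5
          gcongr

end SokalW
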