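import Mathlib

/-!
# Moving vertical lines of integration [AW-01]

`g` entire, so it has a primitive `P` (`Differentiable.isExactOn_univ` as in `Lib_MP_af4de1_u/Contour.lean`, where the private
lemma `ct_path` is `(∫ s in u..v, g (a + s b)) b = P (a + v b) - P (a + u b)`; copy it).
`rect_shift`: `I ∫_u^v g(sI) = P(vI) - P(uI)`, `I ∫_u^v g(a+sI) = P(a+vI) - P(a+uI)`, and
`P(a+vI) - P(vI) = ∫_0^a g(x+vI) dx`, norm at most `|a| B`; the same at `u`.
`ray_shift`: apply `rect_shift`'s computation on `b..R`: the difference of the integrals over `b..R` is at most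
`|a| B + |a| G R`, and let `R → ∞` (both integrals converge to the integrals over `Ioi b`, `‖g(x+yI)‖ ≤ G y`, `G` integrable).
`ray_shift'`: `ray_shift` for `h ↦ g (-h)`, with `a → -a`, `b → -b`, `G → G(-·)` (`integral_comp_neg_Ioi`).
-/

namespace SokalW

open Complex MeasureTheory Filter Topology

private theorem ct_path {g P : ℂ → ℂ} (hg : Continuous g) (hP : ∀ z, HasDerivAt P (g z) z)
    (a b : ℂ) (u v : ℝ) :
    (∫ s in u..v, g (a + s * b)) * b = P (a + v * b) - P (a + u * b) := by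
  have hd : ∀ s ∈ Set.uIcc u v,
      HasDerivAt (fun s : ℝ => P (a + s * b)) (g (a + s * b) * b) s := by
    intro s _
    have h1 : HasDerivAt (fun z : ℂ => a + z * b) b (s : ℂ) := by
      simpa using ((hasDerivAt_id (s : ℂ)).mul_const b).const_add a
    exact ((hP (a + s * b)).comp (s : ℂ) h1).comp_ofReal
  have hc : Continuous fun s : ℝ => g (a + s * b) * b := by fun_prop
  rw [← intervalIntegral.integral_mul_const]
  exact intervalIntegral.integral_eq_sub_of_hasDerivAt hd (hc.intervalIntegrable _ _)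

private theorem ct_err {g P : ℂ → ℂ} (hg : Continuous g) (hP : ∀ z, HasDerivAt P (g z) z)
    (z : ℂ) (a B : ℝ) (h : ∀ x : ℝ, |x| ≤ |a| → ‖g (x + z)‖ ≤ B) :
    ‖P (a + z) - P z‖ ≤ |a| * B := by
  have h1 := ct_path hg hP z 1 0 a
  rw [mul_one, mul_one, Complex.ofReal_zero, zero_mul, add_zero] at h1
  rw [add_comm (a : ℂ) z, ← h1]
  have h2 := intervalIntegral.norm_integral_le_of_norm_le_const (a := 0) (b := a)
    (f := fun x : ℝ => g (z + x * 1)) (C := B) (fun x hx => by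
      have h3 : |x| ≤ |a| := by
        rw [Set.uIoc, Set.mem_Ioc] at hx
        rcases le_total 0 a with h4 | h4
        · rw [min_eq_left h4, max_eq_right h4] at hx
          rw [abs_of_pos hx.1, abs_of_nonneg h4]
          exact hx.2
        · rw [min_eq_right h4, max_eq_left h4] at hx
          rw [abs_of_nonpos hx.2, abs_of_nonpos h4]
          linarith [hx.1]
      have h5 := h x h3
      rwa [mul_one, add_comm z (x : ℂ)])
  rwa [sub_zero, mul_comm] at h2

private theorem rect_id {g P : ℂ → ℂ} (hg : Continuous g) (hP : ∀ z, HasDerivAt P (g z) z)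
    (a u v : ℝ) :
    ((∫ s in u..v, g (s * I)) - ∫ s in u..v, g (a + s * I)) * I =
      (P (a + u * I) - P (u * I)) - (P (a + v * I) - P (v * I)) := by
  have h0 := ct_path hg hP 0 I u v
  have h1 := ct_path hg hP (a : ℂ) I u v
  simp only [zero_add] at h0
  rw [sub_mul, h0, h1]
  ring

private theorem rect_aux {g : ℂ → ℂ} (hg : Differentiable ℂ g) (a u v : ℝ) {B1 B2 : ℝ}
    (h1 : ∀ x : ℝ, |x| ≤ |a| → ‖g (x + u * I)‖ ≤ B1)
    (h2 : ∀ x : ℝ, |x| ≤ |a| → ‖g (x + v * I)‖ ≤ B2) :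
    ‖(∫ s in u..v, g (s * I)) - ∫ s in u..v, g (a + s * I)‖ ≤ |a| * B1 + |a| * B2 := by
  have hgc : Continuous g := hg.continuous
  obtain ⟨P, hP'⟩ := hg.isExactOn_univ
  have hP : ∀ z, HasDerivAt P (g z) z := fun z => hP' z (Set.mem_univ z)
  have h3 : ‖((∫ s in u..v, g (s * I)) - ∫ s in u..v, g (a + s * I)) * I‖ ≤
      |a| * B1 + |a| * B2 := by
    rw [rect_id hgc hP a u v]
    exact (norm_sub_le _ _).trans (add_le_add (ct_err hgc hP _ a B1 h1) (ct_err hgc hP _ a B2 h2))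
  rwa [norm_mul, norm_I, mul_one] at h3

theorem rect_shift {g : ℂ → ℂ} (hg : Differentiable ℂ g) (a u v : ℝ) {B : ℝ}
    (hB : ∀ x : ℝ, |x| ≤ |a| → ‖g (x + u * I)‖ ≤ B ∧ ‖g (x + v * I)‖ ≤ B) :
    ‖(∫ s in u..v, g (s * I)) - ∫ s in u..v, g (a + s * I)‖ ≤ 2 * |a| * B := by
  have h := rect_aux hg a u v (fun x hx => (hB x hx).1) (fun x hx => (hB x hx).2)
  linarith

theorem ray_shift {g : ℂ → ℂ} (hg : Differentiable ℂ g) (a b : ℝ) {B : ℝ} {G : ℝ → ℝ}
    (hG : Integrable G) (hG0 : Tendsto G atTop (𝓝 0))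
    (hb : ∀ x y : ℝ, |x| ≤ |a| → ‖g (x + y * I)‖ ≤ G y)
    (hB : ∀ x : ℝ, |x| ≤ |a| → ‖g (x + b * I)‖ ≤ B) :
    ‖(∫ s in Set.Ioi b, g (s * I)) - ∫ s in Set.Ioi b, g (a + s * I)‖ ≤ |a| * B := by
  have hgc : Continuous g := hg.continuous
  have hint : ∀ x : ℝ, |x| ≤ |a| → Integrable fun s : ℝ => g ((x : ℂ) + s * I) := by
    intro x hx
    refine hG.mono' ?_ (Eventually.of_forall fun s => hb x s hx)
    exact (by fun_prop : Continuous fun s : ℝ => g ((x : ℂ) + s * I)).aestronglyMeasurable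
  have hi0 : Integrable fun s : ℝ => g (s * I) := by
    have := hint 0 (by simp)
    simpa using this
  have l0 : Tendsto (fun R : ℝ => ∫ s in b..R, g (s * I)) atTop
      (𝓝 (∫ s in Set.Ioi b, g (s * I))) :=
    intervalIntegral_tendsto_integral_Ioi _ hi0.integrableOn tendsto_id
  have l1 : Tendsto (fun R : ℝ => ∫ s in b..R, g ((a : ℂ) + s * I)) atTop
      (𝓝 (∫ s in Set.Ioi b, g ((a : ℂ) + s * I))) :=
    intervalIntegral_tendsto_integral_Ioi _ (hint a le_rfl).integrableOn tendsto_id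
  have l2 : Tendsto (fun R : ℝ => |a| * B + |a| * G R) atTop (𝓝 (|a| * B)) := by
    have := (hG0.const_mul |a|).const_add (|a| * B)
    rwa [mul_zero, add_zero] at this
  refine le_of_tendsto_of_tendsto (l0.sub l1).norm l2 (Eventually.of_forall fun R => ?_)
  exact rect_aux hg a b R hB (fun x hx => hb x R hx)

theorem ray_shift' {g : ℂ → ℂ} (hg : Differentiable ℂ g) (a b : ℝ) {B : ℝ} {G : ℝ → ℝ}
    (hG : Integrable G) (hG0 : Tendsto G atBot (𝓝 0))
    (hb : ∀ x y : ℝ, |x| ≤ |a| → ‖g (x + y * I)‖ ≤ G y)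
    (hB : ∀ x : ℝ, |x| ≤ |a| → ‖g (x + b * I)‖ ≤ B) :
    ‖(∫ s in Set.Iic b, g (s * I)) - ∫ s in Set.Iic b, g (a + s * I)‖ ≤ |a| * B := by
  have hh : Differentiable ℂ fun z : ℂ => g (-z) := hg.comp differentiable_id.neg
  have hneg : ∀ x y : ℝ, -((x : ℂ) + y * I) = ((-x : ℝ) : ℂ) + ((-y : ℝ) : ℂ) * I := by
    intro x y
    push_cast
    ring
  have h := ray_shift (g := fun z : ℂ => g (-z)) hh (-a) (-b) (B := B) (G := fun y => G (-y))
    hG.comp_neg (hG0.comp tendsto_neg_atTop_atBot) (fun x y hx => by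
      rw [hneg]
      refine hb (-x) (-y) ?_
      rwa [abs_neg, ← abs_neg a]) (fun x hx => by
      rw [hneg, neg_neg]
      refine hB (-x) ?_
      rwa [abs_neg, ← abs_neg a])
  have e0 : (∫ s in Set.Ioi (-b), g (-((s : ℂ) * I))) = ∫ s in Set.Iic b, g (s * I) := by
    have h1 := integral_comp_neg_Ioi (-b) (fun s : ℝ => g ((s : ℂ) * I))
    rw [neg_neg] at h1
    rw [← h1]
    refine setIntegral_congr_fun measurableSet_Ioi fun s _ => ?_
    congr 1
    push_cast
    ring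
  have e1 : (∫ s in Set.Ioi (-b), g (-(((-a : ℝ) : ℂ) + (s : ℂ) * I))) =
      ∫ s in Set.Iic b, g (a + s * I) := by
    have h1 := integral_comp_neg_Ioi (-b) (fun s : ℝ => g ((a : ℂ) + (s : ℂ) * I))
    rw [neg_neg] at h1
    rw [← h1]
    refine setIntegral_congr_fun measurableSet_Ioi fun s _ => ?_
    congr 1
    push_cast
    ring
  rw [e0, e1, abs_neg] at h
  exact h

end SokalW
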