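import Pool.Agent.Lib_MP_af4de1_w.TailPos

/-!
# The tails for `E` and `DE`, `Re t ≥ 0` [AW-09]

`Re t > 0`: `SokalU.gauss_rep` with `ξ = iη`, `κ = k`, and the substitution `s → s - η` in the integral over `ℝ`
(`MeasureTheory.integral_sub_right_eq_self`) give
`E t (zp t k e^{iη}) (2πt)^{1/2} e^{-S t k} = ∫_ℝ f t k (iη) ((s-η) I) ds`, and `gauss_rep_sub'` gives
`-t (DE - k E) (2πt)^{1/2} e^{-S t k} = ∫_ℝ (s-η)I f t k (iη) ((s-η) I) ds`; use `tail_pos`.
`Re t = 0`: apply it to `t + e`, `e → 0+`, for `tail_pos` with the constant `ε1`, here `ε = ε1/2`: for small `e` `Reg ε1 k (t+e)` holds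
(`U k (t+e) → U k t ≥ 7/100 > 6/100`, `‖(t+e)⁻¹‖ → ‖t⁻¹‖ < ε1 k`), and all terms converge: `SokalU.tendsto_E`, `tendsto_DE`,
`(2πt)^{1/2}` is continuous at `t` because `Im t < 0`, and the integrals over `[-L, L]` are continuous in `t⁻¹`
(`intervalIntegral.continuous_parametric_intervalIntegral_of_continuous'` for the integrand
`(u,s) ↦ exp(((s-η)I)² u/2 + k(...))`).
-/

namespace SokalW

open Complex SokalU MeasureTheory

private theorem rep1 {t : ℂ} (ht : 0 < t.re) (k η : ℝ) :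
    E t (zp t k * cexp (η * I)) * ((2 * Real.pi * t) ^ (1 / 2 : ℂ) * cexp (-S t k)) =
      ∫ s : ℝ, f t k (η * I) ((s - η) * I) := by
  have h1 := gauss_rep ht (k : ℂ) (η * I)
  have h2 : ∫ s : ℝ, f t k (η * I) ((s - η) * I) = ∫ s : ℝ, f t k (η * I) (s * I) := by
    have h3 := integral_sub_right_eq_self (μ := volume) (fun s : ℝ => f t k (η * I) (s * I)) η
    rw [← h3]
    simp only [Complex.ofReal_sub]
  rw [h2, ← mul_assoc, h1, mul_comm (cexp (S t k)), mul_assoc, ← Complex.exp_add, add_neg_cancel,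
    Complex.exp_zero, mul_one]

private theorem rep2 {t : ℂ} (ht : 0 < t.re) (k η : ℝ) :
    -t * (DE t (zp t k * cexp (η * I)) - k * E t (zp t k * cexp (η * I))) *
        ((2 * Real.pi * t) ^ (1 / 2 : ℂ) * cexp (-S t k)) =
      ∫ s : ℝ, ((s - η) * I) * f t k (η * I) ((s - η) * I) := by
  have ht0 : t ≠ 0 := by
    intro h
    rw [h] at ht
    simp at ht
  have h1 := gauss_rep_sub' ht (k : ℂ) (η * I)
  have h2 : ∫ s : ℝ, ((s - η) * I) * f t k (η * I) ((s - η) * I)
      = ∫ s : ℝ, (s * I) * f t k (η * I) (s * I) := by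
    have h3 := integral_sub_right_eq_self (μ := volume)
      (fun s : ℝ => (s * I) * f t k (η * I) (s * I)) η
    rw [← h3]
    simp only [Complex.ofReal_sub]
  have h4 : ∫ s : ℝ, ((s * I) / t) * f t k (η * I) (s * I)
      = t⁻¹ * ∫ s : ℝ, (s * I) * f t k (η * I) (s * I) := by
    rw [← integral_const_mul]
    refine integral_congr_ae (Filter.Eventually.of_forall fun s => ?_)
    simp only
    ring
  rw [h4] at h1
  rw [h2]
  calc -t * (DE t (zp t k * cexp (η * I)) - k * E t (zp t k * cexp (η * I))) *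
        ((2 * Real.pi * t) ^ (1 / 2 : ℂ) * cexp (-S t k))
      = -t * ((DE t (zp t k * cexp (η * I)) - k * E t (zp t k * cexp (η * I))) *
        (2 * Real.pi * t) ^ (1 / 2 : ℂ)) * cexp (-S t k) := by ring
    _ = (t * t⁻¹) * (cexp (S t k) * cexp (-S t k)) *
        ∫ s : ℝ, (s * I) * f t k (η * I) (s * I) := by rw [h1]; ring
    _ = _ := by
      rw [mul_inv_cancel₀ ht0, ← Complex.exp_add, add_neg_cancel, Complex.exp_zero, one_mul,
        one_mul]

private theorem cont_int (k η a b : ℝ) (m : ℂ → ℂ) (hm : Continuous m) :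
    Continuous fun u : ℂ => ∫ s in a..b, m ((s - η) * I) *
      cexp (((s - η) * I) ^ 2 * u / 2 + k * (cexp (η * I + (s - η) * I) - 1 - (s - η) * I)) := by
  refine intervalIntegral.continuous_parametric_intervalIntegral_of_continuous' ?_ a b
  unfold Function.uncurry
  fun_prop

private theorem f_eq (t : ℂ) (k : ℂ) (ξ h : ℂ) :
    f t k ξ h = cexp (h ^ 2 * t⁻¹ / 2 + k * (cexp (ξ + h) - 1 - h)) := by
  unfold f
  congr 1
  rw [mul_comm (2 : ℂ) t, ← div_div, div_eq_mul_inv (h ^ 2) t]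

private theorem tendsto_add_e (t : ℂ) :
    Filter.Tendsto (fun e : ℝ => t + (e : ℂ)) (nhdsWithin 0 (Set.Ioi 0)) (nhds t) := by
  have h : Continuous fun e : ℝ => t + (e : ℂ) := by fun_prop
  have h1 := h.tendsto 0
  simp only [Complex.ofReal_zero, add_zero] at h1
  exact h1.mono_left nhdsWithin_le_nhds

private theorem tendsto_inv_e {t : ℂ} (ht : t ≠ 0) :
    Filter.Tendsto (fun e : ℝ => (t + (e : ℂ))⁻¹) (nhdsWithin 0 (Set.Ioi 0)) (nhds t⁻¹) :=
  (tendsto_add_e t).inv₀ ht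

private theorem tendsto_int {t : ℂ} (ht : t ≠ 0) (k η a b : ℝ) (m : ℂ → ℂ) (hm : Continuous m) :
    Filter.Tendsto (fun e : ℝ => ∫ s in a..b, m ((s - η) * I) *
      f (t + (e : ℂ)) k (η * I) ((s - η) * I)) (nhdsWithin 0 (Set.Ioi 0))
      (nhds (∫ s in a..b, m ((s - η) * I) * f t k (η * I) ((s - η) * I))) := by
  simp only [f_eq]
  exact ((cont_int k η a b m hm).tendsto t⁻¹).comp (tendsto_inv_e ht)

private theorem tendsto_U {t : ℂ} (ht : t ≠ 0) (k : ℝ) :
    Filter.Tendsto (fun e : ℝ => U k (t + (e : ℂ))) (nhdsWithin 0 (Set.Ioi 0)) (nhds (U k t)) := by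
  unfold U
  have h1 := (Complex.continuous_re.tendsto _).comp (tendsto_inv_e ht)
  have h2 := (Complex.continuous_im.tendsto _).comp (tendsto_inv_e ht)
  exact h1.add ((h2.pow 2).div_const k)

private theorem tendsto_pre {t : ℂ} (ht : t.im < 0) (k : ℂ) :
    Filter.Tendsto (fun e : ℝ => (2 * Real.pi * (t + (e : ℂ))) ^ (1 / 2 : ℂ) *
      cexp (-S (t + (e : ℂ)) k)) (nhdsWithin 0 (Set.Ioi 0))
      (nhds ((2 * Real.pi * t) ^ (1 / 2 : ℂ) * cexp (-S t k))) := by
  have hs : 2 * (Real.pi : ℂ) * t ∈ slitPlane := by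
    right
    have h1 : (2 * (Real.pi : ℂ) * t).im = 2 * Real.pi * t.im := by
      have : (2 * (Real.pi : ℂ)) = ((2 * Real.pi : ℝ) : ℂ) := by push_cast; ring
      rw [this, Complex.im_ofReal_mul]
    rw [h1]
    have := Real.pi_pos
    have : 2 * Real.pi * t.im < 0 := mul_neg_of_pos_of_neg (by positivity) ht
    exact this.ne
  have h2 : Filter.Tendsto (fun e : ℝ => 2 * (Real.pi : ℂ) * (t + (e : ℂ)))
      (nhdsWithin 0 (Set.Ioi 0)) (nhds (2 * Real.pi * t)) := (tendsto_add_e t).const_mul _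
  have h3 := (continuousAt_cpow_const hs (b := (1 / 2 : ℂ))).tendsto.comp h2
  have h4 : Continuous fun z : ℂ => cexp (-S z k) := by
    unfold S
    fun_prop
  exact h3.mul ((h4.tendsto t).comp (tendsto_add_e t))

theorem tail (M δ : ℝ) (hM : 0 ≤ M) (hδ : 0 < δ) : ∃ J : ℕ, 4 ≤ J ∧ ∃ ε : ℝ, 0 < ε ∧
    ∀ (t : ℂ) (k η : ℝ), Reg ε k t → 7 / 100 ≤ U k t → |η| ≤ Real.pi →
    ‖E t (zp t k * cexp (η * I)) * ((2 * Real.pi * t) ^ (1 / 2 : ℂ) * cexp (-S t k)) -
      ∫ s in (-((2 * J + 1) * Real.pi))..((2 * J + 1) * Real.pi), f t k (η * I) ((s - η) * I)‖ ≤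
      δ / ((J + 1) * √k) * Real.exp (-(M * U k t)) ∧
    ‖-t * (DE t (zp t k * cexp (η * I)) - k * E t (zp t k * cexp (η * I))) *
        ((2 * Real.pi * t) ^ (1 / 2 : ℂ) * cexp (-S t k)) -
      ∫ s in (-((2 * J + 1) * Real.pi))..((2 * J + 1) * Real.pi),
        ((s - η) * I) * f t k (η * I) ((s - η) * I)‖ ≤
      δ / ((J + 1) * √k) * Real.exp (-(M * U k t)) := by
  obtain ⟨J, hJ, ε1, hε1, hT⟩ := tail_pos M δ hM hδ
  have hpos : ∀ (t : ℂ) (k η : ℝ), Reg ε1 k t → 0 < t.re → |η| ≤ Real.pi →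
    ‖E t (zp t k * cexp (η * I)) * ((2 * Real.pi * t) ^ (1 / 2 : ℂ) * cexp (-S t k)) -
      ∫ s in (-((2 * J + 1) * Real.pi))..((2 * J + 1) * Real.pi), f t k (η * I) ((s - η) * I)‖ ≤
      δ / ((J + 1) * √k) * Real.exp (-(M * U k t)) ∧
    ‖-t * (DE t (zp t k * cexp (η * I)) - k * E t (zp t k * cexp (η * I))) *
        ((2 * Real.pi * t) ^ (1 / 2 : ℂ) * cexp (-S t k)) -
      ∫ s in (-((2 * J + 1) * Real.pi))..((2 * J + 1) * Real.pi),
        ((s - η) * I) * f t k (η * I) ((s - η) * I)‖ ≤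
      δ / ((J + 1) * √k) * Real.exp (-(M * U k t)) := by
    intro t k η hreg ht hη
    rw [rep1 ht, rep2 ht]
    exact hT t k η hreg ht hη
  refine ⟨J, hJ, ε1 / 2, half_pos hε1, ?_⟩
  intro t k η hreg hU hη
  have hk0 := hreg.k_pos
  have ht0 := hreg.t_ne
  rcases hreg.re.lt_or_eq with ht | ht
  · exact hpos t k η (hreg.mono (by linarith)) ht hη
  · have him : t.im < 0 := by
      refine lt_of_le_of_ne hreg.im fun h => ht0 ?_
      exact Complex.ext ht.symm h
    -- eventually in the regime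
    have hev : ∀ᶠ e : ℝ in nhdsWithin 0 (Set.Ioi 0), Reg ε1 k (t + (e : ℂ)) ∧
        0 < (t + (e : ℂ)).re := by
      have h1 : ∀ᶠ e : ℝ in nhdsWithin 0 (Set.Ioi 0), ‖(t + (e : ℂ))⁻¹‖ < ε1 * k := by
        have h2 := (tendsto_inv_e ht0).norm
        refine h2.eventually (gt_mem_nhds ?_)
        have h3 := hreg.ht
        have h4 : 0 < ε1 * k := by positivity
        linarith
      have h5 : ∀ᶠ e : ℝ in nhdsWithin 0 (Set.Ioi 0), 6 / 100 < U k (t + (e : ℂ)) :=
        (tendsto_U ht0 k).eventually (lt_mem_nhds (by linarith))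
      filter_upwards [h1, h5, self_mem_nhdsWithin] with e he1 he2 he3
      have he3' : 0 < e := he3
      have hre : (t + (e : ℂ)).re = e := by
        rw [Complex.add_re, Complex.ofReal_re, ← ht, zero_add]
      refine ⟨⟨hε1, by rw [hre]; exact he3'.le, ?_, ?_, he1.le, he2.le⟩, by rw [hre]; exact he3'⟩
      · rw [Complex.add_im, Complex.ofReal_im, add_zero]
        exact hreg.im
      · refine le_trans ?_ hreg.hk
        rw [inv_div]
        rw [inv_eq_one_div]
        exact div_le_div_of_nonneg_right (by norm_num) hε1.le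
    have hE := tendsto_E hreg.re (k : ℂ) (cexp (η * I))
    have hDE := tendsto_DE hreg.re (k : ℂ) (cexp (η * I))
    have hpre := tendsto_pre him (k : ℂ)
    have hR : Filter.Tendsto (fun e : ℝ => δ / ((J + 1) * √k) *
        Real.exp (-(M * U k (t + (e : ℂ))))) (nhdsWithin 0 (Set.Ioi 0))
        (nhds (δ / ((J + 1) * √k) * Real.exp (-(M * U k t)))) :=
      ((Real.continuous_exp.tendsto _).comp ((tendsto_U ht0 k).const_mul M).neg).const_mul _
    have hI1 := tendsto_int ht0 k η (-((2 * J + 1) * Real.pi)) ((2 * J + 1) * Real.pi)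
      (fun _ => 1) continuous_const
    simp only [one_mul] at hI1
    have hI2 := tendsto_int ht0 k η (-((2 * J + 1) * Real.pi)) ((2 * J + 1) * Real.pi)
      (fun z => z) continuous_id
    constructor
    · refine le_of_tendsto_of_tendsto ((hE.mul hpre).sub hI1).norm hR ?_
      filter_upwards [hev] with e he
      exact (hpos (t + (e : ℂ)) k η he.1 he.2 hη).1
    · refine le_of_tendsto_of_tendsto (((((tendsto_add_e t).neg).mul
        (hDE.sub (hE.const_mul (k : ℂ)))).mul hpre).sub hI2).norm hR ?_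
      filter_upwards [hev] with e he
      exact (hpos (t + (e : ℂ)) k η he.1 he.2 hη).2

end SokalW
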