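import Pool.Agent.Lib_MP_af4de1_w.Defs

/-!
# Decomposition in windows [AW-02]

`∫_{-(2J+1)π}^{(2J+1)π} = ∑_{|j| ≤ J} ∫_{(2j-1)π}^{(2j+1)π}` (induction on `J`, or
`intervalIntegral.sum_integral_adjacent_intervals`), and in the window `j` put `s = s' + 2πj`
(`intervalIntegral.integral_comp_add_right`): `(s - η) I = (s' - (η - 2πj)) I` and, with `h = (s-η) I`,
`e^{iη + h} = e^{is} = e^{is'} = e^{i(η-2πj) + h}`, so `f t k (η I) h = f t k ((η-2πj) I) h`.  The window is `TT t k (η - 2πj)`;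
replace `j` by `-j` in the sum over `Icc (-J) J`.  The same with the weight `h`.
-/

namespace SokalW

open Complex SokalU

private theorem win_piece (g : ℝ → ℝ → ℂ)
    (hg : ∀ (η s : ℝ) (j : ℤ), g η (s + 2 * Real.pi * j) = g (η - 2 * Real.pi * j) s)
    (η : ℝ) (j : ℤ) :
    ∫ s in (-Real.pi + 2 * Real.pi * j)..(Real.pi + 2 * Real.pi * j), g η s =
      ∫ s in (-Real.pi)..Real.pi, g (η - 2 * Real.pi * j) s := by
  rw [← intervalIntegral.integral_comp_add_right (fun s => g η s) (2 * Real.pi * j)]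
  exact intervalIntegral.integral_congr (fun s _ => hg η s j)

private theorem win_aux (g : ℝ → ℝ → ℂ) (hc : ∀ η, Continuous (g η))
    (hg : ∀ (η s : ℝ) (j : ℤ), g η (s + 2 * Real.pi * j) = g (η - 2 * Real.pi * j) s)
    (η : ℝ) (J : ℕ) :
    ∫ s in (-((2 * J + 1) * Real.pi))..((2 * J + 1) * Real.pi), g η s =
      ∑ j ∈ Finset.Icc (-(J : ℤ)) J, ∫ s in (-Real.pi)..Real.pi, g (η + 2 * Real.pi * j) s := by
  induction J with
  | zero => simp
  | succ J ih =>
    have hi : ∀ a b : ℝ, IntervalIntegrable (g η) MeasureTheory.volume a b :=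
      fun a b => (hc η).intervalIntegrable a b
    have hs : Finset.Icc (-((J + 1 : ℕ) : ℤ)) ((J + 1 : ℕ) : ℤ) =
        insert (-((J : ℤ) + 1)) (insert ((J : ℤ) + 1) (Finset.Icc (-(J : ℤ)) J)) := by
      ext x
      simp only [Finset.mem_insert, Finset.mem_Icc]
      push_cast
      omega
    have h1 : (-((J : ℤ) + 1)) ∉ insert ((J : ℤ) + 1) (Finset.Icc (-(J : ℤ)) J) := by
      simp only [Finset.mem_insert, Finset.mem_Icc]
      omega
    have h2 : ((J : ℤ) + 1) ∉ Finset.Icc (-(J : ℤ)) J := by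
      simp only [Finset.mem_Icc]
      omega
    rw [hs, Finset.sum_insert h1, Finset.sum_insert h2, ← ih]
    have e1 : (-((2 * ((J + 1 : ℕ) : ℝ) + 1) * Real.pi)) =
        -Real.pi + 2 * Real.pi * ((-((J : ℤ) + 1) : ℤ) : ℝ) := by
      push_cast
      ring
    have e2 : (-((2 * (J : ℝ) + 1) * Real.pi)) =
        Real.pi + 2 * Real.pi * ((-((J : ℤ) + 1) : ℤ) : ℝ) := by
      push_cast
      ring
    have e3 : ((2 * (J : ℝ) + 1) * Real.pi) =
        -Real.pi + 2 * Real.pi * (((J : ℤ) + 1 : ℤ) : ℝ) := by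
      push_cast
      ring
    have e4 : ((2 * ((J + 1 : ℕ) : ℝ) + 1) * Real.pi) =
        Real.pi + 2 * Real.pi * (((J : ℤ) + 1 : ℤ) : ℝ) := by
      push_cast
      ring
    have p1 := win_piece g hg η (-((J : ℤ) + 1))
    have p2 := win_piece g hg η ((J : ℤ) + 1)
    rw [← e1, ← e2] at p1
    rw [← e3, ← e4] at p2
    rw [← intervalIntegral.integral_add_adjacent_intervals (hi _ (-((2 * (J : ℝ) + 1) * Real.pi)))
      (hi _ _), ← intervalIntegral.integral_add_adjacent_intervals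
      (hi (-((2 * (J : ℝ) + 1) * Real.pi)) ((2 * (J : ℝ) + 1) * Real.pi)) (hi _ _), p1, p2]
    have q1 : η - 2 * Real.pi * ((-((J : ℤ) + 1) : ℤ) : ℝ) =
        η + 2 * Real.pi * (((J : ℤ) + 1 : ℤ) : ℝ) := by
      push_cast
      ring
    have q2 : η - 2 * Real.pi * (((J : ℤ) + 1 : ℤ) : ℝ) =
        η + 2 * Real.pi * ((-((J : ℤ) + 1) : ℤ) : ℝ) := by
      push_cast
      ring
    rw [q1, q2]
    ring

private theorem exp_win (s : ℝ) (j : ℤ) :
    cexp (((s + 2 * Real.pi * j : ℝ) : ℂ) * I) = cexp ((s : ℂ) * I) := by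
  have : ((s + 2 * Real.pi * j : ℝ) : ℂ) * I = (s : ℂ) * I + j * (2 * Real.pi * I) := by
    push_cast
    ring
  rw [this, Complex.exp_add, Complex.exp_int_mul_two_pi_mul_I, mul_one]

private theorem f_shift (t : ℂ) (k η s : ℝ) (j : ℤ) :
    f t k ((η : ℂ) * I) ((((s + 2 * Real.pi * j : ℝ) : ℂ) - η) * I) =
      f t k (((η - 2 * Real.pi * j : ℝ) : ℂ) * I)
        (((s : ℂ) - ((η - 2 * Real.pi * j : ℝ) : ℂ)) * I) := by
  unfold f
  have h1 : (((s + 2 * Real.pi * j : ℝ) : ℂ) - η) * I =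
      ((s : ℂ) - ((η - 2 * Real.pi * j : ℝ) : ℂ)) * I := by
    push_cast
    ring
  have h2 : (η : ℂ) * I + ((s : ℂ) - ((η - 2 * Real.pi * j : ℝ) : ℂ)) * I =
      ((s + 2 * Real.pi * j : ℝ) : ℂ) * I := by
    push_cast
    ring
  have h3 : ((η - 2 * Real.pi * j : ℝ) : ℂ) * I +
      ((s : ℂ) - ((η - 2 * Real.pi * j : ℝ) : ℂ)) * I = (s : ℂ) * I := by
    ring
  rw [h1, h2, h3, exp_win]

private theorem f_cont (t : ℂ) (k η : ℝ) :
    Continuous (fun s : ℝ => f t k ((η : ℂ) * I) (((s : ℂ) - η) * I)) := by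
  unfold f
  fun_prop

theorem win_T (t : ℂ) (k η : ℝ) (J : ℕ) :
    ∫ s in (-((2 * J + 1) * Real.pi))..((2 * J + 1) * Real.pi), f t k (η * I) ((s - η) * I) =
      ∑ j ∈ Finset.Icc (-(J : ℤ)) J, TT t k (η + 2 * Real.pi * j) := by
  exact win_aux (fun η s : ℝ => f t k ((η : ℂ) * I) (((s : ℂ) - (η : ℂ)) * I))
    (fun η => f_cont t k η) (fun η s j => f_shift t k η s j) η J

theorem win_H (t : ℂ) (k η : ℝ) (J : ℕ) :
    ∫ s in (-((2 * J + 1) * Real.pi))..((2 * J + 1) * Real.pi),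
      ((s - η) * I) * f t k (η * I) ((s - η) * I) =
      ∑ j ∈ Finset.Icc (-(J : ℤ)) J, HH t k (η + 2 * Real.pi * j) := by
  refine win_aux (fun η s : ℝ =>
      (((s : ℂ) - (η : ℂ)) * I) * f t k ((η : ℂ) * I) (((s : ℂ) - (η : ℂ)) * I))
    (fun η => ?_) (fun η s j => ?_) η J
  · exact (by fun_prop : Continuous (fun s : ℝ => ((s : ℂ) - (η : ℂ)) * I)).mul (f_cont t k η)
  · rw [f_shift]
    congr 1
    push_cast
    ring

end SokalW
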