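import Pool.Agent.Lib_MP_af4de1_w.CoreAbs
import Pool.Agent.Lib_MP_af4de1_w.Win
import Pool.Agent.Lib_MP_af4de1_w.Center
import Pool.Agent.Lib_MP_af4de1_w.Tail

/-!
# No multiple zero in the regime `Reg`
-/

namespace SokalW

open Complex SokalU

theorem coreW (N : ℕ) (hN : 0 < N) : ∃ ε : ℝ, 0 < ε ∧ ∀ (a : ℤ) (t : ℂ) (k β : ℝ),
    IsCoprime a (N : ℤ) → Reg ε k t → 7 / 100 ≤ U k t →
    99 / 100 * Real.pi ≤ (2 * Real.pi / N) ^ 2 * U k t →
    SokalF.F (cexp (2 * Real.pi * I * a / N) * cexp (-t)) (zp t k * cexp (β * I)) = 0 →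
    SokalF.F (cexp (2 * Real.pi * I * a / N) * cexp (-t))
      (cexp (2 * Real.pi * I * a / N) * cexp (-t) * (zp t k * cexp (β * I))) = 0 → False := by
  have hpi := Real.pi_pos
  have hpi4 := Real.pi_lt_d2
  have hNR : (0 : ℝ) < N := by exact_mod_cast hN
  have hN1 : (1 : ℝ) ≤ N := by exact_mod_cast hN
  set h : ℝ := 2 * Real.pi / N with hh
  have hh0 : 0 < h := by positivity
  have hh2 : h ≤ 2 * Real.pi := by
    rw [hh]; exact div_le_self (by positivity) hN1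
  set δ : ℝ := h ^ 2 / 100000 with hδ
  have hδ0 : 0 < δ := by positivity
  have hδ1 : δ ≤ 1 / 2 := by rw [hδ]; nlinarith
  obtain ⟨J, hJ, ε1, hε1, htail⟩ := tail (h ^ 2 / 8 + δ) (h / (100 * N) * √(2 * Real.pi))
    (by positivity) (by positivity)
  obtain ⟨ε2, hε2, hcen⟩ := center ((2 * J + 1) * Real.pi) δ (by positivity) hδ0 hδ1
  refine ⟨min ε1 ε2, lt_min hε1 hε2, ?_⟩
  intro a t k β ha hR hU hhU hF hF'
  have ht := hR.t_ne
  have hk := hR.k_pos
  obtain ⟨g, ε, g0, hg0, hg, hl⟩ := lifts N hN a ha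
  set m0 : ℤ := ⌈(-Real.pi - β) / h - ε⌉ with hm0
  obtain ⟨l1, l2⟩ := hl t (zp t k * cexp (β * I)) m0 hR.re
  have harg : ∀ m : ℤ, cexp (2 * Real.pi * (m + ε) / N * I) * (zp t k * cexp (β * I)) =
      zp t k * cexp (((β + h * (m + ε) : ℝ) : ℂ) * I) := by
    intro m
    have : ((β + h * (m + ε) : ℝ) : ℂ) * I =
      2 * Real.pi * (m + ε) / N * I + β * I := by rw [hh]; push_cast; ring
    rw [this, Complex.exp_add]
    ring
  rw [hF] at l1
  rw [hF', mul_zero] at l2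
  simp only [harg] at l1 l2
  set C : ℂ := (2 * Real.pi * t) ^ (1 / 2 : ℂ) * cexp (-S t k) with hC
  -- windows
  have hNh : (N : ℝ) * h = 2 * Real.pi := by rw [hh]; field_simp
  have hwin : ∀ m ∈ Finset.Ico m0 (m0 + N), |β + h * (m + ε)| ≤ Real.pi := by
    intro m hm
    rw [Finset.mem_Ico] at hm
    obtain ⟨h1, h2⟩ := hm
    have e1 : (-Real.pi - β) / h - ε ≤ m := by
      rw [hm0, Int.ceil_le] at h1; exact h1
    have e2 : (m : ℝ) < (-Real.pi - β) / h - ε + N := by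
      have h3 : m + 1 ≤ m0 + N := by omega
      have h4 : ((m : ℝ) + 1) ≤ m0 + N := by exact_mod_cast h3
      have h5 : (m0 : ℝ) < (-Real.pi - β) / h - ε + 1 := by rw [hm0]; exact Int.ceil_lt_add_one _
      linarith
    have e3 : (-Real.pi - β) / h ≤ m + ε := by linarith
    have e4 : (m : ℝ) + ε < (-Real.pi - β) / h + N := by linarith
    rw [div_le_iff₀ hh0] at e3
    have e5 : ((m : ℝ) + ε) * h < ((-Real.pi - β) / h + N) * h := by gcongr
    rw [add_mul ((-Real.pi - β) / h), div_mul_cancel₀ _ hh0.ne', hNh] at e5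
    rw [abs_le]
    constructor <;> nlinarith
  set L : ℝ := (2 * J + 1) * Real.pi with hL
  set x : ℤ → ℂ := fun m => E t (zp t k * cexp (((β + h * (m + ε) : ℝ) : ℂ) * I)) * C -
    ∑ j ∈ Finset.Icc (-(J : ℤ)) J, TT t k (β + h * (m + ε) + 2 * Real.pi * j) with hx
  set y : ℤ → ℂ := fun m => -t * (DE t (zp t k * cexp (((β + h * (m + ε) : ℝ) : ℂ) * I)) -
      k * E t (zp t k * cexp (((β + h * (m + ε) : ℝ) : ℂ) * I))) * C -
    ∑ j ∈ Finset.Icc (-(J : ℤ)) J, HH t k (β + h * (m + ε) + 2 * Real.pi * j) with hy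
  set τ : ℝ := h / (100 * N) * √(2 * Real.pi / k) * Real.exp (-(U k t * (h ^ 2 / 8 + δ))) with hτ
  have hτe : h / (100 * N) * √(2 * Real.pi) / ((J + 1) * √k) *
      Real.exp (-((h ^ 2 / 8 + δ) * U k t)) = τ / (J + 1) := by
    rw [hτ, Real.sqrt_div (by positivity), mul_comm (U k t)]
    have : 0 < √k := Real.sqrt_pos.2 hk
    field_simp
  have hR1 : Reg ε1 k t := hR.mono (min_le_left _ _)
  refine core_abs_w (N := N) (h := h) (u := U k t) (s0 := √(2 * Real.pi / k)) (β := β) (ε := ε)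
    (g0 := g0) (δ := δ) (τ := τ) (t := t) (k := k) (J := J) (tt := TT t k) (hh := HH t k) (g := g)
    (x := x) (y := y) (m0 := m0) hN hh ht (by positivity) hJ hg0 hg hδ hhU hm0 hτ ?_ ?_ ?_ ?_ ?_
  · intro η hη
    exact hcen t k η (hR.mono (min_le_right _ _)) hη
  · intro m hm
    have h1 := (htail t k _ hR1 hU (hwin m hm)).1
    rw [win_T, hτe] at h1
    exact h1
  · intro m hm
    have h1 := (htail t k _ hR1 hU (hwin m hm)).2
    rw [win_H, hτe] at h1
    exact h1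
  · have e : ∀ m ∈ Finset.Ico m0 (m0 + N), g m * ((∑ j ∈ Finset.Icc (-(J : ℤ)) J,
        TT t k (β + h * (m + ε) + 2 * Real.pi * j)) + x m) =
        (g m * E t (zp t k * cexp (((β + h * (m + ε) : ℝ) : ℂ) * I))) * C := by
      intro m _
      simp only [hx]
      ring
    rw [Finset.sum_congr rfl e, ← Finset.sum_mul, ← l1, zero_mul]
  · have e : ∀ m ∈ Finset.Ico m0 (m0 + N), g m * ((∑ j ∈ Finset.Icc (-(J : ℤ)) J,
        HH t k (β + h * (m + ε) + 2 * Real.pi * j)) + y m) =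
        (g m * DE t (zp t k * cexp (((β + h * (m + ε) : ℝ) : ℂ) * I))) * (-t * C) -
        (g m * E t (zp t k * cexp (((β + h * (m + ε) : ℝ) : ℂ) * I))) * (-t * k * C) := by
      intro m _
      simp only [hy]
      ring
    rw [Finset.sum_congr rfl e, Finset.sum_sub_distrib, ← Finset.sum_mul, ← Finset.sum_mul, ← l1,
      ← l2, zero_mul, zero_mul, sub_zero]

end SokalW
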