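import Pool.Agent.Lib_MP_af4de1_w.Defs

/-!
# The abstract core
-/

namespace SokalW

open Complex SokalU

/-- Blocks. -/
theorem sum_blocks (φ : ℤ → ℂ) (m0 : ℤ) (N J : ℕ) :
    ∑ m ∈ Finset.Ico (m0 - J * N) (m0 + (J + 1) * N), φ m =
      ∑ m ∈ Finset.Ico m0 (m0 + N), ∑ j ∈ Finset.Icc (-(J : ℤ)) J, φ (m + j * N) := by
  induction J with
  | zero => simp
  | succ J ih =>
    have e1 : Finset.Icc (-((J + 1 : ℕ) : ℤ)) ((J + 1 : ℕ) : ℤ) =
        insert (-((J : ℤ) + 1)) (insert ((J : ℤ) + 1) (Finset.Icc (-(J : ℤ)) J)) := by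
      ext x
      simp only [Finset.mem_Icc, Finset.mem_insert]
      push_cast
      omega
    have e2 : ∀ m : ℤ, ∑ j ∈ Finset.Icc (-((J + 1 : ℕ) : ℤ)) ((J + 1 : ℕ) : ℤ), φ (m + j * N) =
        φ (m + (-((J : ℤ) + 1)) * N) + (φ (m + ((J : ℤ) + 1) * N) +
          ∑ j ∈ Finset.Icc (-(J : ℤ)) J, φ (m + j * N)) := by
      intro m
      rw [e1, Finset.sum_insert, Finset.sum_insert]
      · simp
      · simp only [Finset.mem_insert, Finset.mem_Icc]; omega
    simp only [e2]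
    rw [Finset.sum_add_distrib, Finset.sum_add_distrib, ← ih]
    rw [Finset.sum_Ico_add' φ m0 (m0 + N) (-((J : ℤ) + 1) * N),
      Finset.sum_Ico_add' φ m0 (m0 + N) (((J : ℤ) + 1) * N)]
    have hN : (0 : ℤ) ≤ N := Int.natCast_nonneg N
    have hJN : (0 : ℤ) ≤ J * N := by positivity
    have s1 : Finset.Ico (m0 - ((J + 1 : ℕ) : ℤ) * N) (m0 + (((J + 1 : ℕ) : ℤ) + 1) * N) =
        Finset.Ico (m0 + -((J : ℤ) + 1) * N) (m0 + N + -((J : ℤ) + 1) * N) ∪
          (Finset.Ico (m0 + ((J : ℤ) + 1) * N) (m0 + N + ((J : ℤ) + 1) * N) ∪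
            Finset.Ico (m0 - J * N) (m0 + (J + 1) * N)) := by
      ext x
      simp only [Finset.mem_Ico, Finset.mem_union]
      push_cast
      constructor
      · rintro ⟨h1, h2⟩
        by_cases h3 : x < m0 - J * N
        · left; constructor <;> linarith
        · by_cases h4 : x < m0 + (J + 1) * N
          · right; right; constructor <;> linarith
          · right; left; constructor <;> linarith
      · rintro (⟨h1, h2⟩ | ⟨h1, h2⟩ | ⟨h1, h2⟩) <;> constructor <;> nlinarith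
    rw [s1, Finset.sum_union, Finset.sum_union]
    · rw [Finset.disjoint_left]
      intro x hx hx'
      rw [Finset.mem_Ico] at hx hx'
      linarith [hx.1, hx'.2]
    · rw [Finset.disjoint_left]
      intro x hx hx'
      rw [Finset.mem_union, Finset.mem_Ico, Finset.mem_Ico] at hx'
      rw [Finset.mem_Ico] at hx
      rcases hx' with hx' | hx'
      · nlinarith [hx.2, hx'.1]
      · linarith [hx.2, hx'.1]

theorem exp_31 : Real.exp (-(31 / 10)) ≤ 1 / 22 := by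
  have h1 := Real.exp_one_gt_d9
  have h2 : Real.exp (31 / 10) = Real.exp 1 ^ 3 * Real.exp (1 / 10) := by
    rw [← Real.exp_nat_mul, ← Real.exp_add]; norm_num
  have h3 : (11 / 10 : ℝ) ≤ Real.exp (1 / 10) := by
    have := Real.add_one_le_exp (1 / 10 : ℝ)
    linarith
  have h4 : (22 : ℝ) ≤ Real.exp (31 / 10) := by
    rw [h2]
    have h5 : (2.7182818283 : ℝ) ^ 3 ≤ Real.exp 1 ^ 3 := by gcongr
    have h6 : (2.7182818283 : ℝ) ^ 3 * (11 / 10) ≤ Real.exp 1 ^ 3 * Real.exp (1 / 10) := by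
      gcongr
    refine le_trans ?_ h6
    norm_num
  rw [Real.exp_neg, inv_eq_one_div]
  exact one_div_le_one_div_of_le (by norm_num) h4

theorem core_abs_w {N : ℕ} (hN : 0 < N) {h u s0 β ε g0 δ τ : ℝ} {t k : ℂ} {J : ℕ}
    {tt hh : ℝ → ℂ} {g x y : ℤ → ℂ} {m0 : ℤ} (hh0 : h = 2 * Real.pi / N) (ht : t ≠ 0)
    (hs0 : 0 < s0) (hJ : 4 ≤ J) (hg0 : 0 < g0) (hg : ∀ m, ‖g m‖ = g0)
    (hδ : δ = h ^ 2 / 100000) (hu : 99 / 100 * Real.pi ≤ h ^ 2 * u)
    (hm0 : m0 = ⌈(-Real.pi - β) / h - ε⌉)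
    (hτ : τ = h / (100 * N) * s0 * Real.exp (-(u * (h ^ 2 / 8 + δ))))
    (hc : ∀ η : ℝ, |η| ≤ (2 * J + 1) * Real.pi →
      (1 - δ) * s0 * Real.exp (-(u * (η ^ 2 / 2 + δ))) ≤ ‖tt η‖ ∧
      ‖tt η‖ ≤ (1 + δ) * s0 * Real.exp (-(u * (η ^ 2 / 2 - δ))) ∧
      ‖hh η + η * I * tt η‖ ≤ δ * ‖tt η‖)
    (hx : ∀ m ∈ Finset.Ico m0 (m0 + N), ‖x m‖ ≤ τ / (J + 1))
    (hy : ∀ m ∈ Finset.Ico m0 (m0 + N), ‖y m‖ ≤ τ / (J + 1))
    (hsT : ∑ m ∈ Finset.Ico m0 (m0 + N), g m * ((∑ j ∈ Finset.Icc (-(J : ℤ)) J,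
      tt (β + h * (m + ε) + 2 * Real.pi * j)) + x m) = 0)
    (hsH : ∑ m ∈ Finset.Ico m0 (m0 + N), g m * ((∑ j ∈ Finset.Icc (-(J : ℤ)) J,
      hh (β + h * (m + ε) + 2 * Real.pi * j)) + y m) = 0) : False := by
  have hpi := Real.pi_pos
  have hpi3 := Real.pi_gt_three
  have hpi4 := Real.pi_lt_d2
  have hNR : (0 : ℝ) < N := by exact_mod_cast hN
  have hN1 : (1 : ℝ) ≤ N := by exact_mod_cast hN
  have hhpos : 0 < h := by rw [hh0]; positivity
  have hNh : (N : ℝ) * h = 2 * Real.pi := by rw [hh0]; field_simp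
  have hh2 : h ≤ 2 * Real.pi := by nlinarith
  have hδ0 : 0 < δ := by rw [hδ]; positivity
  have hδ1 : δ ≤ 1 / 2000 := by rw [hδ]; nlinarith
  have hδh : δ ≤ h / 1000 := by rw [hδ]; nlinarith
  have hu0 : 0 < u := by
    by_contra hcon
    push Not at hcon
    nlinarith [sq_nonneg h]
  set η : ℤ → ℝ := fun m => β + h * (m + ε) with hηdef
  have hηsucc : ∀ m : ℤ, η (m + 1) = η m + h := by
    intro m; simp only [hηdef]; push_cast; ring
  have hηpred : ∀ m : ℤ, η (m - 1) = η m - h := by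
    intro m; simp only [hηdef]; push_cast; ring
  have hηdiff : ∀ m m' : ℤ, η m - η m' = h * ((m : ℝ) - m') := by
    intro m m'; simp only [hηdef]; ring
  have hη0 : -Real.pi ≤ η m0 ∧ η m0 < -Real.pi + h := by
    have e1 : (-Real.pi - β) / h - ε ≤ m0 := by rw [hm0]; exact Int.le_ceil _
    have e2 : (m0 : ℝ) < (-Real.pi - β) / h - ε + 1 := by rw [hm0]; exact Int.ceil_lt_add_one _
    have e3 : (-Real.pi - β) / h ≤ m0 + ε := by linarith
    have e4 : (m0 : ℝ) + ε - 1 < (-Real.pi - β) / h := by linarith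
    rw [div_le_iff₀ hhpos] at e3
    rw [lt_div_iff₀ hhpos] at e4
    simp only [hηdef]
    constructor <;> nlinarith
  set a : ℤ := m0 - J * N with hadef
  set m1 : ℤ := m0 + (J + 1) * N with hm1def
  set b : ℤ := m1 - 1 with hbdef
  have hJR : (4 : ℝ) ≤ J := by exact_mod_cast hJ
  have hηa : η a = η m0 - 2 * Real.pi * J := by
    have := hηdiff a m0
    rw [hadef] at this ⊢
    push_cast at this
    have e : h * ((m0 : ℝ) - J * N - m0) = -(J * (N * h)) := by ring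
    rw [e, hNh] at this
    linarith
  have hηb : η b = η m0 + 2 * Real.pi * (J + 1) - h := by
    have := hηdiff b m0
    rw [hbdef, hm1def] at this ⊢
    push_cast at this
    have e : h * ((m0 : ℝ) + (J + 1) * N - 1 - m0) = (J + 1) * (N * h) - h := by ring
    rw [e, hNh] at this
    linarith
  have hηmono : ∀ m m' : ℤ, m ≤ m' → η m ≤ η m' := by
    intro m m' hmm
    have := hηdiff m' m
    have h2 : (m : ℝ) ≤ m' := by exact_mod_cast hmm
    nlinarith
  have hηR : ∀ m : ℤ, a ≤ m → m ≤ b → |η m| ≤ (2 * J + 1) * Real.pi := by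
    intro m h1 h2
    have h3 := hηmono a m h1
    have h4 := hηmono m b h2
    rw [abs_le]
    constructor <;> nlinarith [hη0.1, hη0.2]
  have hηin : ∀ m : ℤ, |η m| ≤ 6 * Real.pi → a < m ∧ m < b := by
    intro m hm
    have h1 := abs_le.1 hm
    constructor
    · by_contra hcon
      push Not at hcon
      have := hηmono m a hcon
      nlinarith [hη0.1, hη0.2]
    · by_contra hcon
      push Not at hcon
      have := hηmono b m hcon
      nlinarith [hη0.1, hη0.2]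
  -- the periodic extension of `g`
  set g' : ℤ → ℂ := fun m => g (m0 + (m - m0) % N) with hg'def
  have hNZ : (0 : ℤ) < N := by exact_mod_cast hN
  have hg'1 : ∀ m ∈ Finset.Ico m0 (m0 + N), ∀ j : ℤ, g' (m + j * N) = g m := by
    intro m hm j
    rw [Finset.mem_Ico] at hm
    simp only [hg'def]
    congr 1
    have e : m + j * N - m0 = (m - m0) + N * j := by ring
    rw [e, Int.add_mul_emod_self_left, Int.emod_eq_of_lt (by omega) (by omega)]
    ring
  have hg'n : ∀ m, ‖g' m‖ = g0 := fun m => hg _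
  have hηj : ∀ m j : ℤ, η (m + j * N) = β + h * (m + ε) + 2 * Real.pi * j := by
    intro m j
    simp only [hηdef]
    push_cast
    have e : h * ((m : ℝ) + j * N + ε) = h * (m + ε) + j * (N * h) := by ring
    rw [e, hNh]
    ring
  set X : ℂ := ∑ m ∈ Finset.Ico m0 (m0 + N), g m * x m with hX
  set Y : ℂ := ∑ m ∈ Finset.Ico m0 (m0 + N), g m * y m with hY
  have hτ0 : 0 < τ := by rw [hτ]; positivity
  have hcard : ((Finset.Ico m0 (m0 + (N : ℤ))).card : ℝ) = N := by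
    rw [Int.card_Ico]
    simp
  have hXY : ∀ z : ℤ → ℂ, (∀ m ∈ Finset.Ico m0 (m0 + N), ‖z m‖ ≤ τ / (J + 1)) →
      ‖∑ m ∈ Finset.Ico m0 (m0 + N), g m * z m‖ ≤ N * (g0 * (τ / (J + 1))) := by
    intro z hz
    refine (norm_sum_le _ _).trans ?_
    have h1 : ∀ m ∈ Finset.Ico m0 (m0 + (N : ℤ)), ‖g m * z m‖ ≤ g0 * (τ / (J + 1)) := by
      intro m hm
      rw [norm_mul, hg]
      exact mul_le_mul_of_nonneg_left (hz m hm) hg0.le
    refine (Finset.sum_le_card_nsmul _ _ _ h1).trans ?_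
    rw [nsmul_eq_mul, hcard]
  have hXn := hXY x hx
  have hYn := hXY y hy
  have hblock : ∀ (w : ℝ → ℂ) (z : ℤ → ℂ) (Z : ℂ),
      (Z = ∑ m ∈ Finset.Ico m0 (m0 + N), g m * z m) →
      ∑ m ∈ Finset.Ico m0 (m0 + N), g m * ((∑ j ∈ Finset.Icc (-(J : ℤ)) J,
        w (β + h * (m + ε) + 2 * Real.pi * j)) + z m) = 0 →
      ∑ m ∈ Finset.Ico a m1, g' m * w (η m) + Z = 0 := by
    intro w z Z hZ h0
    rw [← h0, hadef, hm1def, sum_blocks, hZ, ← Finset.sum_add_distrib]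
    refine Finset.sum_congr rfl fun m hm => ?_
    rw [mul_add, Finset.mul_sum]
    congr 1
    refine Finset.sum_congr rfl fun j _ => ?_
    rw [hg'1 m hm, hηj]
  have hT0 := hblock tt x X hX hsT
  have hH0 := hblock hh y Y hY hsH
  -- the data for `comb`
  set T : ℤ → ℂ := fun m => if m < m1 then g' m * tt (η m) else X with hTdef
  set D : ℤ → ℂ := fun m => if m < m1 then g' m * (k * tt (η m) - hh (η m) / t)
    else k * X - Y / t with hDdef
  set q : ℤ → ℂ := fun m => hh (η m) / tt (η m) with hqdef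
  set Mm : ℤ → ℂ := fun m => k - q m / t with hMdef
  have hT1 : ∀ m, m ≤ b → T m = g' m * tt (η m) := by
    intro m hm
    simp only [hTdef]
    rw [if_pos (by omega)]
  have hD1 : ∀ m, m ≤ b → D m = g' m * (k * tt (η m) - hh (η m) / t) := by
    intro m hm
    simp only [hDdef]
    rw [if_pos (by omega)]
  have hT2 : T m1 = X := by simp only [hTdef]; rw [if_neg (lt_irrefl _)]
  have hD2 : D m1 = k * X - Y / t := by simp only [hDdef]; rw [if_neg (lt_irrefl _)]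
  have htpos : ∀ m, a ≤ m → m ≤ b → 0 < ‖tt (η m)‖ := by
    intro m h1 h2
    refine lt_of_lt_of_le ?_ (hc _ (hηR m h1 h2)).1
    have : 0 < 1 - δ := by linarith
    positivity
  have hTn : ∀ m, m ≤ b → ‖T m‖ = g0 * ‖tt (η m)‖ := fun m hm => by
    rw [hT1 m hm, norm_mul, hg'n]
  have htn : 0 < ‖t‖ := norm_pos_iff.2 ht
  have hq : ∀ m, a ≤ m → m ≤ b → ‖q m + η m * I‖ ≤ δ := by
    intro m h1 h2
    have h3 := htpos m h1 h2
    have h4 : tt (η m) ≠ 0 := norm_pos_iff.1 h3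
    have h5 : q m + η m * I = (hh (η m) + η m * I * tt (η m)) / tt (η m) := by
      simp only [hqdef]
      field_simp
    rw [h5, norm_div, div_le_iff₀ h3]
    exact (hc _ (hηR m h1 h2)).2.2
  have hsplit : ∀ G : ℤ → ℂ, ∑ m ∈ Finset.Ico a (m1 + 1), G m =
      ∑ m ∈ Finset.Ico a m1, G m + G m1 := by
    intro G
    have ham1 : a ≤ m1 := by
      rw [hadef, hm1def]
      have : (0 : ℤ) ≤ J * N := by positivity
      have : (0 : ℤ) ≤ (J + 1) * N := by positivity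
      linarith
    have e : Finset.Ico a (m1 + 1) = insert m1 (Finset.Ico a m1) := by
      ext z
      simp only [Finset.mem_Ico, Finset.mem_insert]
      omega
    rw [e, Finset.sum_insert (by simp), add_comm]
  have hsumT : ∑ m ∈ Finset.Ico a (m1 + 1), T m = 0 := by
    rw [hsplit, hT2, ← hT0]
    congr 1
    refine Finset.sum_congr rfl fun m hm => ?_
    rw [Finset.mem_Ico] at hm
    exact hT1 m (by omega)
  have hsumD : ∑ m ∈ Finset.Ico a (m1 + 1), D m = 0 := by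
    rw [hsplit, hD2]
    have e : ∑ m ∈ Finset.Ico a m1, D m = k * (∑ m ∈ Finset.Ico a m1, g' m * tt (η m)) -
        (∑ m ∈ Finset.Ico a m1, g' m * hh (η m)) / t := by
      rw [Finset.mul_sum, Finset.sum_div, ← Finset.sum_sub_distrib]
      refine Finset.sum_congr rfl fun m hm => ?_
      rw [Finset.mem_Ico] at hm
      rw [hD1 m (by omega)]
      ring
    rw [e]
    have e1 : ∑ m ∈ Finset.Ico a m1, g' m * tt (η m) = -X := by linear_combination hT0
    have e2 : ∑ m ∈ Finset.Ico a m1, g' m * hh (η m) = -Y := by linear_combination hH0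
    rw [e1, e2]
    ring
  -- the centre
  obtain ⟨mc, hmc⟩ : ∃ mc : ℤ, |η mc| ≤ h / 2 := by
    refine ⟨round (-β / h - ε), ?_⟩
    have h1 := abs_sub_round (-β / h - ε)
    have h2 : η (round (-β / h - ε)) = -(h * ((-β / h - ε) - round (-β / h - ε))) := by
      simp only [hηdef]
      field_simp
      ring
    rw [h2, abs_neg, abs_mul, abs_of_pos hhpos]
    nlinarith
  have hmcab := hηin mc (by linarith)
  obtain ⟨μ, hμmem, hμ⟩ := Finset.exists_max_image (Finset.Icc a b) (fun m => ‖T m‖)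
    ⟨mc, Finset.mem_Icc.2 ⟨hmcab.1.le, hmcab.2.le⟩⟩
  rw [Finset.mem_Icc] at hμmem
  have hTmc : g0 * ((1 - δ) * s0 * Real.exp (-(u * (h ^ 2 / 8 + δ)))) ≤ ‖T mc‖ := by
    rw [hTn mc hmcab.2.le]
    refine mul_le_mul_of_nonneg_left ?_ hg0.le
    refine le_trans ?_ (hc _ (hηR mc hmcab.1.le hmcab.2.le)).1
    have h1 : (η mc) ^ 2 ≤ (h / 2) ^ 2 := sq_le_sq' (by linarith [(abs_le.1 hmc).1]) (abs_le.1 hmc).2
    have h2 : -(u * (h ^ 2 / 8 + δ)) ≤ -(u * ((η mc) ^ 2 / 2 + δ)) := by nlinarith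
    have h3 : 0 ≤ (1 - δ) * s0 := by
      have : 0 ≤ 1 - δ := by linarith
      positivity
    exact mul_le_mul_of_nonneg_left (Real.exp_le_exp.2 h2) h3
  have hTμ : g0 * ((1 - δ) * s0 * Real.exp (-(u * (h ^ 2 / 8 + δ)))) ≤ ‖T μ‖ :=
    hTmc.trans (hμ mc (Finset.mem_Icc.2 ⟨hmcab.1.le, hmcab.2.le⟩))
  have hTμpos : 0 < ‖T μ‖ := by
    refine lt_of_lt_of_le ?_ hTμ
    have : 0 < 1 - δ := by linarith
    positivity
  have huh : 31 / 10 ≤ h ^ 2 * u := by
    have := Real.pi_gt_d4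
    nlinarith
  have huδ : u * δ = (h ^ 2 * u) / 100000 := by rw [hδ]; ring
  -- `|η μ| < 2h`
  have hμη : |η μ| < 2 * h := by
    by_contra hcon
    push Not at hcon
    have h1 := (hc _ (hηR μ hμmem.1 hμmem.2)).2.1
    have h2 : Real.exp (-(u * ((η μ) ^ 2 / 2 - δ))) ≤ Real.exp (-(u * (2 * h ^ 2 - δ))) := by
      apply Real.exp_le_exp.2
      have h3 : (2 * h) ^ 2 ≤ (η μ) ^ 2 := by
        rw [← sq_abs (η μ)]
        gcongr
      nlinarith
    have h3 : ‖T μ‖ ≤ g0 * ((1 + δ) * s0 * Real.exp (-(u * (2 * h ^ 2 - δ)))) := by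
      rw [hTn μ hμmem.2]
      refine mul_le_mul_of_nonneg_left (h1.trans ?_) hg0.le
      gcongr
    have h4 := hTμ.trans h3
    have h5 : (1 - δ) * Real.exp (-(u * (h ^ 2 / 8 + δ))) ≤
        (1 + δ) * Real.exp (-(u * (2 * h ^ 2 - δ))) := by
      have h6 : (g0 * s0) * ((1 - δ) * Real.exp (-(u * (h ^ 2 / 8 + δ)))) ≤
        (g0 * s0) * ((1 + δ) * Real.exp (-(u * (2 * h ^ 2 - δ)))) := by
        calc _ = g0 * ((1 - δ) * s0 * Real.exp (-(u * (h ^ 2 / 8 + δ)))) := by ring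
          _ ≤ _ := h4
          _ = _ := by ring
      exact le_of_mul_le_mul_left h6 (by positivity)
    have h6 : Real.exp (-(u * (2 * h ^ 2 - δ))) =
        Real.exp (-(u * (h ^ 2 / 8 + δ))) * Real.exp (-(u * (15 / 8 * h ^ 2 - 2 * δ))) := by
      rw [← Real.exp_add]; congr 1; ring
    have h7 : Real.exp (-(u * (15 / 8 * h ^ 2 - 2 * δ))) ≤ Real.exp (-(31 / 10)) := by
      apply Real.exp_le_exp.2
      have : u * (15 / 8 * h ^ 2 - 2 * δ) = 15 / 8 * (h ^ 2 * u) - 2 * (u * δ) := by ring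
      rw [this, huδ]
      linarith
    have h8 := exp_31
    rw [h6] at h5
    have h9 := Real.exp_pos (-(u * (h ^ 2 / 8 + δ)))
    have h10 : (1 + δ) * (Real.exp (-(u * (h ^ 2 / 8 + δ))) *
        Real.exp (-(u * (15 / 8 * h ^ 2 - 2 * δ)))) ≤
        (1 + δ) * (Real.exp (-(u * (h ^ 2 / 8 + δ))) * (1 / 22)) := by
      gcongr; linarith
    nlinarith
  have hμη' := abs_lt.1 hμη
  obtain ⟨haμ, hμb⟩ := hηin μ (by linarith)
  have hlam : 0 < h / ‖t‖ := by positivity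
  have hMd : ∀ m m', a ≤ m → m ≤ b → a ≤ m' → m' ≤ b →
      ‖(Mm m - Mm m') * t - (η m - η m') * I‖ ≤ 2 * δ := by
    intro m m' h1 h2 h3 h4
    have e : (Mm m - Mm m') * t - (η m - η m') * I = (q m' + η m' * I) - (q m + η m * I) := by
      simp only [hMdef]
      field_simp
      ring
    rw [e]
    refine (norm_sub_le _ _).trans ?_
    linarith [hq m h1 h2, hq m' h3 h4]
  have hnI : ∀ m m' : ℤ, ‖((η m : ℂ) - η m') * I‖ = h * |(m : ℝ) - m'| := by
    intro m m'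
    rw [norm_mul, Complex.norm_I, mul_one, ← Complex.ofReal_sub, Complex.norm_real,
      Real.norm_eq_abs, hηdiff, abs_mul, abs_of_pos hhpos]
  refine comb (a := a) (b := b) (m0 := a) (m1 := m1 + 1) (μ := μ) (T := T) (D := D)
    (M := Mm) hlam le_rfl (by omega) haμ hμb
    (fun m h1 h2 => hμ m (Finset.mem_Icc.2 ⟨h1, h2⟩)) ?_ ?_ ?_ ?_ ?_ ?_ hsumT hsumD
  · intro m h1 h2 h3
    have h4 := htpos m h1 h2
    have h5 : 0 < ‖T m‖ := by
      rw [hTn m h2]
      positivity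
    rw [h3, norm_zero] at h5
    exact lt_irrefl _ h5
  · intro m h1 h2
    have h4 : tt (η m) ≠ 0 := norm_pos_iff.1 (htpos m h1 h2)
    rw [hD1 m h2, hT1 m h2]
    simp only [hMdef, hqdef]
    field_simp
  · intro m h1 h2
    have k1 := (hc _ (hηR (m + 1) (by omega) (by omega))).2.1
    have k2 := (hc _ (hηR (m - 1) (by omega) (by omega))).2.1
    have k3 := (hc _ (hηR m (by omega) (by omega))).1
    rw [hTn (m + 1) (by omega), hTn (m - 1) (by omega), hTn m (by omega)]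
    rw [hηsucc] at k1 ⊢
    rw [hηpred] at k2 ⊢
    set e := η m with he
    set X1 := Real.exp (-(u * (e ^ 2 / 2 + δ))) with hX1
    have k4 : ‖tt (e + h)‖ * ‖tt (e - h)‖ ≤ ((1 + δ) * s0 * Real.exp (-(u * ((e + h) ^ 2 / 2 - δ)))) *
        ((1 + δ) * s0 * Real.exp (-(u * ((e - h) ^ 2 / 2 - δ)))) :=
      mul_le_mul k1 k2 (norm_nonneg _) (by positivity)
    have k5 : ((1 + δ) * s0 * Real.exp (-(u * ((e + h) ^ 2 / 2 - δ)))) *
        ((1 + δ) * s0 * Real.exp (-(u * ((e - h) ^ 2 / 2 - δ)))) =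
        ((1 + δ) * s0) ^ 2 * (X1 ^ 2 * Real.exp (-(h ^ 2 * u - 4 * (u * δ)))) := by
      rw [hX1, ← Real.exp_nat_mul, ← Real.exp_add]
      have : Real.exp (-(u * ((e + h) ^ 2 / 2 - δ))) * Real.exp (-(u * ((e - h) ^ 2 / 2 - δ))) =
        Real.exp (((2 : ℕ) : ℝ) * -(u * (e ^ 2 / 2 + δ)) + -(h ^ 2 * u - 4 * (u * δ))) := by
        rw [← Real.exp_add]; congr 1; push_cast; ring
      rw [← this]
      ring
    have k6 : Real.exp (-(h ^ 2 * u - 4 * (u * δ))) ≤ 1 / 22 * (101 / 100) := by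
      have h5 : -(h ^ 2 * u - 4 * (u * δ)) ≤ -(31 / 10) := by
        rw [huδ]
        have := Real.pi_gt_d4
        nlinarith
      refine (Real.exp_le_exp.2 h5).trans (exp_31.trans (by norm_num))
    have k7 : ((1 - δ) * s0 * X1) ^ 2 ≤ ‖tt e‖ ^ 2 := by
      have : 0 ≤ (1 - δ) * s0 * X1 := by
        have : 0 ≤ 1 - δ := by linarith
        positivity
      gcongr
    have k8 : (1 + δ) ^ 2 * (1 / 22 * (101 / 100)) ≤ 1 / 20 * (1 - δ) ^ 2 := by nlinarith
    have k9 : ‖tt (e + h)‖ * ‖tt (e - h)‖ ≤ 1 / 20 * ‖tt e‖ ^ 2 := by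
      refine k4.trans ?_
      rw [k5]
      calc ((1 + δ) * s0) ^ 2 * (X1 ^ 2 * Real.exp (-(h ^ 2 * u - 4 * (u * δ))))
          ≤ ((1 + δ) * s0) ^ 2 * (X1 ^ 2 * (1 / 22 * (101 / 100))) := by gcongr
        _ = (s0 * X1) ^ 2 * ((1 + δ) ^ 2 * (1 / 22 * (101 / 100))) := by ring
        _ ≤ (s0 * X1) ^ 2 * (1 / 20 * (1 - δ) ^ 2) := by gcongr
        _ = 1 / 20 * ((1 - δ) * s0 * X1) ^ 2 := by ring
        _ ≤ _ := by gcongr
    calc g0 * ‖tt (e + h)‖ * (g0 * ‖tt (e - h)‖) = g0 ^ 2 * (‖tt (e + h)‖ * ‖tt (e - h)‖) := by ring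
      _ ≤ g0 ^ 2 * (1 / 20 * ‖tt e‖ ^ 2) := by gcongr
      _ = _ := by ring
  · intro m m' h1 h2 h3 h4 hne
    have h5 := hMd m m' h1 h2 h3 h4
    have h6 : ‖(Mm m - Mm m') * t‖ ≤ h * |(m : ℝ) - m'| + 2 * δ := by
      have e : (Mm m - Mm m') * t = ((Mm m - Mm m') * t - (η m - η m') * I) + (η m - η m') * I := by
        ring
      rw [e]
      refine (norm_add_le _ _).trans ?_
      rw [hnI]
      linarith
    rw [norm_mul] at h6
    have h7 : (1 : ℝ) ≤ |(m : ℝ) - m'| := by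
      have : (1 : ℤ) ≤ |m - m'| := Int.one_le_abs (sub_ne_zero.2 hne)
      exact_mod_cast this
    rw [mul_div_assoc', le_div_iff₀ htn]
    refine h6.trans ?_
    nlinarith
  · intro m h1 h2
    have h5 := hMd (m + 1) m (by omega) h2 h1 (by omega)
    have h6 : h - 2 * δ ≤ ‖(Mm (m + 1) - Mm m) * t‖ := by
      have h7 := hnI (m + 1) m
      have h8 : |(((m + 1 : ℤ) : ℝ)) - m| = 1 := by push_cast; simp
      rw [h8, mul_one] at h7
      have e : ((η (m + 1) : ℂ) - η m) * I = (Mm (m + 1) - Mm m) * t -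
        ((Mm (m + 1) - Mm m) * t - (η (m + 1) - η m) * I) := by ring
      rw [e] at h7
      have := norm_sub_le ((Mm (m + 1) - Mm m) * t)
        ((Mm (m + 1) - Mm m) * t - (η (m + 1) - η m) * I)
      linarith
    rw [norm_mul] at h6
    rw [mul_div_assoc', div_le_iff₀ htn]
    refine le_trans ?_ h6
    linarith
  · intro ν h1 h2
    have e : (Finset.Ico a (m1 + 1)).filter (fun m => ¬ (a ≤ m ∧ m ≤ b)) = {m1} := by
      ext z
      simp only [Finset.mem_filter, Finset.mem_Ico, Finset.mem_singleton]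
      constructor
      · rintro ⟨⟨i1, i2⟩, i3⟩
        omega
      · rintro rfl
        refine ⟨⟨?_, by omega⟩, by omega⟩
        omega
    rw [e, Finset.sum_singleton, hD2, hT2]
    have e1 : k * X - Y / t - Mm ν * X = (q ν * X - Y) / t := by
      simp only [hMdef]
      field_simp
      ring
    rw [e1, norm_div, div_le_iff₀ htn]
    have k1 : ‖q ν‖ ≤ (2 * J + 1) * Real.pi + δ := by
      have e2 : q ν = (q ν + η ν * I) - η ν * I := by ring
      rw [e2]
      refine (norm_sub_le _ _).trans ?_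
      rw [norm_mul, Complex.norm_I, mul_one, Complex.norm_real, Real.norm_eq_abs]
      linarith [hq ν h1 h2, hηR ν h1 h2]
    have k2 : ‖q ν * X - Y‖ ≤ ((2 * J + 1) * Real.pi + δ + 1) * (N * (g0 * (τ / (J + 1)))) := by
      refine (norm_sub_le _ _).trans ?_
      rw [norm_mul]
      have := mul_le_mul k1 hXn (norm_nonneg _) (by positivity)
      linarith
    have k3 : ((2 * J + 1) * Real.pi + δ + 1) * (N * (g0 * (τ / (J + 1)))) ≤ 8 * N * g0 * τ := by
      have k4 : (2 * J + 1) * Real.pi + δ + 1 ≤ 8 * (J + 1) := by nlinarith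
      calc ((2 * J + 1) * Real.pi + δ + 1) * (N * (g0 * (τ / (J + 1)))) ≤
          (8 * (J + 1)) * (N * (g0 * (τ / (J + 1)))) := by gcongr
        _ = _ := by field_simp
    refine k2.trans (k3.trans ?_)
    have k5 : 1 / 10 * (h / ‖t‖) * ‖T μ‖ * ‖t‖ = 1 / 10 * h * ‖T μ‖ := by field_simp
    rw [k5]
    have k6 : 8 * N * g0 * τ = 8 / 100 * h * (g0 * (s0 * Real.exp (-(u * (h ^ 2 / 8 + δ))))) := by
      rw [hτ]; field_simp
    rw [k6]
    have k7 : 9 / 10 * (g0 * (s0 * Real.exp (-(u * (h ^ 2 / 8 + δ))))) ≤ ‖T μ‖ := by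
      refine le_trans ?_ hTμ
      have k8 : 0 ≤ g0 * (s0 * Real.exp (-(u * (h ^ 2 / 8 + δ)))) := by positivity
      nlinarith
    nlinarith

end SokalW
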