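import Pool.Agent.Lib_MP_af4de1_u.Core
import Pool.Agent.Lib_MP_af4de1_u.FContour
import Pool.Agent.Lib_MP_af4de1_u.OuterInt

/-!
# The regime `|t| k → ∞` (all orders `N ≥ 1`): definitions

Plan.  `f t k ξ h = exp(h²/(2t) + k(e^{ξ+h} - 1 - h))` is the integrand of the Gaussian representation
`E t (zp t k e^{iη}) √(2πt) e^{-S t k} = ∫_ℝ f t k (iη) (i(s-η)) ds`.  The integral over the window
`|s - 2πj| ≤ π` is `TT t k (η - 2πj)`.  With `W = 1/(tk)` small, `U = k (Re W + (Im W)²)`: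
for `|η| ≤ R` (`R` any fixed number) `|TT t k η| = √(2π/k) e^{-U(η²/2 + o(1))} (1+o(1))` and `HH = (-iη + o(1)) TT`
(`HH` is the window integral with the weight `h`).  The windows with `|η| > 60` are together at most
`e^{-400 U}/√k`.  So all lifts of all sheets are independent Gaussian waves and `SokalU.comb` applies.
-/

namespace SokalW

open Complex SokalU

/-- Approximate value of `1/V` for `|t| k` large. -/
noncomputable def U (k : ℝ) (t : ℂ) : ℝ := (t⁻¹).re + (t⁻¹).im ^ 2 / k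

/-- One window of the Gaussian integral. -/
noncomputable def TT (t : ℂ) (k η : ℝ) : ℂ :=
  ∫ s in (-Real.pi)..Real.pi, f t k (η * I) ((s - η) * I)

/-- One window of the Gaussian integral with the weight `h`. -/
noncomputable def HH (t : ℂ) (k η : ℝ) : ℂ :=
  ∫ s in (-Real.pi)..Real.pi, ((s - η) * I) * f t k (η * I) ((s - η) * I)

/-- The regime. -/
structure Reg (ε k : ℝ) (t : ℂ) : Prop where
  eps : 0 < ε
  re : 0 ≤ t.re
  im : t.im ≤ 0
  hk : ε⁻¹ ≤ k
  ht : ‖t⁻¹‖ ≤ ε * k
  hU : 6 / 100 ≤ U k t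

namespace Reg

variable {ε k : ℝ} {t : ℂ}

theorem k_pos (h : Reg ε k t) : 0 < k := (inv_pos.2 h.eps).trans_le h.hk

theorem t_ne (h : Reg ε k t) : t ≠ 0 := by
  rintro rfl
  have := h.hU
  unfold U at this
  simp at this
  norm_num at this

theorem inv_re (h : Reg ε k t) : 0 ≤ (t⁻¹).re := by
  rw [Complex.inv_re]
  exact div_nonneg h.re (Complex.normSq_nonneg _)

theorem inv_im (h : Reg ε k t) : 0 ≤ (t⁻¹).im := by
  rw [Complex.inv_im]
  exact div_nonneg (by linarith [h.im]) (Complex.normSq_nonneg _)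

theorem inv_re_le (h : Reg ε k t) : (t⁻¹).re ≤ ε * k := (Complex.re_le_norm _).trans h.ht

theorem inv_im_le (h : Reg ε k t) : (t⁻¹).im ≤ ε * k :=
  ((le_abs_self _).trans (Complex.abs_im_le_norm _)).trans h.ht

theorem mono (h : Reg ε k t) {ε' : ℝ} (h' : ε ≤ ε') : Reg ε' k t where
  eps := h.eps.trans_le h'
  re := h.re
  im := h.im
  hk := (inv_anti₀ h.eps h').trans h.hk
  ht := h.ht.trans (mul_le_mul_of_nonneg_right h' h.k_pos.le)
  hU := h.hU

end Reg

end SokalW
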