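import Pool.Agent.Lib_MP_af4de1.Basic

/-!
# Open sectors from finiteness and good rays
-/

namespace SokalW

open Complex

/-- If there are only finitely many multiple zeros and none on the ray through `w`, then there is an open
sector around this ray without multiple zeros. -/
theorem sector_of_finite
    (hfin : {p : ℂ × ℂ | 0 < ‖p.1‖ ∧ ‖p.1‖ ≤ 1 ∧ SokalF.F p.1 p.2 = 0 ∧
      deriv (SokalF.F p.1) p.2 = 0}.Finite) {w : ℂ}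
    (hgood : ∀ ρ : ℝ, 0 < ρ → ρ ≤ 1 → ∀ z, SokalF.F (ρ * w) z = 0 →
      deriv (SokalF.F (ρ * w)) z ≠ 0) :
    ∃ ε : ℝ, 0 < ε ∧ ∀ q : ℂ, 0 < ‖q‖ → ‖q‖ ≤ 1 → ‖q / ‖q‖ - w‖ < ε →
      ∀ z, SokalF.F q z = 0 → deriv (SokalF.F q) z ≠ 0 := by
  set Q : Set ℂ := (fun p : ℂ × ℂ => p.1 / (‖p.1‖ : ℂ)) ''
    {p : ℂ × ℂ | 0 < ‖p.1‖ ∧ ‖p.1‖ ≤ 1 ∧ SokalF.F p.1 p.2 = 0 ∧
      deriv (SokalF.F p.1) p.2 = 0} with hQ
  have hQf : Q.Finite := hfin.image _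
  have hw : w ∈ Qᶜ := by
    rintro ⟨p, ⟨h1, h2, h3, h4⟩, h5⟩
    have h5' : p.1 / (‖p.1‖ : ℂ) = w := h5
    have hne : ((‖p.1‖ : ℝ) : ℂ) ≠ 0 := by
      rw [Ne, Complex.ofReal_eq_zero]; exact h1.ne'
    have h6 : p.1 = (‖p.1‖ : ℂ) * w := by
      rw [← h5', mul_div_cancel₀ _ hne]
    have h7 := hgood ‖p.1‖ h1 h2 p.2 (by rw [← h6]; exact h3)
    rw [← h6] at h7
    exact h7 h4
  obtain ⟨ε, hε, hball⟩ := Metric.isOpen_iff.1 hQf.isClosed.isOpen_compl w hw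
  refine ⟨ε, hε, fun q hq0 hq1 hqw z hz hz' => ?_⟩
  have h1 : q / (‖q‖ : ℂ) ∈ Metric.ball w ε := by
    rw [Metric.mem_ball, dist_eq_norm]; exact hqw
  exact hball h1 ⟨(q, z), ⟨hq0, hq1, hz, hz'⟩, rfl⟩

end SokalW
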