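import Pool.Agent.Lib_MP_af4de1_w.Cont
import Pool.Agent.Lib_MP_af4de1_w.Defs

/-!
# The tails of the Gaussian integral, `Re t > 0` [AW-08]

`L = (2J+1)π`, `A = Re(t⁻¹)/k`, `B = Im(t⁻¹)/k`, both in `[0, ε]`, `U k t = k(A + B²) ≤ 2εk`.  Substitute `σ = s - η`; the tail on the
right is `∫_{Ioi b} g(σI) dσ`, `b = L - η ≥ σ0 := 6J`, `g(h) = f t k (iη) h` (resp. `h f t k (iη) h`).  Shift it (`ray_shift`, this
needs `Re t > 0`: copy the private lemma `fc_dom` of `Lib_MP_af4de1_u/FContour.lean` for the majorant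
`G y = M e^{-b' y²}`) to `h = α + σI`, `α = Bσ0/2 ≤ 1/10`:
`‖f t k (iη)(α + σI)‖ = exp(k[A(α² - σ²)/2 - αBσ + (e^α - 1 - α) - e^α(1 - cos(σ+η))])` (formula `norm_f_eq` in
`Lib_MP_af4de1_u/PathO.lean`, private, copy it), `e^α - 1 - α ≤ α²`,
`-αBσ + α² = -B²σ0σ/2 + B²σ0²/4 ≤ -B²σ0σ/4` for `σ ≥ σ0`, `A(α² - σ²)/2 ≤ -Aσ0σ/4`; so the norm is at most
`exp(-ϱσ) exp(-(9/10)k(1 - cos(σ+η)))`, `ϱ = U σ0/4 ≥ 1` (`J ≥ 12`), and `‖h‖ ≤ 1 + σ`: `SokalU.outer_int` gives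
`≤ C e^{-ϱb/2}/√k ≤ C e^{-U σ0²/8}/√k`, and `C e^{-U(σ0²/8 - M)} ≤ δ/(4(J+1))` for `J` large (`U ≥ 6/100`).
Horizontal segment at `σ = b` (`b + η = L`, `cos L = -1`), `|x| ≤ α`: norm at most
`exp(k[A x²/2 - xBb + (e^x - 1 - x) - 2e^x]) ≤ e^{-3k/2}` for `ε` small (`b ≤ L + 4`), times `(1+b)`, and
`α (1+b) e^{-3k/2} ≤ (δ/(4(J+1))) e^{-MU}/√k` (`ε` depends on `J`) since `MU ≤ 2εMk ≤ k/4`, `k ≥ 1/ε`.
Left tail: `∫_{Iic (-L)}`, `σ = s - η ≤ -L - η = -b`, `b ≥ σ0`; `ray_shift'` with `α = -Bσ0/2`, the same bounds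
(`e^{-|α|} ≥ 9/10`), then `s → -s` in `outer_int` (with `-η`).
The integral over `ℝ` is `∫_{Iic (-L)} + ∫_{-L}^{L} + ∫_{Ioi L}` (integrable: `SokalU.f_strip_integrable` with `x = 0`).
-/

namespace SokalW

open Complex SokalU MeasureTheory Filter Topology

private theorem tp_norm_le {t κ ξ : ℂ} (ht : 0 < t.re) {x y : ℝ} (hx : |x| ≤ 1) :
    ‖f t κ ξ (x + y * I)‖ ≤ Real.exp ((t⁻¹).re / 2 + ‖κ‖ * (Real.exp (ξ.re + 1) + 2)) *
      Real.exp (-((t⁻¹).re / 2 * y ^ 2) + (|(t⁻¹).im| + ‖κ‖) * |y|) := by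
  have hA := inv_re_pos ht
  have hx1 := (abs_le.1 hx).1
  have hx2 := (abs_le.1 hx).2
  unfold f
  rw [Complex.norm_exp, ← Real.exp_add]
  apply Real.exp_le_exp.2
  rw [Complex.add_re]
  have h1 : (((x : ℂ) + y * I) ^ 2 / (2 * t)).re =
      ((x ^ 2 - y ^ 2) * (t⁻¹).re - 2 * x * y * (t⁻¹).im) / 2 := by
    have h2 : ((x : ℂ) + y * I) ^ 2 / (2 * t) =
        (((x ^ 2 - y ^ 2 : ℝ) : ℂ) + ((2 * x * y : ℝ) : ℂ) * I) * t⁻¹ * ((1 / 2 : ℝ) : ℂ) := by
      have h3 : ((x : ℂ) + y * I) ^ 2 = (x : ℂ) ^ 2 - (y : ℂ) ^ 2 + 2 * x * y * I := by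
        have := Complex.I_sq
        linear_combination (y : ℂ) ^ 2 * this
      rw [h3, div_eq_mul_inv, mul_inv]
      push_cast
      ring
    rw [h2, Complex.re_mul_ofReal, Complex.mul_re]
    simp only [Complex.add_re, Complex.add_im, Complex.ofReal_re, Complex.ofReal_im,
      Complex.mul_re, Complex.mul_im, Complex.I_re, Complex.I_im]
    ring
  have h4 : (κ * (cexp (ξ + (x + y * I)) - 1 - (x + y * I))).re ≤
      ‖κ‖ * (Real.exp (ξ.re + 1) + 2 + |y|) := by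
    refine (Complex.re_le_norm _).trans ?_
    rw [norm_mul]
    refine mul_le_mul_of_nonneg_left ?_ (norm_nonneg _)
    have h5 : ‖cexp (ξ + (x + y * I))‖ ≤ Real.exp (ξ.re + 1) := by
      rw [Complex.norm_exp]
      apply Real.exp_le_exp.2
      simp only [Complex.add_re, Complex.ofReal_re, Complex.mul_re, Complex.ofReal_im,
        Complex.I_re, Complex.I_im]
      linarith
    have h6 : ‖(x : ℂ) + y * I‖ ≤ 1 + |y| := by
      refine (norm_add_le _ _).trans ?_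
      rw [norm_mul, Complex.norm_I, mul_one, Complex.norm_real, Complex.norm_real,
        Real.norm_eq_abs, Real.norm_eq_abs]
      linarith
    calc ‖cexp (ξ + (x + y * I)) - 1 - (x + y * I)‖
        ≤ ‖cexp (ξ + (x + y * I)) - 1‖ + ‖(x : ℂ) + y * I‖ := norm_sub_le _ _
      _ ≤ (‖cexp (ξ + (x + y * I))‖ + ‖(1 : ℂ)‖) + ‖(x : ℂ) + y * I‖ := by
          gcongr
          exact norm_sub_le _ _
      _ ≤ Real.exp (ξ.re + 1) + 2 + |y| := by
          rw [norm_one]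
          linarith
  have h7 : -(2 * x * y * (t⁻¹).im) ≤ 2 * (|(t⁻¹).im| * |y|) := by
    have h8 : |x * (y * (t⁻¹).im)| ≤ 1 * (|(t⁻¹).im| * |y|) := by
      rw [abs_mul, abs_mul, mul_comm |y|]
      exact mul_le_mul_of_nonneg_right hx (by positivity)
    have h9 := neg_abs_le (x * (y * (t⁻¹).im))
    nlinarith
  have h10 : x ^ 2 ≤ 1 := by nlinarith
  have h11 : x ^ 2 * (t⁻¹).re ≤ (t⁻¹).re := by nlinarith
  rw [h1]
  nlinarith

private theorem tp_dom {t : ℂ} (κ ξ : ℂ) (ht : 0 < t.re) : ∃ M b : ℝ, 0 ≤ M ∧ 0 < b ∧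
    ∀ x y : ℝ, |x| ≤ 1 → (1 + |y|) ^ 2 * ‖f t κ ξ (x + y * I)‖ ≤ M * Real.exp (-b * y ^ 2) := by
  have hA := inv_re_pos ht
  set A := (t⁻¹).re with hAdef
  set C := |(t⁻¹).im| + ‖κ‖ with hC
  have hC0 : 0 ≤ C := by positivity
  set K0 := Real.exp (A / 2 + ‖κ‖ * (Real.exp (ξ.re + 1) + 2)) with hK0
  refine ⟨(2 * (1 + 8 / A)) * (K0 * Real.exp (C ^ 2 / A)), A / 8, by positivity, by positivity,
    fun x y hx => ?_⟩
  have h1 := tp_norm_le (κ := κ) (ξ := ξ) ht (y := y) hx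
  rw [← hAdef, ← hC, ← hK0] at h1
  -- the linear term is absorbed
  have h2 : -(A / 2 * y ^ 2) + C * |y| ≤ C ^ 2 / A + -(A / 8) * y ^ 2 + -(A / 8 * y ^ 2) := by
    have h3 : 0 ≤ (A * |y| / 2 - C) ^ 2 / A := by positivity
    have h4 : (A * |y| / 2 - C) ^ 2 / A = A / 4 * |y| ^ 2 - C * |y| + C ^ 2 / A := by
      field_simp
      ring
    rw [h4, sq_abs] at h3
    linarith
  have h5 : (1 + |y|) ^ 2 ≤ (2 * (1 + 8 / A)) * Real.exp (A / 8 * y ^ 2) := by
    have h6 : A / 8 * y ^ 2 + 1 ≤ Real.exp (A / 8 * y ^ 2) := Real.add_one_le_exp _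
    have h7 : (1 + |y|) ^ 2 ≤ 2 * (1 + y ^ 2) := by
      have := sq_nonneg (1 - |y|)
      have h8 := sq_abs y
      nlinarith
    have h9 : 1 + y ^ 2 ≤ (1 + 8 / A) * (A / 8 * y ^ 2 + 1) := by
      have h10 : (1 + 8 / A) * (A / 8 * y ^ 2 + 1) = (1 + y ^ 2) + (A / 8 * y ^ 2 + 8 / A) := by
        field_simp
        ring
      rw [h10]
      have : 0 ≤ A / 8 * y ^ 2 + 8 / A := by positivity
      linarith
    calc (1 + |y|) ^ 2 ≤ 2 * (1 + y ^ 2) := h7
      _ ≤ 2 * ((1 + 8 / A) * (A / 8 * y ^ 2 + 1)) := by gcongr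
      _ ≤ 2 * ((1 + 8 / A) * Real.exp (A / 8 * y ^ 2)) := by gcongr
      _ = _ := by ring
  calc (1 + |y|) ^ 2 * ‖f t κ ξ (x + y * I)‖
      ≤ ((2 * (1 + 8 / A)) * Real.exp (A / 8 * y ^ 2)) *
        (K0 * Real.exp (C ^ 2 / A + -(A / 8) * y ^ 2 + -(A / 8 * y ^ 2))) := by
        refine mul_le_mul h5 (h1.trans ?_) (norm_nonneg _) (by positivity)
        gcongr
    _ = _ := by
        rw [Real.exp_add, Real.exp_add, Real.exp_neg (A / 8 * y ^ 2)]
        field_simp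

private theorem tp_differentiable (t κ ξ : ℂ) : Differentiable ℂ (f t κ ξ) := by
  unfold f
  fun_prop

/-- The real part of the exponent at `h = a + is`. -/
private theorem tp_norm_f_eq (t : ℂ) (k η a s : ℝ) :
    ‖f t k (η * I) ((a : ℂ) + s * I)‖ =
      Real.exp (((a ^ 2 - s ^ 2) * (t⁻¹).re - 2 * (a * s) * (t⁻¹).im) / 2 +
        k * (Real.exp a - 1 - a) - k * Real.exp a * (1 - Real.cos (s + η))) := by
  unfold f
  rw [Complex.norm_exp]
  congr 1
  have h1 : ((a : ℂ) + s * I) ^ 2 / (2 * t) =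
      (((a ^ 2 - s ^ 2 : ℝ) : ℂ) + ((2 * (a * s) : ℝ) : ℂ) * I) * t⁻¹ / 2 := by
    rw [div_eq_mul_inv, mul_inv]
    have h2 : ((a : ℂ) + s * I) ^ 2 = ((a ^ 2 - s ^ 2 : ℝ) : ℂ) + ((2 * (a * s) : ℝ) : ℂ) * I := by
      push_cast
      linear_combination (s : ℂ) ^ 2 * I_sq
    rw [h2]
    ring
  have h3 : (η * I : ℂ) + ((a : ℂ) + s * I) = (a : ℂ) + ((s + η : ℝ) : ℂ) * I := by
    push_cast
    ring
  rw [h1, h3, Complex.exp_add_mul_I, ← Complex.ofReal_cos, ← Complex.ofReal_sin,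
    ← Complex.ofReal_exp]
  have h4 : ((((a ^ 2 - s ^ 2 : ℝ) : ℂ) + ((2 * (a * s) : ℝ) : ℂ) * I) * t⁻¹ / 2).re =
      ((a ^ 2 - s ^ 2) * (t⁻¹).re - 2 * (a * s) * (t⁻¹).im) / 2 := by
    have h5 : ∀ z : ℂ, (z / 2).re = z.re / 2 := fun z => by
      simpa using Complex.div_ofReal_re z 2
    rw [h5, Complex.mul_re, Complex.add_re, Complex.add_im, Complex.re_ofReal_mul,
      Complex.im_ofReal_mul, Complex.ofReal_re, Complex.ofReal_im, Complex.I_re, Complex.I_im]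
    ring
  rw [Complex.add_re, h4, Complex.re_ofReal_mul, Complex.sub_re, Complex.sub_re, Complex.add_re,
    Complex.re_ofReal_mul, Complex.re_ofReal_mul, Complex.add_re, Complex.re_ofReal_mul,
    Complex.ofReal_re, Complex.ofReal_re, Complex.I_re, Complex.one_re]
  ring

/-- The quadratic bound of `e^a - 1 - a`. -/
private theorem tp_exp_quad {a : ℝ} (ha : |a| ≤ 1) : Real.exp a - 1 - a ≤ a ^ 2 :=
  (le_abs_self _).trans (Real.abs_exp_sub_one_sub_id_le ha)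


/-- the bound on the shifted line -/
private theorem tp_line {t : ℂ} {k η σ0 s a α : ℝ} (ht : 0 < t.re) (hk : 0 < k)
    (hσ0 : 1 ≤ σ0) (hα : α = (t⁻¹).im / k * σ0 / 2) (hα0 : 0 ≤ α) (hα1 : α ≤ 1 / 10)
    (hs : σ0 ≤ |s|) (ha : |a| = α) (has : a * s = α * |s|) :
    ‖f t k (η * I) ((a : ℂ) + s * I)‖ ≤
      Real.exp (-(U k t * σ0 / 4 * |s|)) * Real.exp (-(9 / 10 * k * (1 - Real.cos (s + η)))) := by
  have hA := inv_re_pos ht
  rw [tp_norm_f_eq, ← Real.exp_add]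
  apply Real.exp_le_exp.2
  unfold U
  obtain ⟨A, hAd⟩ : ∃ A, A = (t⁻¹).re := ⟨_, rfl⟩
  obtain ⟨B, hBd⟩ : ∃ B, B = (t⁻¹).im := ⟨_, rfl⟩
  rw [← hAd] at hA ⊢
  rw [← hBd] at hα ⊢
  have ha2 : a ^ 2 = α ^ 2 := by rw [← ha, sq_abs]
  have ha1 : |a| ≤ 1 := by rw [ha]; linarith
  have he := tp_exp_quad ha1
  have he2 : 9 / 10 ≤ Real.exp a := by
    have h1 := Real.add_one_le_exp a
    have h2 := neg_abs_le a
    rw [ha] at h2
    linarith
  have hcos : 0 ≤ 1 - Real.cos (s + η) := by linarith [Real.cos_le_one (s + η)]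
  have h3 : 9 / 10 * k * (1 - Real.cos (s + η)) ≤ k * Real.exp a * (1 - Real.cos (s + η)) := by
    apply mul_le_mul_of_nonneg_right _ hcos
    nlinarith
  have h4 : k * (Real.exp a - 1 - a) ≤ k * α ^ 2 := by
    rw [← ha2]
    exact mul_le_mul_of_nonneg_left he hk.le
  obtain ⟨q, hq⟩ : ∃ q, q = B ^ 2 / k := ⟨_, rfl⟩
  have hq0 : 0 ≤ q := by rw [hq]; positivity
  have h5 : α * B = q * σ0 / 2 := by
    rw [hα, hq]
    field_simp
  have h6 : k * α ^ 2 = q * σ0 ^ 2 / 4 := by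
    rw [hα, hq]
    field_simp
    ring
  have h7 : s ^ 2 = |s| ^ 2 := (sq_abs s).symm
  have hs1 : 1 ≤ |s| := hσ0.trans hs
  have h8 : (α ^ 2 - |s| ^ 2) / 2 ≤ -(σ0 / 4 * |s|) := by
    have h9 : α ^ 2 ≤ 1 / 100 := by nlinarith
    have h10 : σ0 * |s| ≤ |s| ^ 2 := by nlinarith
    nlinarith
  have h11 : (α ^ 2 - |s| ^ 2) / 2 * A ≤ -(σ0 / 4 * |s|) * A :=
    mul_le_mul_of_nonneg_right h8 hA.le
  have h12 : q * σ0 ^ 2 / 4 ≤ q * σ0 * |s| / 4 := by
    have h13 : σ0 ^ 2 ≤ σ0 * |s| := by nlinarith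
    have h14 := mul_le_mul_of_nonneg_left h13 hq0
    linarith
  rw [ha2, has, h7, ← hq]
  have h15 : (α ^ 2 - |s| ^ 2) * A - 2 * (α * |s|) * B
      = (α ^ 2 - |s| ^ 2) * A - q * σ0 * |s| := by
    have : 2 * (α * |s|) * B = 2 * (α * B) * |s| := by ring
    rw [this, h5]
    ring
  rw [h15]
  linarith

/-- the bound on the horizontal segments -/
private theorem tp_horiz {t : ℂ} {k η x s : ℝ} (ht : 0 < t.re) (hB : 0 ≤ (t⁻¹).im) (hk : 0 < k)
    (hx : |x| ≤ 1 / 10) (hcos : Real.cos (s + η) = -1) (hA : (t⁻¹).re ≤ k)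
    (hBs : (t⁻¹).im * |s| ≤ 8 / 100 * k) :
    ‖f t k (η * I) ((x : ℂ) + s * I)‖ ≤ Real.exp (-(3 / 2 * k)) := by
  have hA0 := inv_re_pos ht
  rw [tp_norm_f_eq, hcos]
  apply Real.exp_le_exp.2
  obtain ⟨A, hAd⟩ : ∃ A, A = (t⁻¹).re := ⟨_, rfl⟩
  obtain ⟨B, hBd⟩ : ∃ B, B = (t⁻¹).im := ⟨_, rfl⟩
  rw [← hAd] at hA0 hA ⊢
  rw [← hBd] at hB hBs ⊢
  have hx1 : |x| ≤ 1 := by linarith
  have he := tp_exp_quad hx1
  have he2 : 9 / 10 ≤ Real.exp x := by
    have h1 := Real.add_one_le_exp x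
    have h2 := neg_abs_le x
    linarith
  have hx2 : x ^ 2 ≤ 1 / 100 := by
    rw [← sq_abs]
    nlinarith [abs_nonneg x]
  have h4 : k * (Real.exp x - 1 - x) ≤ k * (1 / 100) :=
    mul_le_mul_of_nonneg_left (he.trans hx2) hk.le
  have h5 : k * Real.exp x * (1 - -1) ≥ k * (9 / 10) * 2 := by
    have := mul_le_mul_of_nonneg_left he2 hk.le
    linarith
  have h6 : x ^ 2 * A ≤ 1 / 100 * k := by
    calc x ^ 2 * A ≤ 1 / 100 * A := mul_le_mul_of_nonneg_right hx2 hA0.le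
      _ ≤ 1 / 100 * k := by linarith
  have h7 : -(x * s * B) ≤ 1 / 10 * (8 / 100 * k) := by
    calc -(x * s * B) ≤ |x * s * B| := neg_le_abs _
      _ = |x| * (B * |s|) := by
          rw [abs_mul, abs_mul, abs_of_nonneg hB]
          ring
      _ ≤ 1 / 10 * (8 / 100 * k) := mul_le_mul hx hBs (by positivity) (by norm_num)
  have h8 : 0 ≤ s ^ 2 * A := by positivity
  have h9 : ((x ^ 2 - s ^ 2) * A - 2 * (x * s) * B) / 2
      = (x ^ 2 * A - s ^ 2 * A) / 2 + -(x * s * B) := by ring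
  rw [h9]
  linarith

/-- one side, `e = ± 1` -/
private theorem tp_side {C : ℝ} (hC : ∀ ϱ k s1 η : ℝ, 1 ≤ ϱ → 1 ≤ k → 0 ≤ s1 →
    IntegrableOn (fun s : ℝ => (1 + s) ^ 2 * (Real.exp (-(ϱ * s)) *
      Real.exp (-(9 / 10 * k * (1 - Real.cos (s + η)))))) (Set.Ioi s1) ∧
    ∫ s in Set.Ioi s1, (1 + s) ^ 2 * (Real.exp (-(ϱ * s)) *
      Real.exp (-(9 / 10 * k * (1 - Real.cos (s + η))))) ≤
        C * Real.exp (-(ϱ * s1 / 2)) * min (1 / √k) (1 / ϱ)) (hC0 : 0 < C)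
    {t : ℂ} {k η σ0 b e : ℝ} (he : e = 1 ∨ e = -1) (ht : 0 < t.re) (hB : 0 ≤ (t⁻¹).im)
    (hk : 1 ≤ k) (hσ0 : 1 ≤ σ0) (hα1 : (t⁻¹).im / k * σ0 / 2 ≤ 1 / 10)
    (hϱ : 1 ≤ U k t * σ0 / 4) (hb : σ0 ≤ b) (hcos : Real.cos (e * b + η) = -1)
    (hA : (t⁻¹).re ≤ k) (hBb : (t⁻¹).im * b ≤ 8 / 100 * k) {m : ℂ → ℂ}
    (hm : Differentiable ℂ m) (hm1 : ∀ x y : ℝ, |x| ≤ 1 → ‖m (x + y * I)‖ ≤ 1 + |y|) :
    ‖∫ s in Set.Ioi b, m (e * (s * I)) * f t k (η * I) (e * (s * I))‖ ≤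
      1 / 10 * ((1 + b) * Real.exp (-(3 / 2 * k))) +
        C * Real.exp (-(U k t * σ0 / 4 * b / 2)) * (1 / √k) := by
  have hk0 : 0 < k := by linarith
  have he1 : |e| = 1 := by rcases he with h | h <;> rw [h] <;> norm_num
  have he2 : e * e = 1 := by rcases he with h | h <;> rw [h] <;> norm_num
  have hb0 : 0 < b := by linarith
  obtain ⟨α, hα⟩ : ∃ α, α = (t⁻¹).im / k * σ0 / 2 := ⟨_, rfl⟩
  have hα0 : 0 ≤ α := by rw [hα]; positivity
  rw [← hα] at hα1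
  obtain ⟨M, c, hM0, hc, hM⟩ := tp_dom (k : ℂ) (η * I) ht
  have hcast : ∀ x y : ℝ, (e : ℂ) * (x + y * I) = ((e * x : ℝ) : ℂ) + ((e * y : ℝ) : ℂ) * I := by
    intro x y
    push_cast
    ring
  obtain ⟨g, hg⟩ : ∃ g : ℂ → ℂ, g = fun h => m (e * h) * f t k (η * I) (e * h) := ⟨_, rfl⟩
  have hgd : Differentiable ℂ g := by
    rw [hg]
    have h1 : Differentiable ℂ fun h : ℂ => (e : ℂ) * h := differentiable_id.const_mul _
    exact (hm.comp h1).mul ((tp_differentiable t k (η * I)).comp h1)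
  have hgn : ∀ x y : ℝ, |x| ≤ 1 → ‖g (x + y * I)‖ ≤
      (1 + |y|) * ‖f t k (η * I) (((e * x : ℝ) : ℂ) + ((e * y : ℝ) : ℂ) * I)‖ := by
    intro x y hx
    rw [hg]
    change ‖m (e * (x + y * I)) * f t k (η * I) (e * (x + y * I))‖ ≤ _
    rw [hcast, norm_mul]
    refine mul_le_mul_of_nonneg_right ?_ (norm_nonneg _)
    have h1 := hm1 (e * x) (e * y) (by rw [abs_mul, he1, one_mul]; exact hx)
    rwa [abs_mul, he1, one_mul] at h1
  have hG : Integrable fun y : ℝ => M * Real.exp (-c * y ^ 2) :=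
    (integrable_exp_neg_mul_sq hc).const_mul _
  have hG0 : Tendsto (fun y : ℝ => M * Real.exp (-c * y ^ 2)) atTop (𝓝 0) := by
    have h1 := (tendsto_rpow_abs_mul_exp_neg_mul_sq_cocompact hc 0).const_mul M
    simp only [Real.rpow_zero, one_mul, mul_zero] at h1
    exact h1.mono_left atTop_le_cocompact
  have hαabs : |α| = α := abs_of_nonneg hα0
  have hbd : ∀ x y : ℝ, |x| ≤ |α| → ‖g (x + y * I)‖ ≤ M * Real.exp (-c * y ^ 2) := by
    intro x y hx
    rw [hαabs] at hx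
    have hx1 : |x| ≤ 1 := by linarith
    refine (hgn x y hx1).trans ?_
    have h1 := hM (e * x) (e * y) (by rw [abs_mul, he1, one_mul]; exact hx1)
    have h2 : (e * y) ^ 2 = y ^ 2 := by
      rw [mul_pow, sq, he2, one_mul]
    rw [h2, abs_mul, he1, one_mul] at h1
    refine le_trans ?_ h1
    refine mul_le_mul_of_nonneg_right ?_ (norm_nonneg _)
    nlinarith [abs_nonneg y]
  have hBd : ∀ x : ℝ, |x| ≤ |α| → ‖g (x + b * I)‖ ≤ (1 + b) * Real.exp (-(3 / 2 * k)) := by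
    intro x hx
    rw [hαabs] at hx
    refine (hgn x b (by linarith)).trans ?_
    rw [abs_of_pos hb0]
    refine mul_le_mul_of_nonneg_left ?_ (by linarith)
    refine tp_horiz ht hB hk0 ?_ hcos hA ?_
    · rw [abs_mul, he1, one_mul]
      linarith
    · rw [abs_mul, he1, one_mul, abs_of_pos hb0]
      exact hBb
  have hshift := ray_shift hgd α b hG hG0 hbd hBd
  obtain ⟨hint, hle⟩ := hC (U k t * σ0 / 4) k b (e * η) hϱ hk hb0.le
  have h2 : ‖∫ s in Set.Ioi b, g (α + s * I)‖ ≤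
      C * Real.exp (-(U k t * σ0 / 4 * b / 2)) * (1 / √k) := by
    refine (norm_integral_le_of_norm_le hint ?_).trans (hle.trans ?_)
    · rw [ae_restrict_iff' measurableSet_Ioi]
      refine Eventually.of_forall fun s hs => ?_
      have hsb : b < s := hs
      have hs0 : 0 < s := hb0.trans hsb
      refine (hgn α s (by rw [hαabs]; linarith)).trans ?_
      rw [abs_of_pos hs0]
      have h3 := tp_line (η := η) (s := e * s) (a := e * α) ht hk0 hσ0 hα hα0 hα1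
        (by rw [abs_mul, he1, one_mul, abs_of_pos hs0]; linarith)
        (by rw [abs_mul, he1, one_mul, hαabs])
        (by
          rw [abs_mul, he1, one_mul, abs_of_pos hs0]
          calc e * α * (e * s) = (e * e) * (α * s) := by ring
            _ = α * s := by rw [he2, one_mul])
      rw [abs_mul, he1, one_mul, abs_of_pos hs0] at h3
      have h4 : Real.cos (e * s + η) = Real.cos (s + e * η) := by
        rcases he with h | h
        · rw [h, one_mul, one_mul]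
        · rw [h, ← Real.cos_neg]
          congr 1
          ring
      rw [h4] at h3
      refine (mul_le_mul_of_nonneg_left h3 (by linarith)).trans ?_
      refine mul_le_mul_of_nonneg_right ?_ (by positivity)
      nlinarith
    · refine mul_le_mul_of_nonneg_left (min_le_left _ _) (by positivity)
  have h3 : (∫ s in Set.Ioi b, m (e * (s * I)) * f t k (η * I) (e * (s * I)))
      = ∫ s in Set.Ioi b, g (s * I) := by rw [hg]
  rw [h3]
  have h4 : |α| * ((1 + b) * Real.exp (-(3 / 2 * k)))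
      ≤ 1 / 10 * ((1 + b) * Real.exp (-(3 / 2 * k))) := by
    rw [hαabs]
    refine mul_le_mul_of_nonneg_right hα1 (by positivity)
  calc ‖∫ s in Set.Ioi b, g (s * I)‖
      ≤ ‖(∫ s in Set.Ioi b, g (s * I)) - ∫ s in Set.Ioi b, g (α + s * I)‖
        + ‖∫ s in Set.Ioi b, g (α + s * I)‖ := by
        have := norm_add_le ((∫ s in Set.Ioi b, g (s * I)) - ∫ s in Set.Ioi b, g (α + s * I))
          (∫ s in Set.Ioi b, g (α + s * I))
        rwa [sub_add_cancel] at this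
    _ ≤ _ := add_le_add (hshift.trans h4) h2

/-- both tails -/
private theorem tp_both {C : ℝ} (hC : ∀ ϱ k s1 η : ℝ, 1 ≤ ϱ → 1 ≤ k → 0 ≤ s1 →
    IntegrableOn (fun s : ℝ => (1 + s) ^ 2 * (Real.exp (-(ϱ * s)) *
      Real.exp (-(9 / 10 * k * (1 - Real.cos (s + η)))))) (Set.Ioi s1) ∧
    ∫ s in Set.Ioi s1, (1 + s) ^ 2 * (Real.exp (-(ϱ * s)) *
      Real.exp (-(9 / 10 * k * (1 - Real.cos (s + η))))) ≤
        C * Real.exp (-(ϱ * s1 / 2)) * min (1 / √k) (1 / ϱ)) (hC0 : 0 < C)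
    {t : ℂ} {k η σ0 b1 L : ℝ} (ht : 0 < t.re) (hB : 0 ≤ (t⁻¹).im)
    (hk : 1 ≤ k) (hσ0 : 1 ≤ σ0) (hα1 : (t⁻¹).im / k * σ0 / 2 ≤ 1 / 10)
    (hϱ : 1 ≤ U k t * σ0 / 4) (hL1 : σ0 ≤ L - η) (hL2 : σ0 ≤ L + η) (hL3 : L - η ≤ b1)
    (hL4 : L + η ≤ b1) (hcos : Real.cos L = -1)
    (hA : (t⁻¹).re ≤ k) (hBb : (t⁻¹).im * b1 ≤ 8 / 100 * k) {m : ℂ → ℂ}
    (hm : Differentiable ℂ m) (hm1 : ∀ x y : ℝ, |x| ≤ 1 → ‖m (x + y * I)‖ ≤ 1 + |y|) :
    ‖(∫ s : ℝ, m ((s - η) * I) * f t k (η * I) ((s - η) * I)) -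
      ∫ s in (-L)..L, m ((s - η) * I) * f t k (η * I) ((s - η) * I)‖ ≤
      2 * (1 / 10 * ((1 + b1) * Real.exp (-(3 / 2 * k))) +
        C * Real.exp (-(U k t * σ0 / 4 * σ0 / 2)) * (1 / √k)) := by
  have hk0 : 0 < k := by linarith
  obtain ⟨F, hF⟩ : ∃ F : ℝ → ℂ, F = fun s : ℝ => m (s * I) * f t k (η * I) (s * I) := ⟨_, rfl⟩
  have hFc : Continuous F := by
    rw [hF]
    have h1 := hm.continuous
    have h2 := (tp_differentiable t k (η * I)).continuous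
    fun_prop
  have hFi : Integrable F := by
    have h1 := f_strip_integrable (κ := (k : ℂ)) (ξ := η * I) ht (x := 0) (by simp)
    refine Integrable.mono' h1 hFc.aestronglyMeasurable (Eventually.of_forall fun s => ?_)
    rw [hF]
    change ‖m (s * I) * f t k (η * I) (s * I)‖ ≤ _
    have h2 := hm1 0 s (by simp)
    rw [Complex.ofReal_zero, zero_add] at h2 ⊢
    rw [norm_mul]
    refine mul_le_mul_of_nonneg_right (h2.trans ?_) (norm_nonneg _)
    nlinarith [abs_nonneg s]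
  have h1 : (∫ s : ℝ, m ((s - η) * I) * f t k (η * I) ((s - η) * I)) = ∫ s, F s := by
    rw [← integral_sub_right_eq_self F η]
    refine integral_congr_ae (Eventually.of_forall fun s => ?_)
    rw [hF]
    dsimp only
    push_cast
    rfl
  have h2 : (∫ s in (-L)..L, m ((s - η) * I) * f t k (η * I) ((s - η) * I))
      = ∫ s in (-L - η)..(L - η), F s := by
    rw [← intervalIntegral.integral_comp_sub_right]
    refine intervalIntegral.integral_congr fun s _ => ?_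
    rw [hF]
    dsimp only
    push_cast
    rfl
  have h3 := intervalIntegral.integral_Iic_add_Ioi (hFi.integrableOn (s := Set.Iic (-L - η)))
    (hFi.integrableOn (s := Set.Ioi (-L - η)))
  have h4 := intervalIntegral.integral_interval_add_Ioi (hFi.integrableOn (s := Set.Ioi (-L - η)))
    (hFi.integrableOn (s := Set.Ioi (L - η)))
  have h5 : (∫ s in Set.Iic (-L - η), F s) = ∫ s in Set.Ioi (L + η), F (-s) := by
    have : -(L + η) = -L - η := by ring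
    rw [integral_comp_neg_Ioi, this]
  have hr := tp_side hC hC0 (e := 1) (Or.inl rfl) ht hB hk hσ0 hα1 hϱ hL1
    (by rw [one_mul, sub_add_cancel]; exact hcos) hA
    ((mul_le_mul_of_nonneg_left hL3 hB).trans hBb) hm hm1
  have hl := tp_side hC hC0 (e := -1) (Or.inr rfl) ht hB hk hσ0 hα1 hϱ hL2
    (by
      have : (-1 : ℝ) * (L + η) + η = -L := by ring
      rw [this, Real.cos_neg]
      exact hcos) hA
    ((mul_le_mul_of_nonneg_left hL4 hB).trans hBb) hm hm1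
  have h6 : (∫ s in Set.Ioi (L - η), m ((1 : ℝ) * (s * I)) * f t k (η * I) ((1 : ℝ) * (s * I)))
      = ∫ s in Set.Ioi (L - η), F s := by
    rw [hF]
    refine integral_congr_ae (Eventually.of_forall fun s => ?_)
    dsimp only
    rw [Complex.ofReal_one, one_mul]
  have h7 : (∫ s in Set.Ioi (L + η), m ((-1 : ℝ) * (s * I)) * f t k (η * I) ((-1 : ℝ) * (s * I)))
      = ∫ s in Set.Ioi (L + η), F (-s) := by
    rw [hF]
    refine integral_congr_ae (Eventually.of_forall fun s => ?_)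
    dsimp only
    push_cast
    rw [neg_one_mul, ← neg_mul]
  rw [h6] at hr
  rw [h7] at hl
  have hmono : ∀ b : ℝ, σ0 ≤ b → b ≤ b1 →
      1 / 10 * ((1 + b) * Real.exp (-(3 / 2 * k))) +
        C * Real.exp (-(U k t * σ0 / 4 * b / 2)) * (1 / √k) ≤
      1 / 10 * ((1 + b1) * Real.exp (-(3 / 2 * k))) +
        C * Real.exp (-(U k t * σ0 / 4 * σ0 / 2)) * (1 / √k) := by
    intro b hb1 hb2
    have h8 : Real.exp (-(U k t * σ0 / 4 * b / 2)) ≤ Real.exp (-(U k t * σ0 / 4 * σ0 / 2)) := by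
      apply Real.exp_le_exp.2
      have : U k t * σ0 / 4 * σ0 ≤ U k t * σ0 / 4 * b :=
        mul_le_mul_of_nonneg_left hb1 (by linarith)
      linarith
    gcongr
  have hr' := hr.trans (hmono _ hL1 hL3)
  have hl' := hl.trans (hmono _ hL2 hL4)
  have h8 : (∫ s, F s) - ∫ s in (-L - η)..(L - η), F s
      = (∫ s in Set.Ioi (L + η), F (-s)) + ∫ s in Set.Ioi (L - η), F s := by
    rw [← h3, ← h4, h5]
    ring
  rw [h1, h2, h8]
  refine (norm_add_le _ _).trans ?_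
  linarith

theorem tail_pos (M δ : ℝ) (hM : 0 ≤ M) (hδ : 0 < δ) : ∃ J : ℕ, 4 ≤ J ∧ ∃ ε : ℝ, 0 < ε ∧
    ∀ (t : ℂ) (k η : ℝ), Reg ε k t → 0 < t.re → |η| ≤ Real.pi →
    ‖(∫ s : ℝ, f t k (η * I) ((s - η) * I)) -
      ∫ s in (-((2 * J + 1) * Real.pi))..((2 * J + 1) * Real.pi), f t k (η * I) ((s - η) * I)‖ ≤
      δ / ((J + 1) * √k) * Real.exp (-(M * U k t)) ∧
    ‖(∫ s : ℝ, ((s - η) * I) * f t k (η * I) ((s - η) * I)) -
      ∫ s in (-((2 * J + 1) * Real.pi))..((2 * J + 1) * Real.pi),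
        ((s - η) * I) * f t k (η * I) ((s - η) * I)‖ ≤
      δ / ((J + 1) * √k) * Real.exp (-(M * U k t)) := by
  obtain ⟨C, hC0, hC⟩ := outer_int
  obtain ⟨J, hJ⟩ : ∃ J : ℕ, J = 12 + ⌈M⌉₊ + ⌈40 * C / δ⌉₊ := ⟨_, rfl⟩
  have hJ12 : (12 : ℝ) ≤ J := by
    have : 12 ≤ J := by rw [hJ]; omega
    exact_mod_cast this
  have hJM : M ≤ J := by
    refine (Nat.le_ceil M).trans ?_
    have : ⌈M⌉₊ ≤ J := by rw [hJ]; omega
    exact_mod_cast this
  have hJC : 40 * C ≤ δ * J := by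
    have h1 : 40 * C / δ ≤ J := by
      refine (Nat.le_ceil _).trans ?_
      have : ⌈40 * C / δ⌉₊ ≤ J := by rw [hJ]; omega
      exact_mod_cast this
    rw [div_le_iff₀ hδ] at h1
    linarith
  refine ⟨J, by rw [hJ]; omega, ?_⟩
  obtain ⟨ε, hε0, hε1, hε2, hε3, hε4⟩ : ∃ ε : ℝ, 0 < ε ∧ ε ≤ 1 ∧ ε * (100 * (J + 1)) ≤ 1 ∧
      ε * (8 * (M + 1)) ≤ 1 ∧ ε * (16 * (J + 1) ^ 2) ≤ δ := by
    refine ⟨min (min (1 / (100 * ((J : ℝ) + 1))) (1 / (8 * (M + 1))))
      (δ / (16 * ((J : ℝ) + 1) ^ 2)), ?_, ?_, ?_, ?_, ?_⟩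
    · apply lt_min (lt_min (by positivity) (by positivity)) (by positivity)
    · refine (min_le_left _ _).trans ((min_le_left _ _).trans ?_)
      rw [div_le_one (by positivity)]
      linarith
    · rw [← le_div_iff₀ (by positivity)]
      exact (min_le_left _ _).trans (min_le_left _ _)
    · rw [← le_div_iff₀ (by positivity)]
      exact (min_le_left _ _).trans (min_le_right _ _)
    · rw [← le_div_iff₀ (by positivity)]
      exact min_le_right _ _
  refine ⟨ε, hε0, ?_⟩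
  intro t k η hR ht hη
  have hk0 := hR.k_pos
  have hkε : 1 ≤ ε * k := by
    have h1 := hR.hk
    rwa [inv_le_iff_one_le_mul₀ hε0, mul_comm] at h1
  have hk1 : 1 ≤ k := hkε.trans (mul_le_of_le_one_left hk0.le hε1)
  have hB := hR.inv_im
  have hBk := hR.inv_im_le
  have hAk := hR.inv_re_le
  have hU := hR.hU
  have hpi3 := Real.pi_gt_three
  have hpi4 := Real.pi_lt_four
  have hη1 := (abs_le.1 hη).1
  have hη2 := (abs_le.1 hη).2
  obtain ⟨L, hL⟩ : ∃ L : ℝ, L = (2 * J + 1) * Real.pi := ⟨_, rfl⟩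
  have hJ0 : (0 : ℝ) ≤ J := by linarith
  have hJpi : (6 : ℝ) * J ≤ 2 * J * Real.pi := by nlinarith
  have hLs : 6 * (J : ℝ) ≤ L - Real.pi := by rw [hL]; linarith
  have hLb : L + Real.pi ≤ 8 * ((J : ℝ) + 1) := by
    rw [hL]
    nlinarith
  have hcos : Real.cos L = -1 := by
    have h1 : L = (J : ℝ) * (2 * Real.pi) + Real.pi := by rw [hL]; ring
    rw [h1, Real.cos_nat_mul_two_pi_add_pi]
  -- the common hypotheses
  have hα1 : (t⁻¹).im / k * (6 * J) / 2 ≤ 1 / 10 := by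
    have h1 : (t⁻¹).im / k ≤ ε := (div_le_iff₀ hk0).2 hBk
    have h2 : (t⁻¹).im / k * (6 * J) ≤ ε * (6 * J) :=
      mul_le_mul_of_nonneg_right h1 (by positivity)
    have h3 : ε * (6 * (J : ℝ)) ≤ 1 / 10 := by nlinarith
    linarith
  have hϱ : 1 ≤ U k t * (6 * J) / 4 := by nlinarith
  have hA : (t⁻¹).re ≤ k := hAk.trans (mul_le_of_le_one_left hk0.le hε1)
  have hBb : (t⁻¹).im * (8 * (J + 1)) ≤ 8 / 100 * k := by
    calc (t⁻¹).im * (8 * (J + 1)) ≤ (ε * k) * (8 * (J + 1)) :=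
          mul_le_mul_of_nonneg_right hBk (by positivity)
      _ = 8 / 100 * (ε * (100 * (J + 1))) * k := by ring
      _ ≤ 8 / 100 * 1 * k := by
          refine mul_le_mul_of_nonneg_right ?_ hk0.le
          exact mul_le_mul_of_nonneg_left hε2 (by norm_num)
      _ = _ := by ring
  have hUup : M * U k t ≤ k / 4 := by
    have h1 : U k t ≤ 2 * (ε * k) := by
      unfold U
      have h2 : (t⁻¹).im ^ 2 / k ≤ ε * k := by
        rw [div_le_iff₀ hk0]
        have h3 : (t⁻¹).im ^ 2 ≤ (ε * k) ^ 2 := pow_le_pow_left₀ hB hBk 2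
        have h4 : (ε * k) ^ 2 = ε * (ε * k * k) := by ring
        have h5 : ε * (ε * k * k) ≤ 1 * (ε * k * k) :=
          mul_le_mul_of_nonneg_right hε1 (by positivity)
        linarith
      linarith
    calc M * U k t ≤ M * (2 * (ε * k)) := mul_le_mul_of_nonneg_left h1 hM
      _ = (ε * (8 * M)) * k / 4 := by ring
      _ ≤ 1 * k / 4 := by
          have h2 : ε * (8 * M) ≤ 1 := by nlinarith
          have h3 := mul_le_mul_of_nonneg_right h2 hk0.le
          linarith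
      _ = k / 4 := by ring
  have hsq0 : 0 < √k := Real.sqrt_pos.2 hk0
  -- claim 1
  have hc1 : C * Real.exp (-(U k t * (6 * J) / 4 * (6 * J) / 2)) ≤
      δ / (4 * (J + 1)) * Real.exp (-(M * U k t)) := by
    have h1 : -(U k t * (6 * J) / 4 * (6 * J) / 2) ≤ -(21 / 100 * (J : ℝ) ^ 2) + -(M * U k t) := by
      have h2 : M ≤ (J : ℝ) ^ 2 := by nlinarith
      have h3 : (6 / 100 : ℝ) * (7 / 2 * (J : ℝ) ^ 2) ≤ U k t * (9 / 2 * (J : ℝ) ^ 2 - M) := by
        refine mul_le_mul hU ?_ (by positivity) (by linarith)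
        linarith
      nlinarith
    have h4 : Real.exp (-(21 / 100 * (J : ℝ) ^ 2)) ≤ 5 / (J : ℝ) ^ 2 := by
      rw [Real.exp_neg, ← one_div, div_le_div_iff₀ (Real.exp_pos _) (by positivity)]
      have h5 := Real.add_one_le_exp (21 / 100 * (J : ℝ) ^ 2)
      nlinarith
    have h6 : C * (5 / (J : ℝ) ^ 2) ≤ δ / (4 * (J + 1)) := by
      rw [mul_div_assoc', div_le_div_iff₀ (by positivity) (by positivity)]
      nlinarith
    calc C * Real.exp (-(U k t * (6 * J) / 4 * (6 * J) / 2))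
        ≤ C * Real.exp (-(21 / 100 * (J : ℝ) ^ 2) + -(M * U k t)) :=
          mul_le_mul_of_nonneg_left (Real.exp_le_exp.2 h1) hC0.le
      _ = C * Real.exp (-(21 / 100 * (J : ℝ) ^ 2)) * Real.exp (-(M * U k t)) := by
          rw [Real.exp_add, mul_assoc]
      _ ≤ δ / (4 * (J + 1)) * Real.exp (-(M * U k t)) := by
          refine mul_le_mul_of_nonneg_right ?_ (Real.exp_pos _).le
          exact (mul_le_mul_of_nonneg_left h4 hC0.le).trans h6
  -- claim 2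
  have hc2 : 1 / 10 * ((1 + 8 * ((J : ℝ) + 1)) * Real.exp (-(3 / 2 * k))) ≤
      δ / (4 * (J + 1)) * Real.exp (-(M * U k t)) * (1 / √k) := by
    have h1 : √k ≤ Real.exp k := by
      have h2 : √k ≤ k := by
        rw [Real.sqrt_le_left hk0.le]
        nlinarith
      have h3 := Real.add_one_le_exp k
      linarith
    have h2 : Real.exp (-(3 / 2 * k)) * √k ≤ 4 * ε * Real.exp (-(M * U k t)) := by
      calc Real.exp (-(3 / 2 * k)) * √k ≤ Real.exp (-(3 / 2 * k)) * Real.exp k :=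
            mul_le_mul_of_nonneg_left h1 (Real.exp_pos _).le
        _ = Real.exp (-(k / 4)) * Real.exp (-(k / 4)) := by
            rw [← Real.exp_add, ← Real.exp_add]
            congr 1
            ring
        _ ≤ 4 * ε * Real.exp (-(M * U k t)) := by
            refine mul_le_mul ?_ (Real.exp_le_exp.2 (by linarith)) (Real.exp_pos _).le
              (by positivity)
            rw [Real.exp_neg, inv_le_iff_one_le_mul₀ (Real.exp_pos _)]
            have h3 := Real.add_one_le_exp (k / 4)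
            have h4 : ε * (k / 4) ≤ ε * Real.exp (k / 4) :=
              mul_le_mul_of_nonneg_left (by linarith) hε0.le
            linarith
    rw [mul_one_div, le_div_iff₀ hsq0]
    have h3 : 1 / 10 * (1 + 8 * ((J : ℝ) + 1)) * (4 * ε) ≤ δ / (4 * (J + 1)) := by
      rw [le_div_iff₀ (by positivity)]
      nlinarith
    calc 1 / 10 * ((1 + 8 * ((J : ℝ) + 1)) * Real.exp (-(3 / 2 * k))) * √k
        = 1 / 10 * (1 + 8 * ((J : ℝ) + 1)) * (Real.exp (-(3 / 2 * k)) * √k) := by ring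
      _ ≤ 1 / 10 * (1 + 8 * ((J : ℝ) + 1)) * (4 * ε * Real.exp (-(M * U k t))) :=
          mul_le_mul_of_nonneg_left h2 (by positivity)
      _ = 1 / 10 * (1 + 8 * ((J : ℝ) + 1)) * (4 * ε) * Real.exp (-(M * U k t)) := by ring
      _ ≤ _ := mul_le_mul_of_nonneg_right h3 (Real.exp_pos _).le
  have hfin : 2 * (1 / 10 * ((1 + 8 * ((J : ℝ) + 1)) * Real.exp (-(3 / 2 * k))) +
        C * Real.exp (-(U k t * (6 * J) / 4 * (6 * J) / 2)) * (1 / √k)) ≤
      δ / ((J + 1) * √k) * Real.exp (-(M * U k t)) := by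
    have h1 := mul_le_mul_of_nonneg_right hc1 (by positivity : 0 ≤ 1 / √k)
    have h2 : δ / ((J + 1) * √k) * Real.exp (-(M * U k t)) =
        4 * (δ / (4 * (J + 1)) * Real.exp (-(M * U k t)) * (1 / √k)) := by
      field_simp
    rw [h2]
    linarith
  have key : ∀ m : ℂ → ℂ, Differentiable ℂ m →
      (∀ x y : ℝ, |x| ≤ 1 → ‖m (x + y * I)‖ ≤ 1 + |y|) →
      ‖(∫ s : ℝ, m ((s - η) * I) * f t k (η * I) ((s - η) * I)) -
      ∫ s in (-L)..L, m ((s - η) * I) * f t k (η * I) ((s - η) * I)‖ ≤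
      δ / ((J + 1) * √k) * Real.exp (-(M * U k t)) := by
    intro m hm hm1
    refine (tp_both hC hC0 (σ0 := 6 * J) (b1 := 8 * (J + 1)) ht hB hk1 (by linarith) hα1 hϱ
      (by linarith) (by linarith) (by linarith) (by linarith) hcos hA hBb hm hm1).trans hfin
  rw [← hL]
  constructor
  · have h1 := key (fun _ => 1) (differentiable_const _) (fun x y _ => by
      rw [norm_one]
      linarith [abs_nonneg y])
    simp only [one_mul] at h1
    exact h1
  · exact key (fun h => h) differentiable_id (fun x y hx => by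
      refine (norm_add_le _ _).trans ?_
      rw [norm_mul, Complex.norm_I, mul_one, Complex.norm_real, Complex.norm_real,
        Real.norm_eq_abs, Real.norm_eq_abs]
      linarith)

end SokalW
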